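import Pool.Agent.Lib.MP_361a6f_ag.FL.BAL.StatS
import Pool.Agent.Lib.MP_361a6f_ag.FL.GeoDefs
import Pool.Agent.Lib.MP_361a6f_ag.H3.Basic

/-!
# Numerical and homological equivalence on the varieties detected by the powers of `X`

If numerical equivalence is homological equivalence in codimension `j` on the powers of `X`, then
the same is true on every smooth proper variety `Y` whose cohomology in degree `2 j` is detected by
algebraic correspondences of degree `0` with the powers of `X`.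
-/

open CategoryTheory AlgebraicGeometry MonoidalCategory CartesianMonoidalCategory

universe u w

set_option autoImplicit false

namespace Pool.Agent.Lib.MP_361a6f_ag.FL.E

namespace BalD

open Pool.Agent.Lib.MP_361a6f_ag.H3 Pool.Agent.Lib.MP_361a6f_ag.SQ

variable {k : Type u} [Field k] {W : CohomologyData.{u, 0, w} k ℂ} {𝒱 : VarietyClass k}

/-- members of the complex span of the algebraic classes have even degree -/
theorem span_deg (hW : IsWeilCohomology W 𝒱) {Y : Sch k} {n j : ℕ} (hY : 𝒱.mem Y n)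
    {x : W.coh Y} (hx : x ∈ Submodule.span ℂ {z | W.IsAlg Y j z}) : W.Deg Y (2 * j) x := by
  have hle : Submodule.span ℂ {z | W.IsAlg Y j z} ≤ W.gr Y (2 * j) := by
    rw [Submodule.span_le]
    intro z hz
    exact hW.alg_gr hY hz
  exact hle hx

/-- an algebraic correspondence of degree `0` sends the span of the algebraic classes of
codimension `j` to the span of the algebraic classes of codimension `j` -/
theorem span_act (hW : IsWeilCohomology W 𝒱) {Y Z : Sch k} {n m j : ℕ} (hY : 𝒱.mem Y n)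
    (hZ : 𝒱.mem Z m) {c : W.coh (Y.prod Z)} (hc : W.IsAlg (Y.prod Z) n c) {x : W.coh Y}
    (hx : x ∈ Submodule.span ℂ {z | W.IsAlg Y j z}) :
    W.pf (Y.pr₂ Z) (W.cup (W.pb (Y.pr₁ Z) x) c) ∈ Submodule.span ℂ {z | W.IsAlg Z j z} := by
  have hYZ := 𝒱.prod hY hZ
  induction hx using Submodule.span_induction with
  | mem x hx =>
    refine Submodule.subset_span ?_
    exact hW.cycles.push hYZ hZ (Y.pr₂ Z)
      (hW.cycles.mul hYZ (hW.cycles.pull hYZ hY (Y.pr₁ Z) hx) hc) (by omega)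
  | zero => simp
  | add x y _ _ hx hy =>
    have h : W.pf (Y.pr₂ Z) (W.cup (W.pb (Y.pr₁ Z) (x + y)) c) =
        W.pf (Y.pr₂ Z) (W.cup (W.pb (Y.pr₁ Z) x) c) +
          W.pf (Y.pr₂ Z) (W.cup (W.pb (Y.pr₁ Z) y) c) := by
      change W.push _ (W.pull _ (x + y) * c) = W.push _ (W.pull _ x * c) +
        W.push _ (W.pull _ y * c)
      rw [map_add (W.pull _), add_mul, map_add]
    rw [h]
    exact Submodule.add_mem _ hx hy
  | smul a x _ hx =>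
    have h : W.pf (Y.pr₂ Z) (W.cup (W.pb (Y.pr₁ Z) (a • x)) c) =
        a • W.pf (Y.pr₂ Z) (W.cup (W.pb (Y.pr₁ Z) x) c) := by
      change W.push _ (W.pull _ (a • x) * c) = a • W.push _ (W.pull _ x * c)
      rw [map_smul (W.pull _), smul_mul_assoc, map_smul]
    rw [h]
    exact Submodule.smul_mem _ _ hx

/-- if `x` is numerically trivial then so is its image under an algebraic correspondence -/
theorem num_act (hW : IsWeilCohomology W 𝒱) {Y Z : Sch k} {n m j : ℕ} (hY : 𝒱.mem Y n)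
    (hZ : 𝒱.mem Z m) {c : W.coh (Y.prod Z)} (hc : W.IsAlg (Y.prod Z) n c) {x : W.coh Y}
    (hx : W.Deg Y (2 * j) x) (h0 : ∀ l y, W.IsAlg Y l y → W.Tr (W.cup x y) = 0)
    (l : ℕ) (y : W.coh Z) (hy : W.IsAlg Z l y) :
    W.Tr (W.cup (W.pf (Y.pr₂ Z) (W.cup (W.pb (Y.pr₁ Z) x) c)) y) = 0 := by
  have hYZ := 𝒱.prod hY hZ
  have h1 : W.Tr (W.cup (W.pf (Y.pr₂ Z) (W.cup (W.pb (Y.pr₁ Z) x) c)) y) =
      W.Tr (W.cup (W.cup (W.pb (Y.pr₁ Z) x) c) (W.pb (Y.pr₂ Z) y)) :=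
    hW.poincare.adj hYZ hZ (Y.pr₂ Z) _ y
  have hw : W.IsAlg (Y.prod Z) (n + l) (W.cup c (W.pb (Y.pr₂ Z) y)) :=
    hW.cycles.mul hYZ hc (hW.cycles.pull hYZ hZ (Y.pr₂ Z) hy)
  have h2 : W.Tr (W.cup (W.pf (Y.pr₁ Z) (W.cup c (W.pb (Y.pr₂ Z) y))) x) =
      W.Tr (W.cup (W.cup c (W.pb (Y.pr₂ Z) y)) (W.pb (Y.pr₁ Z) x)) :=
    hW.poincare.adj hYZ hY (Y.pr₁ Z) _ x
  have h3 : W.cup (W.cup (W.pb (Y.pr₁ Z) x) c) (W.pb (Y.pr₂ Z) y) =
      W.cup (W.cup c (W.pb (Y.pr₂ Z) y)) (W.pb (Y.pr₁ Z) x) := by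
    change (W.pb (Y.pr₁ Z) x * c) * W.pb (Y.pr₂ Z) y =
      (c * W.pb (Y.pr₂ Z) y) * W.pb (Y.pr₁ Z) x
    rw [mul_assoc]
    exact hW.even_comm hYZ (hW.graded.pull hYZ hY (Y.pr₁ Z) hx) _
  rw [h1, h3, ← h2]
  by_cases hl : n + l < m
  · have h4 : W.pf (Y.pr₁ Z) (W.cup c (W.pb (Y.pr₂ Z) y)) = 0 :=
      hW.push_zero hYZ hY (Y.pr₁ Z) (hW.alg_gr hYZ hw) (by omega)
    rw [h4]
    simp
  · have h5 : W.IsAlg Y (n + l - m) (W.pf (Y.pr₁ Z) (W.cup c (W.pb (Y.pr₂ Z) y))) :=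
      hW.cycles.push hYZ hY (Y.pr₁ Z) hw (by omega)
    have h6 : W.cup (W.pf (Y.pr₁ Z) (W.cup c (W.pb (Y.pr₂ Z) y))) x =
        W.cup x (W.pf (Y.pr₁ Z) (W.cup c (W.pb (Y.pr₂ Z) y))) := hW.alg_comm hY h5 x
    rw [h6]
    exact h0 _ _ h5

/-- **Descent.** If numerical equivalence is homological equivalence in codimension `j` on the
powers of `X`, then also on every variety whose cohomology in degree `2 j` is detected by the powers
of `X`. -/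
theorem numHomAt_of_det (hW : IsWeilCohomology W 𝒱) {X Y : Sch k} {g n j : ℕ} (hX : 𝒱.mem X g)
    (hY : 𝒱.mem Y n) (h : ∀ P, EQ.NumHomAt W (EQ.pw X P) j) (hd : EQ.DetAt W X Y n j) :
    EQ.NumHomAt W Y j := by
  intro x hx h0
  have hdeg := span_deg hW hY hx
  refine hd x hdeg fun P c hc => ?_
  have hm : 𝒱.mem (EQ.pw X P) (P.dim fun _ => g) := FL.memP (fun _ => hX) P
  exact h P _ (span_act hW hY hm hc hx) fun l y hy => num_act hW hY hm hc hdeg h0 l y hy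

/-- the class of the diagonal acts as the identity on the classes of even degree -/
theorem act_diag (hW : IsWeilCohomology W 𝒱) {Y : Sch k} {n j : ℕ} (hY : 𝒱.mem Y n)
    {x : W.coh Y} (hx : W.Deg Y (2 * j) x) :
    W.pf (Y.pr₂ Y) (W.cup (W.pb (Y.pr₁ Y) x) (W.pf (lift (𝟙 Y) (𝟙 Y) : Sch.Mor Y (Y.prod Y)) 1)) =
      x := by
  have hYY := 𝒱.prod hY hY
  set Δ : Sch.Mor Y (Y.prod Y) := lift (𝟙 Y) (𝟙 Y) with hΔ
  have key : ∀ y, W.Tr (W.cup (W.pf (Y.pr₂ Y) (W.cup (W.pb (Y.pr₁ Y) x) (W.pf Δ 1))) y) =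
      W.Tr (W.cup x y) := by
    intro y
    have h2 : W.Tr (W.cup (W.pf (Y.pr₂ Y) (W.cup (W.pb (Y.pr₁ Y) x) (W.pf Δ 1))) y) =
        W.Tr (W.cup (W.cup (W.pb (Y.pr₁ Y) x) (W.pf Δ 1)) (W.pb (Y.pr₂ Y) y)) :=
      hW.poincare.adj hYY hY (Y.pr₂ Y) _ y
    have h3 : W.cup (W.cup (W.pb (Y.pr₁ Y) x) (W.pf Δ 1)) (W.pb (Y.pr₂ Y) y) =
        W.cup (W.pf Δ 1) (W.cup (W.pb (Y.pr₁ Y) x) (W.pb (Y.pr₂ Y) y)) := by
      change (W.pb (Y.pr₁ Y) x * W.pf Δ 1) * W.pb (Y.pr₂ Y) y =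
        W.pf Δ 1 * (W.pb (Y.pr₁ Y) x * W.pb (Y.pr₂ Y) y)
      rw [hW.even_comm hYY (hW.graded.pull hYY hY (Y.pr₁ Y) hx) (W.pf Δ 1), mul_assoc]
    have h4 : W.Tr (W.cup (W.pf Δ 1) (W.cup (W.pb (Y.pr₁ Y) x) (W.pb (Y.pr₂ Y) y))) =
        W.Tr (W.cup 1 (W.pb Δ (W.cup (W.pb (Y.pr₁ Y) x) (W.pb (Y.pr₂ Y) y)))) :=
      hW.poincare.adj hY hYY Δ 1 _
    have h5 : W.cup 1 (W.pb Δ (W.cup (W.pb (Y.pr₁ Y) x) (W.pb (Y.pr₂ Y) y))) = W.cup x y := by
      change 1 * W.pull Δ (W.pull (Y.pr₁ Y) x * W.pull (Y.pr₂ Y) y) = x * y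
      rw [one_mul, map_mul, ← W.pull_comp, ← W.pull_comp]
      have e1 : Δ ≫ Y.pr₁ Y = 𝟙 Y := lift_fst _ _
      have e2 : Δ ≫ Y.pr₂ Y = 𝟙 Y := lift_snd _ _
      rw [e1, e2, W.pull_id, W.pull_id]
    rw [h2, h3, h4, h5]
  rw [← sub_eq_zero]
  refine hW.poincare.duality hY _ fun y => ?_
  change W.tr Y ((W.pf (Y.pr₂ Y) (W.cup (W.pb (Y.pr₁ Y) x) (W.pf Δ 1)) - x) * y) = 0
  rw [sub_mul, map_sub, sub_eq_zero]
  exact key y

/-- the powers of `X` are detected by the powers of `X`, by the class of the diagonal -/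
theorem detAt_pw (hW : IsWeilCohomology W 𝒱) {X : Sch k} {g : ℕ} (hX : 𝒱.mem X g)
    (P : Prd 1) (j : ℕ) : EQ.DetAt W X (EQ.pw X P) (P.dim fun _ => g) j := by
  intro x hx h
  have hY : 𝒱.mem (EQ.pw X P) (P.dim fun _ => g) := FL.memP (fun _ => hX) P
  rw [← act_diag hW hY hx]
  exact h P _ (hW.cycles.push hY (𝒱.prod hY hY) _ (hW.cycles.one hY) (by omega))

end BalD

end Pool.Agent.Lib.MP_361a6f_ag.FL.E
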