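import Pool.Agent.Lib.MP_361a6f_ag.FL.EMC.GeoC
import Pool.Agent.Lib.MP_361a6f_ag.FL.E.EndT

/-!
# Numerical and homological equivalence from balancing symmetries

`X` is one variety with a unital law, over any field; no specialisation is used.
-/

open CategoryTheory AlgebraicGeometry MonoidalCategory CartesianMonoidalCategory

universe u w

set_option autoImplicit false

namespace Pool.Agent.Lib.MP_361a6f_ag.FL.E

open Pool.Agent.Lib.MP_361a6f_ag.H3 Pool.Agent.Lib.MP_361a6f_ag.SQ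
  Pool.Agent.Lib.MP_361a6f_ag.PP

namespace Bal0

open Pool.Agent.Lib.MP_361a6f_ag.FL.E.Orb Pool.Agent.Lib.MP_361a6f_ag.FL.E.BR

/-- a member of a span that pairs non-trivially gives a generator -/
theorem exists_gen {I Λ : Type} [Fintype I] [DecidableEq I] {D : Dat I Λ} {L : ℕ}
    {A : Set (Ten I L)} {u v : Ten I L} (hv : v ∈ Submodule.span ℂ A) (hne : psiT D u v ≠ 0) :
    ∃ v ∈ A, psiT D u v ≠ 0 := by
  by_contra hcon
  push Not at hcon
  apply hne
  clear hne
  induction hv using Submodule.span_induction with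
  | mem v hv => exact hcon v hv
  | zero => simp [psiT]
  | add a b _ _ ha hb =>
    unfold psiT at ha hb ⊢
    simp only [Pi.add_apply, mul_add, Finset.sum_add_distrib, ha, hb, add_zero]
  | smul t a _ ha =>
    have e : psiT D u (t • a) = t * psiT D u a := by
      unfold psiT
      rw [Finset.mul_sum]
      refine Finset.sum_congr rfl fun w _ => ?_
      rw [Pi.smul_apply, smul_eq_mul]
      ring
    rw [e, ha, mul_zero]

/-- a class that pairs to zero with the algebraic classes of every codimension -/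
theorem num_tot {k : Type u} [Field k] {W : CohomologyData.{u, 0, w} k ℂ} {𝒱 : VarietyClass k}
    (hW : IsWeilCohomology W 𝒱) {Y : Sch k} {x : W.coh Y}
    (h : ∀ l, ∀ y ∈ W.alg Y l, W.tr Y (x * y) = 0) : ∀ y ∈ tot W Y, W.tr Y (x * y) = 0 := by
  intro y hy
  refine tot_induction (P := fun y => W.tr Y (x * y) = 0) hW hy ?_ ?_
  · intro l y hy
    exact h l y hy
  · intro a b ha hb
    rw [mul_add, map_add, ha, hb, add_zero]

section core

variable {k : Type u} [Field k] {W : CohomologyData.{u, 0, w} k ℂ} {𝒱 : VarietyClass k}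
  {X : Sch k} {g : ℕ} {ξ : W.coh X} (c : Hst.Core W X g ξ) (hW : IsWeilCohomology W 𝒱)
  (hX : 𝒱.mem X g) (hξ : ξ ∈ W.alg X 1)

/-- the matrices of the symmetries -/
def symSet : Set (Matrix c.I c.I ℂ) :=
  {M | ∃ T, SymF W (c.host hW hX hξ).X T ∧ M = SymM.mat (c.host hW hX hξ) (T (.leaf 0))}

/-- the symmetries on the letter of degree one -/
abbrev symB : Set (Matrix (Sub c.D (0, 1)) (Sub c.D (0, 1)) ℂ) := E.blk '' symSet c hW hX hξ

theorem blk0 : ∀ M ∈ symSet c hW hX hξ, ∀ i j, c.D.typ i ≠ c.D.typ j → M i j = 0 := by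
  rintro _ ⟨T, hT, rfl⟩ i j hij
  exact SymM.mat_typ (c.host hW hX hξ) hT i j hij

theorem sym0 : ∀ T, EQ.IsSym W X T → ∃ M ∈ symSet c hW hX hξ, ∀ z : W.coh X,
    (c.host hW hX hξ).tc (.leaf 0) (T (.leaf 0) z) =
      gT M ((c.host hW hX hξ).tc (.leaf 0) z) := by
  intro T hT
  exact ⟨_, ⟨symLin hT.tensor, symF_of hT, rfl⟩,
    fun z => SymM.tc_sym (c.host hW hX hξ) (symF_of hT) (.leaf 0) z⟩

theorem grp0 : ∀ x ∈ symB c hW hX hξ, IsG (subD c.D (0, 1)) x := by
  rintro _ ⟨_, ⟨T, hT, rfl⟩, rfl⟩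
  exact isG_blk (SymM.mat_isG (c.host hW hX hξ) (at_ (c.host hW hX hξ)) hT)

theorem gfix0 : ∀ x ∈ symB c hW hX hξ, ∀ L u, At1 (c.host hW hX hξ) L u → gT x u = u := by
  rintro _ ⟨M, hM, rfl⟩ L u hu
  refine fix_sub (blk0 c hW hX hξ M hM) (At := fun L u => u ∈ (c.host hW hX hξ).At L)
    (fun L u hu => ?_) L u hu
  obtain ⟨T, hT, rfl⟩ := hM
  exact SymM.mat_fix (c.host hW hX hξ) hT L u hu

theorem inj0 : Function.Injective (cl1 c hW hX hξ) :=
  cls_inj (H := c.host hW hX hξ) (d := 1) (ge _)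

theorem gr0 (v : Sub c.D (0, 1) → ℂ) : cl1 c hW hX hξ v ∈ W.gr X 1 :=
  cls_gr (H := c.host hW hX hξ) (d := 1) v

theorem range0 : LinearMap.range (cl1 c hW hX hξ) = W.gr X 1 :=
  range_cls (H := c.host hW hX hξ) (d := 1) staB (ge _)

/-- a stable subspace of `H^1(X)` gives a stable subspace of the coordinate space -/
theorem stabU_of {U : Submodule ℂ (W.coh X)} (hU : EQ.Stable W X g U) :
    StabU (subD c.D (0, 1)) (At1 (c.host hW hX hξ)) (symB c hW hX hξ)
      (U.comap (cl1 c hW hX hξ)) := by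
  constructor
  · intro z hz v hv
    obtain ⟨γ, hγ, hc⟩ := cor_of_at (c.host hW hX hξ) hz
    have h1 : cor W γ (vec1 (c.host hW hX hξ) v) ∈ U := hU.act γ hγ _ hv
    exact (congrArg (fun y : W.coh X => y ∈ U) (hc v)).mp h1
  · let f : Submodule ℂ (Sub c.D (0, 1) → ℂ) → Set (W.coh X) :=
      fun V => (V.map (cl1 c hW hX hξ) : Set (W.coh X))
    have hf : Function.Injective f := fun V V' e =>
      Submodule.map_injective_of_injective (inj0 c hW hX hξ) (SetLike.coe_injective e)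
    refine (hU.fin.preimage hf.injOn).subset ?_
    rintro _ ⟨_, ⟨_, ⟨T, hT, rfl⟩, rfl⟩, rfl⟩
    refine ⟨fun P => T P, isSym_of hT, fun y => ?_⟩
    have key : ∀ v : Sub c.D (0, 1) → ℂ, (T (.leaf 0) (cl1 c hW hX hξ v) : W.coh X) =
        cl1 c hW hX hξ ((blk (SymM.mat (c.host hW hX hξ) (T (.leaf 0)))).mulVec v) := fun v =>
      map_cls (H := c.host hW hX hξ) (d := 1) (ge _)
        (fun i j hij => SymM.mat_typ (c.host hW hX hξ) hT i j hij)
        (T := fun z => T (.leaf 0) z)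
        (fun z => SymM.tc_sym (c.host hW hX hξ) hT (.leaf 0) z) v
    constructor
    · rintro ⟨_, ⟨v, hv, rfl⟩, rfl⟩
      refine ⟨cl1 c hW hX hξ v, hv, ?_⟩
      exact key v
    · rintro ⟨x, hx, rfl⟩
      have hx1 : x ∈ LinearMap.range (cl1 c hW hX hξ) := by
        rw [range0]
        exact hU.le hx
      obtain ⟨v, rfl⟩ := hx1
      exact ⟨_, ⟨v, hx, rfl⟩, (key v).symm⟩

/-- a minimal stable subspace of the coordinate space gives one of `H^1(X)` -/
theorem minStab_of {U : Submodule ℂ (Sub c.D (0, 1) → ℂ)}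
    (hU : MinStab (subD c.D (0, 1)) (At1 (c.host hW hX hξ)) (symB c hW hX hξ) U) :
    EQ.MinStab W X g (U.map (cl1 c hW hX hξ)) where
  stable := stable_core c hW hX hξ _ (blk0 c hW hX hξ) (sym0 c hW hX hξ) hU.2.1
  ne := fun h0 => hU.1 (by
    rw [← Submodule.map_bot (cl1 c hW hX hξ)] at h0
    exact Submodule.map_injective_of_injective (inj0 c hW hX hξ) h0)
  min := fun U' hs hle hne => by
    have h1 : (U'.comap (cl1 c hW hX hξ)).map (cl1 c hW hX hξ) = U' := by
      rw [Submodule.map_comap_eq, range0]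
      exact inf_eq_right.2 hs.le
    have h2 : U'.comap (cl1 c hW hX hξ) ≤ U := by
      intro v hv
      obtain ⟨v', hv', e⟩ := hle hv
      rwa [← inj0 c hW hX hξ e]
    rw [← hU.2.2 _ h2 (fun h0 => hne (by rw [← h1, h0, Submodule.map_bot]))
      (stabU_of c hW hX hξ hs), h1]

/-- a minimal stable subspace exists only in positive dimension -/
theorem pos_of {U : Submodule ℂ (Sub c.D (0, 1) → ℂ)}
    (hU : MinStab (subD c.D (0, 1)) (At1 (c.host hW hX hξ)) (symB c hW hX hξ) U) : 0 < g := by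
  rcases Nat.eq_zero_or_pos g with hg | hg
  · have h1 := minStab_of c hW hX hξ hU
    refine absurd ?_ h1.ne
    rw [eq_bot_iff]
    intro x hx
    exact hW.top_gr hX (h1.stable.le hx) (by omega)
  · exact hg

/-- the balancing symmetries in the coordinates -/
theorem balM_of (hdiv : PositiveDivisor W X g ξ)
    (bal : ∀ U, EQ.MinStab W X g U → EQ.Isot W X g ξ U → EQ.Bal W X g U) :
    BalM (subD c.D (0, 1)) (At1 (c.host hW hX hξ)) (symB c hW hX hξ) := by
  intro U hU hiso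
  have hinj := inj0 c hW hX hξ
  have hgr : ∀ v, cl1 c hW hX hξ v ∈ W.gr X 1 := gr0 c hW hX hξ
  obtain ⟨M, hM, ⟨z, hz, hMz⟩, hMM⟩ := bal _ (minStab_of c hW hX hξ hU)
    ((GeoC.isot_iff c hW hX hξ hdiv (pos_of c hW hX hξ hU) U).2 hiso)
  obtain ⟨M0, hM0, hTM⟩ := sym0 c hW hX hξ M hM
  obtain ⟨E, hE, hEz⟩ := GeoC.span_mem c hW hX hξ hz
  have hb := blk0 c hW hX hξ M0 hM0
  have hB : ∀ v, (M (.leaf 0) (cl1 c hW hX hξ v) : W.coh X) =
      cl1 c hW hX hξ ((blk M0).mulVec v) := fun v =>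
    map_cls (H := c.host hW hX hξ) (d := 1) (ge _) hb
      (T := fun z : W.coh X => (M (.leaf 0) z : W.coh X)) hTM v
  have hBE : (blk M0 : Matrix (Sub c.D (0, 1)) (Sub c.D (0, 1)) ℂ) = E := by
    refine Matrix.mulVec_injective (funext fun v => hinj ?_)
    exact (hB v).symm.trans ((hMz _ (hgr v)).trans (hEz v))
  have hsub := sub1_cl1 c hW hX hξ hb hTM
  refine ⟨blk M0, ?_, grp0 c hW hX hξ _ ⟨M0, hM0, rfl⟩, gfix0 c hW hX hξ _ ⟨M0, hM0, rfl⟩,
    ?_, ?_⟩
  · rw [hBE]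
    exact hE
  · have h3 : (2 : ℂ) • ((blk M0 - 1) * (blk M0 - 1) * (blk M0 - 1) :
        Matrix (Sub c.D (0, 1)) (Sub c.D (0, 1)) ℂ) =
        (blk M0 - 1) * (blk M0 - 1) + (blk M0 - 1) := by
      refine Matrix.mulVec_injective (funext fun v => hinj ?_)
      have h1 := (hMM _ (hgr v)).1
      rw [hsub, hsub, hsub, ← map_add] at h1
      rw [Matrix.smul_mulVec, map_smul, Matrix.add_mulVec, ← Matrix.mulVec_mulVec,
        ← Matrix.mulVec_mulVec, ← Matrix.mulVec_mulVec]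
      exact h1
    have h4 : (blk M0 - 1) * (blk M0 - 2) * (2 * blk M0 - 1) =
        (2 : ℂ) • ((blk M0 - 1) * (blk M0 - 1) * (blk M0 - 1) :
          Matrix (Sub c.D (0, 1)) (Sub c.D (0, 1)) ℂ) -
        ((blk M0 - 1) * (blk M0 - 1) + (blk M0 - 1)) := by
      rw [two_smul]
      noncomm_ring
    rw [h4, h3, sub_self]
  · intro v
    have h1 : v ∈ U ↔ cl1 c hW hX hξ v ∈ U.map (cl1 c hW hX hξ) := by
      constructor
      · intro hv
        exact ⟨v, hv, rfl⟩
      · rintro ⟨w, hw, e⟩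
        rwa [← hinj e]
    have h2 : (blk M0 - 1 : Matrix (Sub c.D (0, 1)) (Sub c.D (0, 1)) ℂ).mulVec v = v ↔
        (blk M0 : Matrix (Sub c.D (0, 1)) (Sub c.D (0, 1)) ℂ).mulVec v = (2 : ℂ) • v := by
      rw [Matrix.sub_mulVec, Matrix.one_mulVec, sub_eq_iff_eq_add, two_smul]
    rw [h1, (hMM _ (hgr v)).2, hsub, ← h2]
    exact ⟨fun e => hinj e, fun e => by rw [e]⟩

/-- the form is not degenerate on the complex span of the algebraic tensors -/
theorem nd_bal (hdiv : PositiveDivisor W X g ξ)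
    (bal : ∀ U, EQ.MinStab W X g U → EQ.Isot W X g ξ U → EQ.Bal W X g U) (L : ℕ)
    (u : Ten (Sub c.D (0, 1)) L) (hu : u ∈ Submodule.span ℂ {u | At1 (c.host hW hX hξ) L u})
    (h0 : u ≠ 0) : ∃ v ∈ Submodule.span ℂ {u | At1 (c.host hW hX hξ) L u},
      psiT (subD c.D (0, 1)) u v ≠ 0 := by
  refine ndC (subD c.D (0, 1)) (At1 (c.host hW hX hξ)) (symB c hW hX hξ)
    (aSys_sub (α := ((0, 1) : Fin 1 × ℕ)) (aSys_at (at_ (c.host hW hX hξ)))) ?_
    (fun i j => i.2.trans j.2.symm) (grp0 c hW hX hξ) (gfix0 c hW hX hξ)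
    (balM_of c hW hX hξ hdiv bal) L u hu h0
  intro i
  show c.D.odd (c.D.typ i.1)
  rw [i.2]
  exact Hst.odd_one (c.host hW hX hξ) 0

end core

end Bal0

/-- Numerical and homological equivalence agree on all powers of `X`, with complex coefficients, if
every isotropic minimal stable subspace of `H^1(X)` has a balancing symmetry. -/
theorem numHom_bal {k : Type u} [Field k] {W : CohomologyData.{u, 0, w} k ℂ}
    {𝒱 : VarietyClass k} (hW : IsWeilCohomology W 𝒱) {X : Sch k} {g : ℕ} (hX : 𝒱.mem X g)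
    (h0 : ∀ x, W.Deg X 0 x → ∃ c, x = W.scal c 1) (hU : EQ.Unital X) {ξ : W.coh X}
    (hdiv : PositiveDivisor W X g ξ)
    (bal : ∀ U, EQ.MinStab W X g U → EQ.Isot W X g ξ U → EQ.Bal W X g U) (P : Prd 1) :
    EQ.NumHom W (EQ.pw X P) := by
  obtain ⟨h1, h2, -⟩ := unital hW hX h0 hU hdiv
  obtain ⟨c⟩ := Hst.exists_core hW hX hdiv.1 h1 h2
  have hAb : AbelianType W X g := abelianType_of_unital hW hX h0 hU hdiv
  intro j x hx hnum
  refine EndM.num_of_nd (c.host hW hX hdiv.1) (fun _ => hAb)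
    (Z := fun P => {z | z ∈ tot W (P.obj (c.host hW hX hdiv.1).X)})
    (fun P z hz => hz) (EndM.pushSt_tot (c.host hW hX hdiv.1)) ?_ P ?_ ?_
  · intro P u hu hu0
    have hu' : u ∈ Submodule.span ℂ {u | At1 (c.host hW hX hdiv.1) P.size u} := by
      refine Submodule.span_mono ?_ hu
      rintro _ ⟨z, hz, rfl⟩
      show ext0 (c.host hW hX hdiv.1).D (0, 1)
        (EndM.cut1 (c.host hW hX hdiv.1) ((c.host hW hX hdiv.1).tc P z)) ∈
          (c.host hW hX hdiv.1).At P.size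
      have h3 := EndE.cut_at (c.host hW hX hdiv.1)
        (GP.at_tc (c.host hW hX hdiv.1) P (z := z) hz)
      rw [← EndM.ext_cut1] at h3
      exact h3
    obtain ⟨v, hv, hne⟩ := Bal0.nd_bal c hW hX hdiv.1 hdiv bal P.size u hu' hu0
    exact Bal0.exists_gen hv hne
  · refine Submodule.span_mono (fun z hz => ?_) hx
    exact alg_le_tot hW _ j hz
  · exact Bal0.num_tot hW hnum

end Pool.Agent.Lib.MP_361a6f_ag.FL.E
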