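import Pool.Agent.Lib.MP_361a6f_ag.FL.BAL.NdG

/-!
# Nondegeneracy in one length: semilinear symmetries and balanced isotropic subspaces

The optimal filtration is stable under all semilinear operators that preserve the spans of the
members of the lengths `2` and `n`. The form is nondegenerate on the span of the members of length
`n` if for every stable isotropic subspace `U` there is an isometry which fixes the members of the
lengths `2` and `n`, is `2` on `U` and is `1` on the quotient of the orthogonal of `U` by `U`.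
-/

open Matrix

set_option autoImplicit false
set_option linter.unusedSectionVars false

namespace Pool.Agent.Lib.MP_361a6f_ag.FL.E

/-- semilinear operators: `v ↦ g τ(v)` -/
abbrev SM (I : Type) : Type := Matrix I I ℂ × (ℂ ≃+* ℂ)

/-- the action on vectors -/
def sV {I : Type} [Fintype I] (g : SM I) (v : I → ℂ) : I → ℂ := g.1 *ᵥ fun i => g.2 (v i)

/-- the action on tensors -/
def sT {I : Type} [Fintype I] (g : SM I) {L : ℕ} (u : Ten I L) : Ten I L :=
  gT g.1 fun w => g.2 (u w)

/-- `U` is stable under the endomorphisms and the semilinear operators -/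
def StabS {I Λ : Type} [Fintype I] [DecidableEq I] (D : Dat I Λ)
    (At : (L : ℕ) → Ten I L → Prop) (Γ : Set (SM I)) (U : Submodule ℂ (I → ℂ)) : Prop :=
  (∀ z, At 2 z → ∀ v ∈ U, (opM D z).mulVec v ∈ U) ∧ ∀ g ∈ Γ, ∀ v ∈ U, sV g v ∈ U

/-- every isotropic stable subspace is balanced -/
def BalS {I Λ : Type} [Fintype I] [DecidableEq I] (D : Dat I Λ)
    (At : (L : ℕ) → Ten I L → Prop) (Γ : Set (SM I)) (m : ℕ) : Prop :=
  ∀ U : Submodule ℂ (I → ℂ), StabS D At Γ U → Isot (Psi D) U →
    ∃ M : Matrix I I ℂ, IsG D M ∧ (∀ u, At 2 u → gT M u = u) ∧ (∀ u, At m u → gT M u = u) ∧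
      (∀ v ∈ U, M.mulVec v = (2 : ℂ) • v) ∧
      ∀ v, (∀ u ∈ U, u ⬝ᵥ ((Psi D).mulVec v) = 0) → M.mulVec v - v ∈ U

end Pool.Agent.Lib.MP_361a6f_ag.FL.E

namespace Pool.Agent.Lib.MP_361a6f_ag.FL.E.NdS

open Pool.Agent.Lib.MP_54168f_ag (Tens ev Feas WLe exists_optimal' exists_feasible full_zero)
open Nd NdZ
open NdC (up_endS perp_le perp_perp exists_y)
open NdG (fix_ca)
open OL (CA)
open AL1A (gT_mul gT_add gT_smul)
open AL1B (gT_one)

variable {I Λ : Type} [Fintype I] [DecidableEq I] [DecidableEq Λ] {D : Dat I Λ}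
  {At : (L : ℕ) → Ten I L → Prop}

/-! ### Semilinear operators -/

theorem map_Psi (τ : ℂ ≃+* ℂ) (i j : I) : τ (Psi D i j) = Psi D i j := by
  unfold Psi
  simp only [Matrix.of_apply]
  split_ifs
  · rcases D.s_val i with h | h <;> rw [h] <;> simp
  · exact map_zero τ

theorem map_sg (τ : ℂ ≃+* ℂ) {L : ℕ} (w : Fin L → I) : τ (sg D w) = sg D w := by
  unfold sg
  rw [map_prod]
  refine Finset.prod_congr rfl fun i _ => ?_
  rcases D.s_val (w i) with h | h <;> rw [h] <;> simp

theorem map_mulVec (τ : ℂ ≃+* ℂ) (g : Matrix I I ℂ) (v : I → ℂ) (i : I) :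
    τ ((g *ᵥ v) i) = ((g.map τ) *ᵥ fun j => τ (v j)) i := by
  rw [Matrix.mulVec, Matrix.mulVec, dotProduct, dotProduct, map_sum]
  exact Finset.sum_congr rfl fun j _ => by rw [map_mul]; rfl

theorem map_Psi_mulVec (τ : ℂ ≃+* ℂ) (v : I → ℂ) :
    (Psi D *ᵥ fun i => τ (v i)) = fun i => τ ((Psi D *ᵥ v) i) := by
  funext i
  rw [map_mulVec]
  congr 2
  ext a b
  exact (map_Psi τ a b).symm

theorem map_gT (τ : ℂ ≃+* ℂ) {L : ℕ} (g : Matrix I I ℂ) (u : Ten I L) (w : Fin L → I) :
    τ (gT g u w) = gT (g.map τ) (fun w => τ (u w)) w := by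
  unfold gT
  rw [map_sum]
  refine Finset.sum_congr rfl fun w' _ => ?_
  rw [map_mul, map_prod]
  rfl

theorem map_psiT (τ : ℂ ≃+* ℂ) {L : ℕ} (u v : Ten I L) :
    psiT D (fun w => τ (u w)) (fun w => τ (v w)) = τ (psiT D u v) := by
  unfold psiT
  rw [map_sum]
  refine Finset.sum_congr rfl fun w _ => ?_
  rw [map_mul, map_mul, map_sg]

theorem sT_add (g : SM I) {L : ℕ} (u v : Ten I L) : sT g (u + v) = sT g u + sT g v := by
  unfold sT
  rw [← gT_add]
  congr 1
  funext w
  exact map_add g.2 _ _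

theorem sT_smul (g : SM I) {L : ℕ} (c : ℂ) (u : Ten I L) : sT g (c • u) = g.2 c • sT g u := by
  unfold sT
  rw [← gT_smul]
  congr 1
  funext w
  exact map_mul g.2 _ _

theorem sT_zero (g : SM I) {L : ℕ} : sT g (0 : Ten I L) = 0 := by
  have h := sT_smul g 0 (0 : Ten I L)
  rwa [map_zero, zero_smul, zero_smul] at h

/-- the inverse -/
noncomputable def sI (g : SM I) : SM I := (g.1⁻¹.map g.2.symm, g.2.symm)

/-- the adjoint -/
noncomputable def sD (D : Dat I Λ) (g : SM I) : SM I := ((Nd.dag D g.1).map g.2.symm, g.2.symm)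

theorem map_map_symm (τ : ℂ ≃+* ℂ) (g : Matrix I I ℂ) : (g.map τ.symm).map τ = g := by
  ext i j
  exact τ.apply_symm_apply _

theorem map_symm_map (τ : ℂ ≃+* ℂ) (g : Matrix I I ℂ) : (g.map τ).map τ.symm = g := by
  ext i j
  exact τ.symm_apply_apply _

theorem sI_sT {g : SM I} (hu : IsUnit g.1.det) {L : ℕ} (u : Ten I L) :
    sT (sI g) (sT g u) = u := by
  have h0 : g.1⁻¹ * g.1 = 1 := Matrix.nonsing_inv_mul _ hu
  have h1 : sT g u = gT g.1 fun w => g.2 (u w) := rfl
  have h2 : ∀ x : Ten I L, sT (sI g) x = fun w => g.2.symm (gT g.1⁻¹ x w) := by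
    intro x
    funext w
    rw [map_gT]
    rfl
  rw [h2, h1, ← gT_mul, h0, gT_one]
  funext w
  exact g.2.symm_apply_apply _

theorem sT_sI {g : SM I} (hu : IsUnit g.1.det) {L : ℕ} (u : Ten I L) :
    sT g (sT (sI g) u) = u := by
  have h0 : g.1 * g.1⁻¹ = 1 := Matrix.mul_nonsing_inv _ hu
  have h2 : sT (sI g) u = fun w => g.2.symm (gT g.1⁻¹ u w) := by
    funext w
    rw [map_gT]
    rfl
  rw [h2]
  unfold sT
  have h3 : (fun w => g.2 (g.2.symm (gT g.1⁻¹ u w))) = gT g.1⁻¹ u := by
    funext w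
    exact g.2.apply_symm_apply _
  rw [h3, ← gT_mul, h0, gT_one]

theorem psi_sT (ho : ∀ i, D.odd (D.typ i)) (g : SM I) {L : ℕ} (u v : Ten I L) :
    psiT D (sT g u) v = g.2 (psiT D u (sT (sD D g) v)) := by
  have h1 : sT (sD D g) v = fun w => g.2.symm (gT (Nd.dag D g.1) v w) := by
    funext w
    rw [map_gT]
    rfl
  unfold sT
  rw [psi_gT ho, ← map_psiT]
  congr 1
  funext w
  have h2 := congrFun h1 w
  unfold sT at h2
  rw [h2, g.2.apply_symm_apply]

theorem dag_map (τ : ℂ ≃+* ℂ) (g : Matrix I I ℂ) :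
    Nd.dag D (g.map τ) = (Nd.dag D g).map τ := by
  have hΨ : (Psi D).map τ = Psi D := by
    ext i j
    exact map_Psi τ i j
  have h1 : ∀ A B : Matrix I I ℂ, (A * B).map τ = A.map τ * B.map τ := fun A B => by
    ext i j
    rw [Matrix.map_apply, Matrix.mul_apply, Matrix.mul_apply, map_sum]
    exact Finset.sum_congr rfl fun k _ => map_mul τ _ _
  have h2 : (Psi D).transpose.map τ = (Psi D).transpose := by
    rw [Matrix.transpose_map, hΨ]
  unfold Nd.dag
  rw [h1, h1, hΨ, h2, Matrix.transpose_map]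

theorem sD_sD (ho : ∀ i, D.odd (D.typ i)) (g : SM I) : sD D (sD D g) = g := by
  unfold sD
  refine Prod.ext ?_ ?_
  · show (Nd.dag D ((Nd.dag D g.1).map g.2.symm)).map g.2.symm.symm = g.1
    rw [dag_map, dag_dag ho]
    exact map_map_symm g.2 g.1
  · exact RingEquiv.symm_symm g.2

/-- an injective semilinear operator that preserves the span is bijective on it -/
theorem inv_memS {n : ℕ} {g : SM I} (hu : IsUnit g.1.det)
    (hmem : ∀ u ∈ CA At n, sT g u ∈ CA At n) {u : Ten I n} (huA : u ∈ CA At n) :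
    sT (sI g) u ∈ CA At n := by
  classical
  let j : CA At n →+ CA At n :=
    { toFun := fun u => ⟨sT g u.1, hmem _ u.2⟩
      map_zero' := Subtype.ext (sT_zero g)
      map_add' := fun a b => Subtype.ext (sT_add g a.1 b.1) }
  let b := Module.finBasis ℂ (CA At n)
  have hli : LinearIndependent ℂ (j ∘ b) :=
    b.linearIndependent.map_of_injective_injective (R' := ℂ) (fun r => g.2.symm r) j
      (fun r hr => by simpa using hr) (fun m hm => by
        have h1 : sT g m.1 = 0 := congrArg Subtype.val hm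
        have h2 : m.1 = 0 := by rw [← sI_sT hu m.1, h1, sT_zero]
        exact Subtype.ext h2) (fun r m => Subtype.ext (by
        show sT g (g.2.symm r • m.1) = r • sT g m.1
        rw [sT_smul, g.2.apply_symm_apply]))
  have hspan : Submodule.span ℂ (Set.range (j ∘ b)) = ⊤ :=
    hli.span_eq_top_of_card_eq_finrank' (by rw [Fintype.card_fin])
  have hmemT : (⟨u, huA⟩ : CA At n) ∈ Submodule.span ℂ (Set.range (j ∘ b)) := by
    rw [hspan]; trivial
  have key : ∀ x ∈ Submodule.span ℂ (Set.range (j ∘ b)), sT (sI g) (x : Ten I n) ∈ CA At n := by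
    intro x hx
    induction hx using Submodule.span_induction with
    | mem x hx =>
      obtain ⟨i, rfl⟩ := hx
      show sT (sI g) (sT g (b i).1) ∈ CA At n
      rw [sI_sT hu]
      exact (b i).2
    | zero =>
      show sT (sI g) (0 : Ten I n) ∈ CA At n
      rw [sT_zero]
      exact zero_mem _
    | add x y _ _ hx hy =>
      show sT (sI g) ((x : Ten I n) + (y : Ten I n)) ∈ CA At n
      rw [sT_add]
      exact add_mem hx hy
    | smul c x _ hx =>
      show sT (sI g) (c • (x : Ten I n)) ∈ CA At n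
      rw [sT_smul]
      exact Submodule.smul_mem _ _ hx
  exact key _ hmemT

/-! ### Operators preserving the spans in two lengths -/

/-- `g` is invertible and preserves the spans in the lengths `2` and `n` together with its
adjoint -/
structure PresS (D : Dat I Λ) (At : (L : ℕ) → Ten I L → Prop) (n : ℕ) (g : SM I) : Prop where
  unit : IsUnit g.1.det
  two : ∀ u ∈ CA At 2, sT g u ∈ CA At 2
  two' : ∀ u ∈ CA At 2, sT (sD D g) u ∈ CA At 2
  mem : ∀ u ∈ CA At n, sT g u ∈ CA At n
  mem' : ∀ u ∈ CA At n, sT (sD D g) u ∈ CA At n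

theorem det_map (τ : ℂ ≃+* ℂ) (g : Matrix I I ℂ) : (g.map τ).det = τ g.det :=
  (RingHom.map_det (τ : ℂ →+* ℂ) g).symm

theorem PresS.dag (ho : ∀ i, D.odd (D.typ i)) {n : ℕ} {g : SM I} (h : PresS D At n g) :
    PresS D At n (sD D g) where
  unit := by
    show IsUnit ((Nd.dag D g.1).map g.2.symm).det
    rw [det_map]
    refine IsUnit.map g.2.symm ?_
    unfold Nd.dag
    rw [Matrix.det_mul, Matrix.det_mul, Matrix.det_transpose, Matrix.det_transpose]
    have h1 := congrArg Matrix.det (PsiT_mul_Psi D)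
    rw [Matrix.det_mul, Matrix.det_transpose, Matrix.det_one] at h1
    have h2 : (Psi D).det * g.1.det * (Psi D).det = g.1.det * ((Psi D).det * (Psi D).det) := by
      ring
    rw [h2, h1, mul_one]
    exact h.unit
  two := h.two'
  two' := by rw [sD_sD ho]; exact h.two
  mem := h.mem'
  mem' := by rw [sD_sD ho]; exact h.mem

theorem PresS.kr (ho : ∀ i, D.odd (D.typ i)) {n : ℕ} {g : SM I} (h : PresS D At n g)
    {u : Ten I n} (hu : u ∈ Kr D At n) : sT g u ∈ Kr D At n :=
  ⟨h.mem u hu.1, fun v hv => by rw [psi_sT ho, hu.2 _ (h.mem' v hv), map_zero]⟩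

/-- an invertible operator that preserves the spans of the lengths `2` and `n` -/
theorem presS_of (S : ASys D At) (ho : ∀ i, D.odd (D.typ i)) (he : ∀ i j, D.typ i = D.typ j)
    {n : ℕ} {g : SM I} (hu : IsUnit g.1.det) (h2 : ∀ u ∈ CA At 2, sT g u ∈ CA At 2)
    (hn : ∀ u ∈ CA At n, sT g u ∈ CA At n) : PresS D At n g := by
  have hS : op D (g.1 * Nd.dag D g.1) ∈ CA At 2 := by
    have h1 := h2 _ (op_one_mem (D := D) S he)
    have h0 : (fun w => g.2 (op D (1 : Matrix I I ℂ) w)) = op D (1 : Matrix I I ℂ) := by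
      funext w
      have e : op D (1 : Matrix I I ℂ) w = Psi D (w 0) (w 1) := by simp [op]
      rw [e, map_Psi]
    have h3 : sT g (op D (1 : Matrix I I ℂ)) = op D (g.1 * Nd.dag D g.1) := by
      unfold sT
      rw [h0]
      have h4 := tm_gT g.1 (op D (1 : Matrix I I ℂ))
      have h5 : tm (op D (1 : Matrix I I ℂ)) = Psi D := by
        ext i j
        simp [tm, op]
      have h6 : g.1 * Psi D * g.1.transpose = g.1 * Nd.dag D g.1 * Psi D := by
        unfold Nd.dag
        rw [PsiT_eq ho]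
        have h7 := Psi_mul_Psi ho
        calc g.1 * Psi D * g.1.transpose = g.1 * Psi D * g.1.transpose * -(Psi D * Psi D) := by
              rw [h7, neg_neg, Matrix.mul_one]
          _ = g.1 * (-Psi D * g.1.transpose * Psi D) * Psi D := by noncomm_ring
      rw [h5, h6] at h4
      funext w
      have h8 := congrFun (congrFun h4 (w 0)) (w 1)
      have e : ![w 0, w 1] = w := by
        funext k
        fin_cases k <;> rfl
      simpa [tm, op, e] using h8
    rwa [h3] at h1
  have hinv : g.1⁻¹ * g.1 = 1 := Matrix.nonsing_inv_mul _ hu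
  have hd : ∀ {L : ℕ} (u : Ten I L), sT (sD D g) u = sT (sI g) (gT (g.1 * Nd.dag D g.1) u) := by
    intro L u
    have e1 : sT (sD D g) u = fun w => g.2.symm (gT (Nd.dag D g.1) u w) := by
      funext w
      rw [map_gT]
      rfl
    have e2 : ∀ x : Ten I L, sT (sI g) x = fun w => g.2.symm (gT g.1⁻¹ x w) := by
      intro x
      funext w
      rw [map_gT]
      rfl
    rw [e1, e2, ← gT_mul, ← Matrix.mul_assoc, hinv, Matrix.one_mul]
  exact ⟨hu, h2, fun u hu' => by
    rw [hd]
    exact inv_memS hu h2 (op_gT_mem S he hS hu'), hn, fun u hu' => by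
    rw [hd]
    exact inv_memS hu hn (op_gT_mem S he hS hu')⟩

/-- an isometry that fixes the members -/
theorem presS_of_fix {n : ℕ} {x : Matrix I I ℂ} (hx : IsG D x)
    (hf2 : ∀ u, At 2 u → gT x u = u) (hfn : ∀ u, At n u → gT x u = u) :
    PresS D At n (x, RingEquiv.refl ℂ) := by
  have h := NdG.presN_of_fix hx hf2 hfn
  exact ⟨h.unit, h.two, h.two', h.mem, h.mem'⟩

/-! ### The optimal filtration -/

/-- the optimal filtration is preserved by everything that preserves the spans in the lengths `2`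
and `n` -/
theorem exists_optS (S : ASys D At) (ho : ∀ i, D.odd (D.typ i)) (n : ℕ) :
    ∃ (p q : Matrix I I ℂ) (wt : I → ℝ),
      Feas ((Kr D At n : Submodule ℂ (Ten I n)) : Set (Ten I n)) (CC D At) p q wt ∧
      ∀ g, PresS D At n g → ∀ x y, (q * (g.1.transpose * p).map g.2.symm) x y ≠ 0 →
        wt x ≤ wt y := by
  classical
  obtain ⟨L0, _, _, p0, q0, w0, hF0⟩ := exists_feasible
    ((Kr D At n : Submodule ℂ (Ten I n)) : Set (Ten I n)) (CC D At)
    fun m l hm τ hτ cc hcc e => full_zero (cl_A S ho)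
      (fun n u hu => hu.1) (fun u hu => kr_zero S u hu) n m l hm τ hτ cc hcc e
  obtain ⟨p1, q1, hF1⟩ := hF0.descend (Ω := ℂ)
  obtain ⟨p, q, wt, hF, hopt⟩ := exists_optimal' (L := ℂ) ⟨p1, q1, w0, hF1⟩
  refine ⟨p, q, wt, hF, fun g hg => hopt ((g.1.transpose * p).map g.2.symm)
    ((q * g.1.transpose⁻¹).map g.2.symm) ⟨?_, ?_, ?_⟩⟩
  · have hu : IsUnit g.1.transpose.det := by rw [Matrix.det_transpose]; exact hg.unit
    have h1 : ∀ A B : Matrix I I ℂ, A.map g.2.symm * B.map g.2.symm = (A * B).map g.2.symm :=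
      fun A B => by
        ext i j
        rw [Matrix.map_apply, Matrix.mul_apply, Matrix.mul_apply, map_sum]
        exact Finset.sum_congr rfl fun k _ => (map_mul g.2.symm _ _).symm
    rw [h1]
    have h2 : g.1.transpose * p * (q * g.1.transpose⁻¹) = 1 := by
      calc g.1.transpose * p * (q * g.1.transpose⁻¹)
          = g.1.transpose * (p * q) * g.1.transpose⁻¹ := by simp only [Matrix.mul_assoc]
        _ = 1 := by rw [hF.pq, Matrix.mul_one, Matrix.mul_nonsing_inv _ hu]
    rw [h2]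
    ext i j
    rw [Matrix.map_apply, Matrix.one_apply]
    split_ifs <;> simp
  · intro t ht J hJ
    have hmem := hg.kr ho ht
    refine hF.tens _ hmem J fun h0 => hJ ?_
    have h1 : ev (Ω := ℂ) (t : Tens I ℂ n) (fun a x => (g.1.transpose * p).map g.2.symm x (J a)) =
        g.2.symm (ev (Ω := ℂ) (sT g t : Tens I ℂ n) (fun a x => p x (J a))) := by
      unfold ev
      rw [map_sum]
      have h2 : ∀ w : Fin n → I, (∏ a, (g.1.transpose * p).map g.2.symm (w a) (J a)) =
          g.2.symm (∑ w' : Fin n → I, (∏ a, g.1 (w' a) (w a)) * ∏ a, p (w' a) (J a)) := by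
        intro w
        rw [map_sum]
        have h3 : ∀ a, (g.1.transpose * p).map g.2.symm (w a) (J a) =
            ∑ y, g.2.symm (g.1 y (w a) * p y (J a)) := by
          intro a
          rw [Matrix.map_apply, Matrix.mul_apply, map_sum]
          rfl
        rw [Finset.prod_congr rfl fun a _ => h3 a, Finset.prod_univ_sum, Fintype.piFinset_univ]
        refine Finset.sum_congr rfl fun w' _ => ?_
        rw [← Finset.prod_mul_distrib, map_prod]
      simp only [h2]
      have h4 : ∀ w : Fin n → I, g.2.symm (∑ w' : Fin n → I, (∏ a, g.1 (w' a) (w a)) *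
          ∏ a, p (w' a) (J a)) * algebraMap ℂ ℂ (t w) =
          g.2.symm (∑ w' : Fin n → I, (∏ a, g.1 (w' a) (w a)) * (∏ a, p (w' a) (J a)) *
            g.2 (t w)) := by
        intro w
        rw [← Finset.sum_mul, map_mul, g.2.symm_apply_apply]
        rfl
      have h5 : ∀ w : Fin n → I, g.2.symm ((∏ a, p (w a) (J a)) * algebraMap ℂ ℂ (sT g t w)) =
          g.2.symm (∑ w' : Fin n → I, (∏ a, g.1 (w a) (w' a)) * (∏ a, p (w a) (J a)) *
            g.2 (t w')) := by
        intro w
        congr 1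
        show (∏ a, p (w a) (J a)) * (∑ w' : Fin n → I, (∏ a, g.1 (w a) (w' a)) * g.2 (t w')) = _
        rw [Finset.mul_sum]
        exact Finset.sum_congr rfl fun w' _ => by ring
      rw [Finset.sum_congr rfl fun w _ => h4 w, Finset.sum_congr rfl fun w _ => h5 w]
      simp only [map_sum]
      exact Finset.sum_comm
    rw [h1, h0, map_zero]
  · rintro c ⟨t, ht, rfl⟩ x y hxy
    -- the member `t'` with `T† t' = t`
    have hd := hg.dag ho
    set N : Matrix I I ℂ := g.1⁻¹ with hN
    have hNg : g.1.transpose⁻¹ = N.transpose := by rw [hN, Matrix.transpose_nonsing_inv]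
    have h2 : Nd.dag D N * Nd.dag D g.1 = 1 := by
      rw [← dag_mul ho, hN, Matrix.mul_nonsing_inv _ hg.unit, dag_one ho]
    have ht' : gT (Nd.dag D N) (fun w => g.2 (t w)) ∈ CA At 2 := by
      have h3 := inv_memS hd.unit hd.two ht
      have h4 : sT (sI (sD D g)) t = gT (Nd.dag D N) (fun w => g.2 (t w)) := by
        show gT (((Nd.dag D g.1).map g.2.symm)⁻¹.map g.2.symm.symm)
          (fun w => g.2.symm.symm (t w)) = _
        have h5 : ((Nd.dag D g.1).map g.2.symm)⁻¹ = (Nd.dag D N).map g.2.symm := by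
          refine Matrix.inv_eq_left_inv ?_
          ext i j
          have h6 := congrFun (congrFun h2 i) j
          rw [Matrix.mul_apply] at h6 ⊢
          have h7 : (1 : Matrix I I ℂ) i j = g.2.symm ((1 : Matrix I I ℂ) i j) := by
            rw [Matrix.one_apply]
            split_ifs <;> simp
          rw [h7, ← h6, map_sum]
          exact Finset.sum_congr rfl fun k _ => (map_mul g.2.symm _ _).symm
        rw [h5, RingEquiv.symm_symm, map_map_symm]
      rwa [h4] at h3
    have hmem : ((Psi D).transpose * tm (gT (Nd.dag D N) (fun w => g.2 (t w))) * Psi D :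
        I → I → ℂ) ∈ CC D At := ⟨_, ht', rfl⟩
    refine hF.biv _ hmem x y fun h0 => hxy ?_
    rw [tm_gT] at h0
    have h3 : (Psi D).transpose * (Nd.dag D N * tm (fun w => g.2 (t w)) *
          (Nd.dag D N).transpose) * Psi D =
        N.transpose * ((Psi D).transpose * tm (fun w => g.2 (t w)) * Psi D) * N := by
      have h4 : (Psi D).transpose * Nd.dag D N = N.transpose * (Psi D).transpose := by
        have h5 := congrArg Matrix.transpose (Psi_mul_eq ho N)
        rw [Matrix.transpose_mul, Matrix.transpose_mul, Matrix.transpose_transpose] at h5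
        exact h5.symm
      calc (Psi D).transpose * (Nd.dag D N * tm (fun w => g.2 (t w)) *
            (Nd.dag D N).transpose) * Psi D
          = ((Psi D).transpose * Nd.dag D N) * tm (fun w => g.2 (t w)) *
            ((Nd.dag D N).transpose * Psi D) := by noncomm_ring
        _ = _ := by rw [h4, ← Psi_mul_eq ho]; noncomm_ring
    rw [h3] at h0
    have e0 : ∀ A B : Matrix I I ℂ, (∑ x', ∑ y', A x x' * A y y' * algebraMap ℂ ℂ (B x' y')) =
        (A * B * A.transpose) x y := by
      intro A B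
      rw [Matrix.mul_apply, Finset.sum_comm]
      refine Finset.sum_congr rfl fun y' _ => ?_
      rw [Matrix.mul_apply, Finset.sum_mul]
      refine Finset.sum_congr rfl fun x' _ => ?_
      rw [Matrix.transpose_apply]
      change A x x' * A y y' * B x' y' = A x x' * B x' y' * A y y'
      ring
    have h1 : ∀ A B : Matrix I I ℂ, A.map g.2.symm * B.map g.2.symm = (A * B).map g.2.symm :=
      fun A B => by
        ext i j
        rw [Matrix.map_apply, Matrix.mul_apply, Matrix.mul_apply, map_sum]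
        exact Finset.sum_congr rfl fun k _ => (map_mul g.2.symm _ _).symm
    have e1 := e0 q (N.transpose * ((Psi D).transpose * tm (fun w => g.2 (t w)) * Psi D) * N)
    rw [h0] at e1
    have e2 := e0 ((q * g.1.transpose⁻¹).map g.2.symm) ((Psi D).transpose * tm t * Psi D)
    rw [e2]
    have e3 : (Psi D).transpose * tm t * Psi D =
        ((Psi D).transpose * tm (fun w => g.2 (t w)) * Psi D).map g.2.symm := by
      have hΨ : (Psi D).map g.2.symm = Psi D := by
        ext i j
        exact map_Psi g.2.symm i j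
      have ht2 : (tm (fun w => g.2 (t w))).map g.2.symm = tm t := by
        ext i j
        exact g.2.symm_apply_apply _
      rw [← h1, ← h1, ht2, hΨ, Matrix.transpose_map, hΨ]
    rw [e3, ← Matrix.transpose_map, h1, h1, hNg, Matrix.map_apply]
    have e4 : q * N.transpose * ((Psi D).transpose * tm (fun w => g.2 (t w)) * Psi D) *
        (q * N.transpose).transpose =
        q * (N.transpose * ((Psi D).transpose * tm (fun w => g.2 (t w)) * Psi D) * N) *
          q.transpose := by
      rw [Matrix.transpose_mul, Matrix.transpose_transpose]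
      noncomm_ring
    rw [e4, ← e1, map_zero]

section filt

variable {p q : Matrix I I ℂ} {wt : I → ℝ} {n : ℕ}

/-- the steps are stable -/
theorem up_presS (ho : ∀ i, D.odd (D.typ i)) (hpq : p * q = 1)
    (hst : ∀ g, PresS D At n g → ∀ x y, (q * (g.1.transpose * p).map g.2.symm) x y ≠ 0 →
      wt x ≤ wt y)
    {P : ℝ → Prop} (hP : ∀ a b, a ≤ b → P a → P b) {g : SM I} (hg : PresS D At n g)
    {v : I → ℂ} (hv : v ∈ Up D q wt P) : sV g v ∈ Up D q wt P := by
  have hst' : ∀ x y, (q * ((Nd.dag D g.1).transpose * p.map g.2)) x y ≠ 0 → wt x ≤ wt y := by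
    intro x y hxy
    have e : ((sD D g).1.transpose * p).map (sD D g).2.symm =
        (Nd.dag D g.1).transpose * p.map g.2 := by
      ext i j
      show g.2.symm.symm ((((Nd.dag D g.1).map g.2.symm).transpose * p) i j) = _
      rw [RingEquiv.symm_symm, Matrix.mul_apply, Matrix.mul_apply, map_sum]
      refine Finset.sum_congr rfl fun k _ => ?_
      rw [map_mul, Matrix.transpose_apply, Matrix.transpose_apply, Matrix.map_apply,
        Matrix.map_apply, g.2.apply_symm_apply]
    refine hst _ (hg.dag ho) x y ?_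
    rw [e]
    exact hxy
  intro x hx
  have h1 : q *ᵥ (Psi D *ᵥ sV g v) = (q * ((Nd.dag D g.1).transpose * p.map g.2)) *ᵥ
      (fun i => g.2 ((q *ᵥ (Psi D *ᵥ v)) i)) := by
    have h2 : (fun i => g.2 ((Psi D *ᵥ v) i)) =
        p.map g.2 *ᵥ (fun i => g.2 ((q *ᵥ (Psi D *ᵥ v)) i)) := by
      funext i
      rw [← map_mulVec, Matrix.mulVec_mulVec, hpq, Matrix.one_mulVec]
    have h3 : Psi D *ᵥ sV g v = (Nd.dag D g.1).transpose *ᵥ (fun i => g.2 ((Psi D *ᵥ v) i)) := by
      show Psi D *ᵥ (g.1 *ᵥ fun i => g.2 (v i)) = _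
      rw [Matrix.mulVec_mulVec, Psi_mul_eq ho, ← Matrix.mulVec_mulVec, map_Psi_mulVec]
    rw [h3, h2, Matrix.mulVec_mulVec, Matrix.mulVec_mulVec, ← Matrix.mul_assoc]
  rw [h1, Matrix.mulVec, dotProduct]
  refine Finset.sum_eq_zero fun y _ => ?_
  by_cases h0 : (q * ((Nd.dag D g.1).transpose * p.map g.2)) x y = 0
  · rw [h0, zero_mul]
  · rw [hv y (hP _ _ (hst' x y h0) hx), map_zero, mul_zero]

/-- the orthogonal of a stable subspace -/
theorem perp_stableS (ho : ∀ i, D.odd (D.typ i)) {g : SM I} {U : Submodule ℂ (I → ℂ)}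
    (h : ∀ v ∈ U, sV (sD D g) v ∈ U) (u : I → ℂ) (hu : u ∈ perp D U) : sV g u ∈ perp D U := by
  rw [mem_perp] at hu ⊢
  intro v hv
  have h1 := hu _ (h v hv)
  have h3 : Psi D *ᵥ sV g u = (Nd.dag D g.1).transpose *ᵥ (fun i => g.2 ((Psi D *ᵥ u) i)) := by
    show Psi D *ᵥ (g.1 *ᵥ fun i => g.2 (u i)) = _
    rw [Matrix.mulVec_mulVec, Psi_mul_eq ho, ← Matrix.mulVec_mulVec, map_Psi_mulVec]
  have h2 : v ⬝ᵥ (Psi D *ᵥ sV g u) = g.2 (sV (sD D g) v ⬝ᵥ (Psi D *ᵥ u)) := by
    rw [h3, Matrix.dotProduct_mulVec, Matrix.vecMul_transpose, dotProduct, dotProduct, map_sum]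
    refine Finset.sum_congr rfl fun i _ => ?_
    rw [map_mul]
    congr 1
    show (Nd.dag D g.1 *ᵥ v) i = g.2 (((Nd.dag D g.1).map g.2.symm *ᵥ
      fun j => g.2.symm (v j)) i)
    rw [← map_mulVec, g.2.apply_symm_apply]
  rw [h2, h1, map_zero]

/-- the two levels of a vector -/
theorem levels (S : ASys D At) (ho : ∀ i, D.odd (D.typ i)) (he : ∀ i j, D.typ i = D.typ j)
    (hF : Feas ((Kr D At n : Submodule ℂ (Ten I n)) : Set (Ten I n)) (CC D At) p q wt)
    {v : I → ℂ} (hv : v ≠ 0) :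
    ∃ a b l : ℝ, 0 ≤ a ∧ 0 ≤ b ∧ (∀ s, 0 < s → (v ∉ Up D q wt (fun r => s ≤ r) ↔ s ≤ a)) ∧
      (∀ s, 0 < s → (v ∈ perp D (Up D q wt (fun r => s ≤ r)) ↔ s ≤ b)) ∧ l ≤ a - b ∧
      v ∈ Up D q wt (fun r => l < r) := by
  classical
  have hpq := hF.pq
  have hqp := mul_eq_one_comm.1 hpq
  -- the upper coordinates
  obtain ⟨x0, hx0⟩ : ∃ x, (q *ᵥ (Psi D *ᵥ v)) x ≠ 0 := by
    by_contra hc
    push Not at hc
    apply hv
    have h1 : q *ᵥ (Psi D *ᵥ v) = 0 := funext hc
    have h2 : Psi D *ᵥ v = 0 := by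
      have h3 : p *ᵥ (q *ᵥ (Psi D *ᵥ v)) = 0 := by rw [h1, Matrix.mulVec_zero]
      rwa [Matrix.mulVec_mulVec, hpq, Matrix.one_mulVec] at h3
    have h4 : Psi D *ᵥ (Psi D *ᵥ v) = 0 := by rw [h2, Matrix.mulVec_zero]
    rwa [Matrix.mulVec_mulVec, Psi_mul_Psi ho, Matrix.neg_mulVec, Matrix.one_mulVec,
      neg_eq_zero] at h4
  obtain ⟨x1, hx1, hmax⟩ := Finset.exists_max_image
    (Finset.univ.filter fun x => (q *ᵥ (Psi D *ᵥ v)) x ≠ 0) wt
    ⟨x0, Finset.mem_filter.2 ⟨Finset.mem_univ _, hx0⟩⟩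
  have hx1' := (Finset.mem_filter.1 hx1).2
  -- the lower coordinates
  obtain ⟨y0, hy0⟩ : ∃ y, (p.transpose *ᵥ v) y ≠ 0 := by
    by_contra hc
    push Not at hc
    apply hv
    have h1 : p.transpose *ᵥ v = 0 := funext hc
    have h3 : q.transpose *ᵥ (p.transpose *ᵥ v) = 0 := by rw [h1, Matrix.mulVec_zero]
    rwa [Matrix.mulVec_mulVec, ← Matrix.transpose_mul, hpq, Matrix.transpose_one,
      Matrix.one_mulVec] at h3
  obtain ⟨y1, hy1, hmin⟩ := Finset.exists_min_image
    (Finset.univ.filter fun y => (p.transpose *ᵥ v) y ≠ 0) wt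
    ⟨y0, Finset.mem_filter.2 ⟨Finset.mem_univ _, hy0⟩⟩
  have hy1' := (Finset.mem_filter.1 hy1).2
  have hup : ∀ s, v ∉ Up D q wt (fun r => s ≤ r) ↔ s ≤ wt x1 := by
    intro s
    constructor
    · intro h
      by_contra hlt
      apply h
      intro x hx
      by_contra hc
      exact hlt (hx.trans (hmax x (Finset.mem_filter.2 ⟨Finset.mem_univ _, hc⟩)))
    · intro h hv
      exact hx1' (hv x1 h)
  have hdn : ∀ s, v ∈ perp D (Up D q wt (fun r => s ≤ r)) ↔ s ≤ wt y1 := by
    intro s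
    constructor
    · intro h
      by_contra hlt
      obtain ⟨u, hu⟩ : ∃ u : I → ℂ, u = -(Psi D *ᵥ fun z => p z y1) := ⟨_, rfl⟩
      have hΨu : Psi D *ᵥ u = fun z => p z y1 := by
        rw [hu, Matrix.mulVec_neg, Matrix.mulVec_mulVec, Psi_mul_Psi ho, Matrix.neg_mulVec,
          Matrix.one_mulVec, neg_neg]
      have h1 := (mem_perp.1 h) u (by
        intro z hz
        rw [hΨu]
        have h3 : (q *ᵥ fun z => p z y1) z = (q * p) z y1 := rfl
        rw [h3, hqp, Matrix.one_apply_ne]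
        rintro rfl
        exact hlt hz)
      have h2 : (Psi D *ᵥ u) ⬝ᵥ v = -(u ⬝ᵥ (Psi D *ᵥ v)) := by
        rw [Matrix.dotProduct_mulVec, ← Matrix.mulVec_transpose, PsiT_eq ho, Matrix.neg_mulVec,
          neg_dotProduct, neg_neg]
      rw [h1, neg_zero, hΨu] at h2
      exact hy1' h2
    · intro h
      rw [mem_perp]
      intro u hu
      have h2 : u ⬝ᵥ (Psi D *ᵥ v) = -((Psi D *ᵥ u) ⬝ᵥ v) := by
        rw [dotProduct_comm (Psi D *ᵥ u), Matrix.dotProduct_mulVec, ← Matrix.mulVec_transpose,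
          PsiT_eq ho, Matrix.neg_mulVec, neg_dotProduct, dotProduct_comm (Psi D *ᵥ u) v]
      have h3 : (Psi D *ᵥ u) ⬝ᵥ v = (q *ᵥ (Psi D *ᵥ u)) ⬝ᵥ (p.transpose *ᵥ v) := by
        have h4 : Psi D *ᵥ u = p *ᵥ (q *ᵥ (Psi D *ᵥ u)) := by
          rw [Matrix.mulVec_mulVec, hpq, Matrix.one_mulVec]
        conv_lhs => rw [h4]
        rw [dotProduct_comm, Matrix.dotProduct_mulVec, ← Matrix.mulVec_transpose, dotProduct_comm]
      rw [h2, h3, dotProduct, neg_eq_zero]
      refine Finset.sum_eq_zero fun x _ => ?_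
      by_cases hx : (p.transpose *ᵥ v) x = 0
      · rw [hx, mul_zero]
      · rw [hu x (h.trans (hmin x (Finset.mem_filter.2 ⟨Finset.mem_univ _, hx⟩))), zero_mul]
  have hpair : ∀ x, (q *ᵥ (Psi D *ᵥ v)) x ≠ 0 → wt x + wt y1 ≤ -1 := by
    intro x hx
    obtain ⟨y, u, hxy, hu, huU⟩ := exists_y S ho he hF hx
    have h1 : wt y1 ≤ wt y := by
      by_contra hlt
      have h2 := (mem_perp.1 ((hdn (wt y1)).2 le_rfl)) u (huU _ hlt)
      apply hu
      have h3 : (Psi D *ᵥ u) ⬝ᵥ v = -(u ⬝ᵥ (Psi D *ᵥ v)) := by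
        rw [Matrix.dotProduct_mulVec, ← Matrix.mulVec_transpose, PsiT_eq ho, Matrix.neg_mulVec,
          neg_dotProduct, neg_neg]
      rw [h3, h2, neg_zero]
    linarith
  refine ⟨max 0 (wt x1), max 0 (wt y1), wt x1, le_max_left _ _, le_max_left _ _,
    fun s hs => ?_, fun s hs => ?_, ?_, fun x hx => ?_⟩
  · rw [hup, le_max_iff]
    exact ⟨Or.inr, fun h => h.resolve_left (not_le.2 hs)⟩
  · rw [hdn, le_max_iff]
    exact ⟨Or.inr, fun h => h.resolve_left (not_le.2 hs)⟩
  · have h1 := hpair x1 hx1'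
    rcases le_total 0 (wt y1) with h2 | h2
    · rw [max_eq_right h2]
      have h3 : max 0 (wt x1) = 0 := max_eq_left (by linarith)
      rw [h3]
      linarith
    · rw [max_eq_left h2, sub_zero]
      exact le_max_right _ _
  · by_contra hc
    exact absurd (hmax x (Finset.mem_filter.2 ⟨Finset.mem_univ _, hc⟩)) (not_le.2 hx)

end filt

/-- sums are ordered as the numbers of the terms above each level -/
theorem sum_le_of_count {ι : Type} [Fintype ι] (a b : ι → ℝ) (ha : ∀ i, 0 ≤ a i)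
    (hb : ∀ i, 0 ≤ b i)
    (h : ∀ s : ℝ, 0 < s → (Finset.univ.filter fun i => s ≤ a i).card ≤
      (Finset.univ.filter fun i => s ≤ b i).card) : ∑ i, a i ≤ ∑ i, b i := by
  classical
  obtain ⟨R, hR0, hR⟩ : ∃ R : ℝ, 0 ≤ R ∧ ∀ i, a i ≤ R ∧ b i ≤ R := by
    refine ⟨∑ i, (a i + b i), Finset.sum_nonneg fun i _ => add_nonneg (ha i) (hb i), fun i => ?_⟩
    have h1 := Finset.single_le_sum (f := fun i => a i + b i)
      (fun i _ => add_nonneg (ha i) (hb i)) (Finset.mem_univ i)
    have h2 := ha i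
    have h3 := hb i
    constructor <;> linarith
  have key : ∀ c : ι → ℝ, (∀ i, 0 ≤ c i) → (∀ i, c i ≤ R) →
      ∑ i, c i = ∫ s in (0 : ℝ)..R, ((Finset.univ.filter fun i => s ≤ c i).card : ℝ) := by
    intro c hc0 hcR
    have h1 : ∀ i, c i = ∫ s in (0 : ℝ)..R, Set.indicator {s | s ≤ c i} (fun _ => (1 : ℝ)) s := by
      intro i
      rw [intervalIntegral.integral_indicator ⟨hc0 i, hcR i⟩, intervalIntegral.integral_const,
        smul_eq_mul, mul_one, sub_zero]
    have hint : ∀ i, IntervalIntegrable (Set.indicator {s | s ≤ c i} (fun _ => (1 : ℝ)))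
        MeasureTheory.volume 0 R := by
      intro i
      have h2 : AntitoneOn (Set.indicator {s | s ≤ c i} (fun _ => (1 : ℝ))) (Set.uIcc 0 R) := by
        intro x _ y _ hxy
        by_cases hy : y ≤ c i
        · have hx : x ≤ c i := hxy.trans hy
          rw [Set.indicator_of_mem (s := {s | s ≤ c i}) hy,
            Set.indicator_of_mem (s := {s | s ≤ c i}) hx]
        · rw [Set.indicator_of_notMem (s := {s | s ≤ c i}) hy]
          exact Set.indicator_nonneg (fun _ _ => zero_le_one) x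
      exact h2.intervalIntegrable
    calc ∑ i, c i = ∑ i, ∫ s in (0 : ℝ)..R, Set.indicator {s | s ≤ c i} (fun _ => (1 : ℝ)) s :=
          Finset.sum_congr rfl fun i _ => h1 i
      _ = ∫ s in (0 : ℝ)..R, ∑ i, Set.indicator {s | s ≤ c i} (fun _ => (1 : ℝ)) s :=
          (intervalIntegral.integral_finsetSum fun i _ => hint i).symm
      _ = _ := by
          refine intervalIntegral.integral_congr fun s _ => ?_
          show ∑ i, Set.indicator {s | s ≤ c i} (fun _ => (1 : ℝ)) s = _
          rw [Finset.card_filter]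
          push_cast
          refine Finset.sum_congr rfl fun i _ => ?_
          by_cases hs : s ≤ c i
          · rw [Set.indicator_of_mem (s := {s | s ≤ c i}) hs, if_pos hs]
          · rw [Set.indicator_of_notMem (s := {s | s ≤ c i}) hs, if_neg hs]
  have hanti : ∀ c : ι → ℝ, IntervalIntegrable
      (fun s : ℝ => ((Finset.univ.filter fun i => s ≤ c i).card : ℝ))
      MeasureTheory.volume 0 R := by
    intro c
    have h2 : AntitoneOn (fun s : ℝ => ((Finset.univ.filter fun i => s ≤ c i).card : ℝ))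
        (Set.uIcc 0 R) := by
      intro x _ y _ hxy
      have : (Finset.univ.filter fun i => y ≤ c i).card ≤
          (Finset.univ.filter fun i => x ≤ c i).card :=
        Finset.card_le_card fun i hi => by
          rw [Finset.mem_filter] at hi ⊢
          exact ⟨hi.1, hxy.trans hi.2⟩
      exact Nat.cast_le.2 this
    exact h2.intervalIntegrable
  rw [key a ha fun i => (hR i).1, key b hb fun i => (hR i).2]
  refine intervalIntegral.integral_mono_on_of_le_Ioo hR0 (hanti a) (hanti b) fun s hs => ?_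
  exact_mod_cast h s hs.1

/-! ### The evaluation as a multilinear map -/

/-- the evaluation of `t` on the vectors `Ψ v a` -/
noncomputable def evM (D : Dat I Λ) {n : ℕ} (t : Ten I n) :
    MultilinearMap ℂ (fun _ : Fin n => I → ℂ) ℂ :=
  ∑ w : Fin n → I, t w • (MultilinearMap.mkPiAlgebra ℂ (Fin n) ℂ).compLinearMap
    fun a => (LinearMap.proj (w a)).comp (Matrix.toLin' (Psi D))

theorem evM_apply {n : ℕ} (t : Ten I n) (v : Fin n → I → ℂ) :
    evM D t v = ev (Ω := ℂ) (t : Tens I ℂ n) fun a => Psi D *ᵥ v a := by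
  unfold evM ev
  rw [_root_.sum_apply]
  refine Finset.sum_congr rfl fun w _ => ?_
  rw [_root_.smul_apply, MultilinearMap.compLinearMap_apply,
    MultilinearMap.mkPiAlgebra_apply, smul_eq_mul, mul_comm]
  rfl

theorem evM_psi {n : ℕ} (t : Ten I n) (v : Fin n → I → ℂ) :
    evM D t v = psiT D t (fun w : Fin n → I => ∏ a, v a (w a)) := by
  rw [evM_apply, psi_simple]

/-- invariance -/
theorem evM_inv (ho : ∀ i, D.odd (D.typ i)) {n : ℕ} {t : Ten I n} {M : Matrix I I ℂ}
    (hM : IsG D M) (ht : gT M t = t) (v : Fin n → I → ℂ) :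
    evM D t (fun a => M *ᵥ v a) = evM D t v := by
  have h1 : ∀ x : Fin n → I → ℂ, gT M (fun w : Fin n → I => ∏ a, x a (w a)) =
      fun w : Fin n → I => ∏ a, (M *ᵥ x a) (w a) := by
    intro x
    funext w
    unfold gT
    simp only [← Finset.prod_mul_distrib]
    simp only [Matrix.mulVec, dotProduct]
    rw [Finset.prod_univ_sum, Fintype.piFinset_univ]
  rw [evM_psi, evM_psi, ← h1]
  conv_lhs => rw [← ht]
  rw [psi_gT ho, ← gT_mul, dag_mul_self hM, gT_one]

theorem evM_ne {n : ℕ} {t : Ten I n} (ho : ∀ i, D.odd (D.typ i)) (h : t ≠ 0) :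
    ∃ v, evM D t v ≠ 0 := by
  classical
  by_contra hcon
  push Not at hcon
  apply h
  funext w
  have h1 := hcon fun a => -(Psi D *ᵥ Pi.single (w a) 1)
  rw [evM_apply] at h1
  have h2 : (fun a : Fin n => Psi D *ᵥ -(Psi D *ᵥ (Pi.single (w a) 1 : I → ℂ))) =
      fun a => Pi.single (w a) 1 := by
    funext a
    rw [Matrix.mulVec_neg, Matrix.mulVec_mulVec, Psi_mul_Psi ho, Matrix.neg_mulVec,
      Matrix.one_mulVec, neg_neg]
  rw [h2] at h1
  unfold ev at h1
  rw [Finset.sum_eq_single w] at h1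
  · simpa using h1
  · intro b _ hb
    have : ∃ i, b i ≠ w i := by
      by_contra hc
      push Not at hc
      exact hb (funext hc)
    obtain ⟨i, hi⟩ := this
    rw [Finset.prod_eq_zero (Finset.mem_univ i) (Pi.single_eq_of_ne hi _), zero_mul]
  · intro hw
    exact absurd (Finset.mem_univ w) hw

/-! ### Balanced words -/

/-- **The combinatorial part.** Let `Fl` be a chain of subspaces with `⊤`, and for `s` in a set `A`
let `W s ≤ V s` be members of `Fl` and `M s` an operator that preserves the members of `Fl`, is `2`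
on `W s`, `1` modulo `W s` on `V s` and `1/2` modulo `V s`. If a multilinear map is not zero and
invariant under all `M s` then it is not zero on a tuple with as many members in `W s` as outside
`V s`, for all `s`. -/
theorem exists_balanced {n : ℕ} (φ : MultilinearMap ℂ (fun _ : Fin n => I → ℂ) ℂ)
    (hφ : ∃ v, φ v ≠ 0) (Fl : Set (Submodule ℂ (I → ℂ))) (htop : ⊤ ∈ Fl)
    (hch : ∀ P ∈ Fl, ∀ Q ∈ Fl, P ≤ Q ∨ Q ≤ P) (A : Set ℝ)
    (W V : ℝ → Submodule ℂ (I → ℂ)) (M : ℝ → Matrix I I ℂ)
    (hW : ∀ s ∈ A, W s ∈ Fl) (hV : ∀ s ∈ A, V s ∈ Fl) (hWV : ∀ s ∈ A, W s ≤ V s)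
    (hpres : ∀ s ∈ A, ∀ P ∈ Fl, ∀ v ∈ P, M s *ᵥ v ∈ P)
    (h2 : ∀ s ∈ A, ∀ v ∈ W s, M s *ᵥ v = (2 : ℂ) • v)
    (h1 : ∀ s ∈ A, ∀ v ∈ V s, M s *ᵥ v - v ∈ W s)
    (hm : ∀ s ∈ A, ∀ v, M s *ᵥ v - (1 / 2 : ℂ) • v ∈ V s)
    (hinv : ∀ s ∈ A, ∀ v, φ (fun a => M s *ᵥ v a) = φ v) :
    ∃ v, φ v ≠ 0 ∧ ∀ s ∈ A, Nat.card {a // v a ∈ W s} = Nat.card {a // v a ∉ V s} := by
  classical
  -- a word of subspaces of minimal dimension
  have hne : ∃ N : ℕ, ∃ P : Fin n → Submodule ℂ (I → ℂ), (∀ a, P a ∈ Fl) ∧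
      (∃ v, (∀ a, v a ∈ P a) ∧ φ v ≠ 0) ∧ ∑ a, Module.finrank ℂ (P a) = N := by
    obtain ⟨v, hv⟩ := hφ
    exact ⟨_, fun _ => ⊤, fun _ => htop, ⟨v, fun _ => trivial, hv⟩, rfl⟩
  obtain ⟨P, hP, ⟨v, hvP, hv⟩, hN⟩ := Nat.find_spec hne
  have hmin : ∀ (a : Fin n) (Q : Submodule ℂ (I → ℂ)), Q ∈ Fl → Q ≤ P a → Q ≠ P a →
      ∀ u, (∀ b, b ≠ a → u b ∈ P b) → u a ∈ Q → φ u = 0 := by
    intro a Q hQ hle hneq u hu hua
    by_contra h0
    have hlt : Module.finrank ℂ Q < Module.finrank ℂ (P a) :=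
      Submodule.finrank_lt_finrank_of_lt (lt_of_le_of_ne hle hneq)
    refine Nat.find_min hne (m := ∑ b, Module.finrank ℂ (Function.update P a Q b)) ?_
      ⟨Function.update P a Q, fun b => ?_, ⟨u, fun b => ?_, h0⟩, rfl⟩
    · rw [← hN, ← Finset.add_sum_erase _ _ (Finset.mem_univ a),
        ← Finset.add_sum_erase (a := a) _ (fun b => Module.finrank ℂ (P b)) (Finset.mem_univ a),
        Function.update_self]
      refine Nat.add_lt_add_of_lt_of_le hlt (le_of_eq (Finset.sum_congr rfl fun b hb => ?_))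
      rw [Function.update_of_ne (Finset.ne_of_mem_erase hb)]
    · by_cases hb : b = a
      · rw [hb, Function.update_self]
        exact hQ
      · rw [Function.update_of_ne hb]
        exact hP b
    · by_cases hb : b = a
      · rw [hb, Function.update_self]
        exact hua
      · rw [Function.update_of_ne hb]
        exact hu b hb
  refine ⟨v, hv, fun s hs => ?_⟩
  let c : Fin n → ℂ := fun a => if v a ∈ W s then 2 else if v a ∈ V s then 1 else 1 / 2
  -- one slot
  have hslot : ∀ (a : Fin n) (u : Fin n → I → ℂ), (∀ b, b ≠ a → u b ∈ P b) →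
      φ (Function.update u a (M s *ᵥ v a)) = φ (Function.update u a (c a • v a)) := by
    intro a u hu
    have hu' : ∀ x : I → ℂ, ∀ b, b ≠ a → Function.update u a x b ∈ P b := fun x b hb => by
      rw [Function.update_of_ne hb]
      exact hu b hb
    by_cases hw : v a ∈ W s
    · have hc : c a = 2 := if_pos hw
      rw [hc, h2 s hs _ hw]
    · by_cases hV' : v a ∈ V s
      · have hc : c a = 1 := by show (if _ then _ else _) = _; rw [if_neg hw, if_pos hV']
        rw [hc, one_smul, ← sub_eq_zero, ← MultilinearMap.map_update_sub]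
        have hle : W s ≤ P a := by
          rcases hch (P a) (hP a) (W s) (hW s hs) with h3 | h3
          · exact absurd (h3 (hvP a)) hw
          · exact h3
        refine hmin a (W s) (hW s hs) hle (fun e => hw (by rw [e]; exact hvP a)) _ (hu' _) ?_
        rw [Function.update_self]
        exact h1 s hs _ hV'
      · have hc : c a = 1 / 2 := by
          show (if _ then _ else _) = _; rw [if_neg hw, if_neg hV']
        rw [hc, ← sub_eq_zero, ← MultilinearMap.map_update_sub]
        have hle : V s ≤ P a := by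
          rcases hch (P a) (hP a) (V s) (hV s hs) with h3 | h3
          · exact absurd (h3 (hvP a)) hV'
          · exact h3
        refine hmin a (V s) (hV s hs) hle (fun e => hV' (by rw [e]; exact hvP a)) _ (hu' _) ?_
        rw [Function.update_self]
        exact hm s hs _
  have hall : ∀ B : Finset (Fin n), φ (fun a => if a ∈ B then M s *ᵥ v a else c a • v a) =
      φ (fun a => c a • v a) := by
    intro B
    induction B using Finset.induction_on with
    | empty => simp
    | insert a B ha ih =>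
      rw [← ih]
      have h3 := hslot a (fun b => if b ∈ B then M s *ᵥ v b else c b • v b) (fun b _ => by
        show (if b ∈ B then M s *ᵥ v b else c b • v b) ∈ P b
        split_ifs
        · exact hpres s hs _ (hP b) _ (hvP b)
        · exact Submodule.smul_mem _ _ (hvP b))
      have e1 : Function.update (fun b => if b ∈ B then M s *ᵥ v b else c b • v b) a
          (M s *ᵥ v a) = fun b => if b ∈ insert a B then M s *ᵥ v b else c b • v b := by
        funext b
        by_cases hb : b = a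
        · subst hb
          rw [Function.update_self, if_pos (Finset.mem_insert_self b B)]
        · rw [Function.update_of_ne hb]
          have h6 : b ∈ insert a B ↔ b ∈ B := by
            rw [Finset.mem_insert, or_iff_right hb]
          by_cases h7 : b ∈ B
          · rw [if_pos (h6.2 h7), if_pos h7]
          · rw [if_neg (fun h8 => h7 (h6.1 h8)), if_neg h7]
      have e2 : Function.update (fun b => if b ∈ B then M s *ᵥ v b else c b • v b) a
          (c a • v a) = fun b => if b ∈ B then M s *ᵥ v b else c b • v b := by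
        funext b
        by_cases hb : b = a
        · subst hb
          rw [Function.update_self, if_neg ha]
        · rw [Function.update_of_ne hb]
      rw [e1, e2] at h3
      exact h3
  have h3 := hall Finset.univ
  simp only [Finset.mem_univ, if_true] at h3
  rw [hinv s hs v, MultilinearMap.map_smul_univ, smul_eq_mul] at h3
  have h4 : ∏ a, c a = 1 := by
    have h5 : (∏ a, c a - 1) * φ v = 0 := by rw [sub_mul, one_mul, ← h3, sub_self]
    exact sub_eq_zero.1 ((mul_eq_zero.1 h5).resolve_right hv)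
  have h5 : ∏ a, c a = (2 : ℂ) ^ ((Finset.univ.filter fun a => v a ∈ W s).card : ℤ) *
      (1 / 2 : ℂ) ^ ((Finset.univ.filter fun a => v a ∉ V s).card : ℤ) := by
    rw [zpow_natCast, zpow_natCast, ← Finset.prod_const, ← Finset.prod_const, Finset.prod_filter,
      Finset.prod_filter, ← Finset.prod_mul_distrib]
    refine Finset.prod_congr rfl fun a _ => ?_
    show (if _ then _ else _) = _
    by_cases hw : v a ∈ W s
    · rw [if_pos hw, if_pos hw, if_neg (not_not.2 (hWV s hs hw)), mul_one]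
    · by_cases hV' : v a ∈ V s
      · rw [if_neg hw, if_pos hV', if_neg hw, if_neg (not_not.2 hV'), mul_one]
      · rw [if_neg hw, if_neg hV', if_neg hw, if_pos hV', one_mul]
  rw [h5, one_div, _root_.inv_zpow, ← _root_.zpow_neg, ← zpow_add₀ two_ne_zero] at h4
  have h6 : (2 : ℝ) ^ (((Finset.univ.filter fun a => v a ∈ W s).card : ℤ) +
      -((Finset.univ.filter fun a => v a ∉ V s).card : ℤ)) = 1 := by
    have h7 := congrArg norm h4
    rw [norm_zpow, norm_one] at h7
    simpa using h7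
  have h7 := (zpow_eq_one_iff_right₀ (by norm_num) (by norm_num)).1 h6
  rw [Nat.card_eq_fintype_card, Nat.card_eq_fintype_card, Fintype.card_subtype,
    Fintype.card_subtype]
  omega

/-- **The kernel is `0`.** -/
theorem kr_eq_zero (S : ASys D At) (ho : ∀ i, D.odd (D.typ i)) (he : ∀ i j, D.typ i = D.typ j)
    {n : ℕ} {Γ : Set (SM I)} (hΓ : ∀ g ∈ Γ, PresS D At n g) (hB : BalS D At Γ n) (t : Ten I n)
    (ht : t ∈ Kr D At n) : t = 0 := by
  classical
  by_contra ht0
  obtain ⟨p, q, wt, hF, hst⟩ := exists_optS S ho n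
  have hpq := hF.pq
  have hstL : ∀ g, Pres D At g → ∀ x y, (q * g.transpose * p) x y ≠ 0 → wt x ≤ wt y := by
    intro g hg x y hxy
    refine hst (g, RingEquiv.refl ℂ) ⟨hg.unit, hg.mem 2, hg.mem' 2, hg.mem n, hg.mem' n⟩ x y ?_
    have e : (g.transpose * p).map (RingEquiv.refl ℂ).symm = g.transpose * p := by
      ext i j
      rfl
    show (q * (g.transpose * p).map (RingEquiv.refl ℂ).symm) x y ≠ 0
    rwa [e, ← Matrix.mul_assoc]
  have hP : ∀ s a b : ℝ, a ≤ b → s ≤ a → s ≤ b := fun s a b hab hsa => hsa.trans hab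
  obtain ⟨V, hVd⟩ : ∃ V : ℝ → Submodule ℂ (I → ℂ), V = fun s => Up D q wt (fun r => s ≤ r) :=
    ⟨_, rfl⟩
  have hVs : ∀ s, V s = Up D q wt (fun r => s ≤ r) := fun s => by rw [hVd]
  obtain ⟨W, hWd⟩ : ∃ W : ℝ → Submodule ℂ (I → ℂ), W = fun s => perp D (V s) := ⟨_, rfl⟩
  have hWs : ∀ s, W s = perp D (V s) := fun s => by rw [hWd]
  have hanti : ∀ {A B : Submodule ℂ (I → ℂ)}, A ≤ B → perp D B ≤ perp D A := fun hAB u hu =>
    mem_perp.2 fun v hv => (mem_perp.1 hu) v (hAB hv)
  -- the chain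
  have h0V : ∀ s, 0 < s → Up D q wt (fun r => 0 < r) ≤ V s := fun s hs v hv => by
    rw [hVs]
    exact fun x hx => hv x (hs.trans_le hx)
  have hWV : ∀ s, 0 < s → ∀ s', 0 < s' → W s ≤ V s' := fun s hs s' hs' => by
    rw [hWs]
    exact (hanti (h0V s hs)).trans ((perp_le S ho he hF).trans (h0V s' hs'))
  have hVV : ∀ s s', s ≤ s' → V s ≤ V s' := fun s s' h v hv => by
    rw [hVs] at hv ⊢
    exact fun x hx => hv x (h.trans hx)
  have hWW : ∀ s s', s ≤ s' → W s' ≤ W s := fun s s' h => by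
    rw [hWs, hWs]
    exact hanti (hVV s s' h)
  -- stability
  have hstabV : ∀ s, ∀ g, PresS D At n g → ∀ v ∈ V s, sV g v ∈ V s := fun s g hg v hv => by
    rw [hVs] at hv ⊢
    exact up_presS ho hpq hst (hP s) hg hv
  have hstabW : ∀ s, ∀ g, PresS D At n g → ∀ v ∈ W s, sV g v ∈ W s := fun s g hg v hv => by
    rw [hWs] at hv ⊢
    exact perp_stableS ho (hstabV s _ (hg.dag ho)) v hv
  have hstab : ∀ s, StabS D At Γ (W s) := by
    refine fun s => ⟨fun z hz v hv => ?_, fun g hg v hv => hstabW s g (hΓ g hg) v hv⟩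
    have hN : opM D z ∈ endS D At := Submodule.subset_span ⟨z, hz, rfl⟩
    rw [hWs] at hv ⊢
    refine perp_stable ho (fun w hw => ?_) v hv
    rw [hVs] at hw ⊢
    exact up_endS S ho he hpq hstL (hP s) (dag_mem S ho hN) hw
  have hskew : ∀ u v : I → ℂ, u ⬝ᵥ (Psi D *ᵥ v) = -(v ⬝ᵥ (Psi D *ᵥ u)) := by
    intro u v
    rw [Matrix.dotProduct_mulVec, ← Matrix.mulVec_transpose, PsiT_eq ho, Matrix.neg_mulVec,
      neg_dotProduct, dotProduct_comm]
  have hiso : ∀ s, 0 < s → Isot (Psi D) (W s) := by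
    intro s hs v hv w hw
    rw [hWs] at hw
    exact (mem_perp.1 hw) v (hWV s hs s hs hv)
  choose! M hM hM2 hMn h2 h1 using fun (s : ℝ) (hs : 0 < s) => hB (W s) (hstab s) (hiso s hs)
  have hMp : ∀ s, 0 < s → PresS D At n (M s, RingEquiv.refl ℂ) := fun s hs =>
    presS_of_fix (hM s hs) (hM2 s hs) (hMn s hs)
  obtain ⟨v, hv, hcard⟩ := exists_balanced (evM D t) (evM_ne ho ht0)
    {U | U = ⊤ ∨ ∃ s, 0 < s ∧ (U = W s ∨ U = V s)} (Or.inl rfl) (by
      rintro P (rfl | ⟨s, hs, rfl | rfl⟩) Q (rfl | ⟨s', hs', rfl | rfl⟩)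
      · exact Or.inl le_rfl
      · exact Or.inr le_top
      · exact Or.inr le_top
      · exact Or.inl le_top
      · rcases le_total s s' with h | h
        · exact Or.inr (hWW _ _ h)
        · exact Or.inl (hWW _ _ h)
      · exact Or.inl (hWV _ hs _ hs')
      · exact Or.inl le_top
      · exact Or.inr (hWV _ hs' _ hs)
      · rcases le_total s s' with h | h
        · exact Or.inl (hVV _ _ h)
        · exact Or.inr (hVV _ _ h)) {s | 0 < s} W V M
    (fun s hs => Or.inr ⟨s, hs, Or.inl rfl⟩) (fun s hs => Or.inr ⟨s, hs, Or.inr rfl⟩)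
    (fun s hs => hWV s hs s hs) (by
      rintro s hs P (rfl | ⟨s', hs', rfl | rfl⟩) v hv
      · trivial
      · exact hstabW s' _ (hMp s hs) v hv
      · exact hstabV s' _ (hMp s hs) v hv)
    (fun s hs v hv => h2 s hs v hv)
    (fun s hs v hv => h1 s hs v fun u hu => by
      rw [hskew]
      rw [hWs] at hu
      rw [(mem_perp.1 hu) v hv, neg_zero])
    (fun s hs v => by
      refine perp_perp ho (mem_perp.2 fun w hw => ?_)
      have hw' : w ∈ W s := by rw [hWs]; exact hw
      have h3 : Nd.dag D (M s) *ᵥ w = (1 / 2 : ℂ) • w := by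
        have h4 : Nd.dag D (M s) *ᵥ (M s *ᵥ w) = w := by
          rw [Matrix.mulVec_mulVec, dag_mul_self (hM s hs), Matrix.one_mulVec]
        rw [h2 s hs w hw', Matrix.mulVec_smul] at h4
        calc Nd.dag D (M s) *ᵥ w = (1 / 2 : ℂ) • ((2 : ℂ) • (Nd.dag D (M s) *ᵥ w)) := by
              rw [smul_smul]; norm_num
          _ = (1 / 2 : ℂ) • w := by rw [h4]
      have h5 : w ⬝ᵥ (Psi D *ᵥ (M s *ᵥ v)) = (Nd.dag D (M s) *ᵥ w) ⬝ᵥ (Psi D *ᵥ v) := by
        rw [Matrix.mulVec_mulVec, Psi_mul_eq ho, ← Matrix.mulVec_mulVec,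
          Matrix.dotProduct_mulVec, Matrix.vecMul_transpose]
      rw [Matrix.mulVec_sub, Matrix.mulVec_smul, dotProduct_sub, dotProduct_smul, h5, h3,
        smul_dotProduct, sub_self])
    (fun s hs v => evM_inv ho (hM s hs) (fix_ca (hMn s hs) ht.1) v)
  have hv0 : ∀ a, v a ≠ 0 := fun a h0 => hv ((evM D t).map_coord_zero a h0)
  choose a b l ha hb hsa hsb hl hvl using fun i => levels S ho he hF (hv0 i)
  have e1 : 1 ≤ ∑ i, l i := by
    have h0 := hv
    rw [evM_apply, ev_expand t hpq] at h0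
    obtain ⟨J, _, hJ0⟩ := Finset.exists_ne_zero_of_sum_ne_zero h0
    refine (hF.tens t ht J (right_ne_zero_of_mul hJ0)).trans
      (Finset.sum_le_sum fun i _ => ?_)
    by_contra hlt
    rw [not_le] at hlt
    exact left_ne_zero_of_mul hJ0 (Finset.prod_eq_zero (Finset.mem_univ i) (hvl i (J i) hlt))
  have e2 : ∑ i, a i ≤ ∑ i, b i := by
    refine sum_le_of_count a b ha hb fun s hs => le_of_eq ?_
    have h3 := hcard s hs
    rw [Nat.card_eq_fintype_card, Nat.card_eq_fintype_card, Fintype.card_subtype,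
      Fintype.card_subtype] at h3
    have h4 : (Finset.univ.filter fun i => s ≤ a i) = Finset.univ.filter fun i => v i ∉ V s := by
      refine Finset.filter_congr fun i _ => ?_
      rw [hVs]
      exact (hsa i s hs).symm
    have h5 : (Finset.univ.filter fun i => s ≤ b i) = Finset.univ.filter fun i => v i ∈ W s := by
      refine Finset.filter_congr fun i _ => ?_
      rw [hWs, hVs]
      exact (hsb i s hs).symm
    rw [h4, h5, h3]
  have e3 : ∑ i, l i ≤ ∑ i, (a i - b i) := Finset.sum_le_sum fun i _ => hl i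
  rw [Finset.sum_sub_distrib] at e3
  linarith

end Pool.Agent.Lib.MP_361a6f_ag.FL.E.NdS

namespace Pool.Agent.Lib.MP_361a6f_ag.FL.E

/-- **Nondegeneracy in one length.** -/
theorem ndS {I Λ : Type} [Fintype I] [DecidableEq I] [DecidableEq Λ] (D : Dat I Λ)
    (At : (L : ℕ) → Ten I L → Prop) (Γ : Set (SM I)) (S : ASys D At)
    (ho : ∀ i, D.odd (D.typ i)) (he : ∀ i j, D.typ i = D.typ j) {m : ℕ}
    (hΓ : ∀ g ∈ Γ, IsUnit g.1.det ∧ (∀ u ∈ OL.CA At 2, sT g u ∈ OL.CA At 2) ∧
      ∀ u ∈ OL.CA At m, sT g u ∈ OL.CA At m) (hB : BalS D At Γ m) :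
    ∀ u ∈ Submodule.span ℂ {u | At m u}, u ≠ 0 →
      ∃ v ∈ Submodule.span ℂ {u | At m u}, psiT D u v ≠ 0 := by
  intro u hu h0
  by_contra hcon
  push Not at hcon
  exact h0 (NdS.kr_eq_zero S ho he (fun g hg => NdS.presS_of S ho he (hΓ g hg).1 (hΓ g hg).2.1
    (hΓ g hg).2.2) hB u ⟨hu, hcon⟩)

end Pool.Agent.Lib.MP_361a6f_ag.FL.E
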