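import Pool.Agent.Lib.MP_361a6f_ag.FL.EMC.StatEMC
import Pool.Agent.Lib.MP_361a6f_ag.FL.E.StatJ

/-!
# Numerical and homological equivalence in codimension `j` for an abelian variety with balanced
isotropic subspaces, and for the varieties detected by its powers: the statement
-/

open CategoryTheory AlgebraicGeometry MonoidalCategory CartesianMonoidalCategory

universe u w

namespace Pool.Agent.Lib.MP_361a6f_ag.FL

open Pool.Agent.Lib.MP_361a6f_ag.H3 Pool.Agent.Lib.MP_361a6f_ag.SQ

section defs

variable {k : Type u} [Field k]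

/-- The symmetries for the codimension `j`: the maps `T P` are the tensor powers of an additive map
`H^*(X) → H^*(X)` with `T (c x) = s(c) T x` for the field automorphism `s` of `ℂ`, which preserves
the degree and is injective on `H^1(X)`, and they map the complex span of the algebraic classes of
codimension `l` on the powers of `X` with `2 l` factors to itself, for `l = 1` and for `l = j`. (For
instance `s = 1` and `T = f^*` for an automorphism `f` of `X`; or `s = 1` and `T` an element of the
Galois group of `k` over `k₀`, if `X` comes from an abelian variety over the subfield `k₀` of `k`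
and `W = H_ℓ ⊗ ℂ`, because it permutes the algebraic cycles; or `T = 1 ⊗ s` on `W = H_ℓ ⊗ ℂ` for an
automorphism `s` of `ℂ` over `ℚ_ℓ`, because it fixes the algebraic classes.) -/
structure EQ.SemAt (W : CohomologyData.{u, 0, w} k ℂ) (X : Sch k) (j : ℕ) (s : ℂ ≃+* ℂ)
    (T : ∀ P : Prd 1, W.coh (EQ.pw X P) → W.coh (EQ.pw X P)) : Prop where
  add : ∀ P x y, T P (x + y) = T P x + T P y
  scal : ∀ P c x, T P (W.scal c x) = W.scal (s c) (T P x)
  ext : ∀ P Q y x, T (.prod P Q) (W.ext y x) = W.ext (T P y) (T Q x)
  deg : ∀ i x, W.Deg X i x → W.Deg X i (T (.leaf 0) x)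
  inj : ∀ x, W.Deg X 1 x → T (.leaf 0) x = 0 → x = 0
  alg : ∀ (P : Prd 1) (l : ℕ), l = 1 ∨ l = j → P.size = 2 * l →
    ∀ z, W.IsAlg (EQ.pw X P) l z → T P z ∈ Submodule.span ℂ {z | W.IsAlg (EQ.pw X P) l z}

/-- `U` is a stable subspace of `H^1(X)` for the codimension `j`: it is mapped to itself by all
algebraic correspondences of codimension `n = dim X` and by all symmetries for `j`. (For an abelian
variety `X` over the algebraic closure `k` of a finitely generated field `k₀`, which comes from
`X₀` over `k₀`, and `W = H_ℓ ⊗ ℂ`: a sum of subspaces `e V_ℓ ⊗ ℂ`, where the idempotent `e` belongs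
to a place over `ℓ` of the algebra `Z` of the elements of the centre of `End(X) ⊗ ℚ` that are fixed
by the Galois group of `k` over `k₀`.) -/
structure EQ.StabAt (W : CohomologyData.{u, 0, w} k ℂ) (X : Sch k) (n j : ℕ)
    (U : Submodule ℂ (W.coh X)) : Prop where
  le : U ≤ W.gr X 1
  act : ∀ z, W.IsAlg (X.prod X) n z → ∀ x ∈ U, EQ.act W z x ∈ U
  sym : ∀ s T, EQ.SemAt W X j s T → ∀ x ∈ U, T (.leaf 0) x ∈ U

/-- The maps `M P` are the tensor powers of a linear map `H^*(X) → H^*(X)` which preserves the
degree, and they fix the algebraic classes of codimension `l` on the powers of `X` with `2 l`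
factors, for `l = 1` and for `l = j`. -/
structure EQ.FixAt (W : CohomologyData.{u, 0, w} k ℂ) (X : Sch k) (j : ℕ)
    (M : ∀ P : Prd 1, W.coh (EQ.pw X P) → W.coh (EQ.pw X P)) : Prop where
  tensor : EQ.Tensor W X W X M
  deg : ∀ i x, W.Deg X i x → W.Deg X i (M (.leaf 0) x)
  alg : ∀ (P : Prd 1) (l : ℕ), l = 1 ∨ l = j → P.size = 2 * l →
    ∀ z, W.IsAlg (EQ.pw X P) l z → M P z = z

/-- The isotropic subspace `U` of `H^1(X)` is balanced in codimension `j`: there is an operator `M`
as in `EQ.FixAt` that is `2` on `U` and `1` on the quotient of the orthogonal of `U` for the form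
`Tr(ξ^(n-1) x y)` by `U`. (For an abelian variety and the sum `U` of the subspaces `V_σ` for a set
of homomorphisms `σ` from the centre of the endomorphism algebra to `ℂ` that are not real and not
conjugate to each other: `M` is `2` on `U`, `1/2` on the sum of the subspaces of the complex
conjugates, and `1` on the others. It fixes the algebraic classes if and only if these are sums of
tensors with as many letters in `U` as in the sum of the subspaces of the complex conjugates.) -/
def EQ.BalOn (W : CohomologyData.{u, 0, w} k ℂ) (X : Sch k) (n : ℕ) (ξ : W.coh X) (j : ℕ)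
    (U : Submodule ℂ (W.coh X)) : Prop :=
  ∃ M : ∀ P : Prd 1, W.coh (EQ.pw X P) → W.coh (EQ.pw X P), EQ.FixAt W X j M ∧
    (∀ x ∈ U, M (.leaf 0) x = W.scal 2 x) ∧
    ∀ x, W.Deg X 1 x → (∀ y ∈ U, W.Tr (W.cup (ξ ^ (n - 1)) (W.cup y x)) = 0) →
      EQ.sub1 (X := X) M x ∈ U

/-- The cohomology of `Y` in degree `2 j` is detected by the powers of `X` (with `d = dim Y`): a
class `x` of degree `2 j` on `Y` is zero if `pr₂_*(pr₁^* x · c) = 0` for all powers `X^P` of `X` and
all algebraic classes `c` of codimension `d` on `Y × X^P`. (This holds for the powers of `X`, by the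
class of the diagonal, and for instance for the products of curves whose Jacobians are factors of
`X` up to isogeny, if `dim X > 0`.) -/
def EQ.DetAt (W : CohomologyData.{u, 0, w} k ℂ) (X Y : Sch k) (d j : ℕ) : Prop :=
  ∀ x, W.Deg Y (2 * j) x →
    (∀ (P : Prd 1) (c : W.coh (Y.prod (EQ.pw X P))), W.IsAlg (Y.prod (EQ.pw X P)) d c →
      W.pf (Y.pr₂ (EQ.pw X P)) (W.cup (W.pb (Y.pr₁ (EQ.pw X P)) x) c) = 0) → x = 0

end defs

/-- **Theorem BAL.** Let `X` be an abelian variety over any field (a unital law, `H^0(X) = ℂ` and a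
divisor class `ξ` of positive degree are enough), and `j` a natural number such that every stable
subspace of `H^1(X)` for `j` which is isotropic for the form `Tr(ξ^(g-1) x y)` is balanced in
codimension `j`. Then numerical equivalence is homological equivalence in codimension `j`, with
complex coefficients, on all powers of `X`, and on all varieties `Y` whose cohomology in degree
`2 j` is detected by the powers of `X`. -/
def ThmBalS : Prop :=
  ∀ {k : Type u} [Field k] (W : CohomologyData.{u, 0, w} k ℂ) (𝒱 : VarietyClass k)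
    (_ : IsWeilCohomology W 𝒱) (X : Sch k) (g : ℕ) (_ : 𝒱.mem X g)
    (_ : ∀ x, W.Deg X 0 x → ∃ c, x = W.scal c 1) (_ : EQ.Unital X) (ξ : W.coh X)
    (_ : PositiveDivisor W X g ξ) (j : ℕ)
    (_ : ∀ U, EQ.StabAt W X g j U → EQ.Isot W X g ξ U → EQ.BalOn W X g ξ j U),
    (∀ P : Prd 1, EQ.NumHomAt W (EQ.pw X P) j) ∧
      ∀ (Y : Sch k) (d : ℕ), 𝒱.mem Y d → EQ.DetAt W X Y d j → EQ.NumHomAt W Y j

end Pool.Agent.Lib.MP_361a6f_ag.FL
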