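import Pool.Agent.Lib.MP_361a6f_ag.FL.BAL.Geo
import Pool.Agent.Lib.MP_361a6f_ag.FL.BAL.NdS
import Pool.Agent.Lib.MP_361a6f_ag.FL.BAL.StatS
import Pool.Agent.Lib.MP_361a6f_ag.FL.E.KapM

/-!
# Numerical and homological equivalence in one codimension from balanced isotropic subspaces
-/

open CategoryTheory AlgebraicGeometry MonoidalCategory CartesianMonoidalCategory

universe u w

set_option autoImplicit false

namespace Pool.Agent.Lib.MP_361a6f_ag.FL.E

open Pool.Agent.Lib.MP_361a6f_ag.H3 Pool.Agent.Lib.MP_361a6f_ag.SQ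
  Pool.Agent.Lib.MP_361a6f_ag.PP

namespace BalS0

open Bal0 (exists_gen num_tot inj0 gr0 range0)
open KapM (tt tt_add tt_zero tt_smul tt_outer tt_ext)

open Pool.Agent.Lib.MP_361a6f_ag.FL.E.Orb Pool.Agent.Lib.MP_361a6f_ag.FL.E.BR

/-- a semilinear operator preserves a span if it maps the generators to it -/
theorem sT_span {I : Type} [Fintype I] {At : (L : ℕ) → Ten I L → Prop} {n : ℕ} {g : SM I}
    (h : ∀ u, At n u → sT g u ∈ OL.CA At n) {u : Ten I n} (hu : u ∈ OL.CA At n) :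
    sT g u ∈ OL.CA At n := by
  classical
  have hadd : ∀ a b : Ten I n, sT g (a + b) = sT g a + sT g b := fun a b => by
    unfold sT
    rw [← AL1A.gT_add]
    congr 1
    funext w
    exact map_add g.2 _ _
  have hsmul : ∀ (r : ℂ) (a : Ten I n), sT g (r • a) = g.2 r • sT g a := fun r a => by
    unfold sT
    rw [← AL1A.gT_smul]
    congr 1
    funext w
    exact map_mul g.2 _ _
  unfold OL.CA at hu
  induction hu using Submodule.span_induction with
  | mem u hu => exact h u hu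
  | zero =>
    have h0 := hsmul 0 0
    rw [map_zero, zero_smul, zero_smul] at h0
    rw [h0]
    exact Submodule.zero_mem _
  | add a b _ _ ha hb =>
    rw [hadd]
    exact Submodule.add_mem _ ha hb
  | smul r a _ ha =>
    rw [hsmul]
    exact Submodule.smul_mem _ _ ha

section host

variable {k : Type u} [Field k] {W : CohomologyData.{u, 0, w} k ℂ} {𝒱 : VarietyClass k}

/-- a semilinear family of tensor powers -/
structure SemF (W : CohomologyData.{u, 0, w} k ℂ) (X : Fin 1 → Sch k) (τ : ℂ ≃+* ℂ)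
    (κ : ∀ P : Prd 1, W.coh (P.obj X) → W.coh (P.obj X)) : Prop where
  add : ∀ P x y, κ P (x + y) = κ P x + κ P y
  smul : ∀ (P : Prd 1) (c : ℂ) (x : W.coh (P.obj X)), κ P (c • x) = τ c • κ P x
  ext : ∀ (P Q : Prd 1) (y : W.coh (P.obj X)) (x : W.coh (Q.obj X)),
    κ (.prod P Q) (W.pull (fst (P.obj X) (Q.obj X)) y * W.pull (snd (P.obj X) (Q.obj X)) x)
      = W.pull (fst (P.obj X) (Q.obj X)) (κ P y) * W.pull (snd (P.obj X) (Q.obj X)) (κ Q x)
  deg : ∀ i (x : W.coh (X 0)), x ∈ W.gr (X 0) i → (κ (.leaf 0) x : W.coh (X 0)) ∈ W.gr (X 0) i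

variable (H : Host W 𝒱 1) {τ : ℂ ≃+* ℂ} {κ : ∀ P : Prd 1, W.coh (P.obj H.X) → W.coh (P.obj H.X)}

theorem SemF.zero {X : Fin 1 → Sch k} {κ : ∀ P : Prd 1, W.coh (P.obj X) → W.coh (P.obj X)}
    (hκ : SemF W X τ κ) (P : Prd 1) : κ P 0 = 0 := by
  have h := hκ.smul P 0 0
  rw [zero_smul, map_zero, zero_smul] at h
  exact h

/-- the classes on which `κ` is given by the matrix `M` -/
def loc (hκ : SemF W H.X τ κ) (M : Matrix H.I H.I ℂ) (P : Prd 1) :
    Submodule ℂ (W.coh (P.obj H.X)) where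
  carrier := {z | H.tc P (κ P z) = gT M (tt τ (H.tc P z))}
  add_mem' := by
    intro a b ha hb
    show H.tc P (κ P (a + b)) = gT M (tt τ (H.tc P (a + b)))
    rw [hκ.add, map_add, map_add, tt_add, AL1A.gT_add]
    exact congrArg₂ (· + ·) ha hb
  zero_mem' := by
    show H.tc P (κ P 0) = gT M (tt τ (H.tc P 0))
    rw [hκ.zero, map_zero, tt_zero]
    funext w
    simp [gT]
  smul_mem' := by
    intro c a ha
    show H.tc P (κ P (c • a)) = gT M (tt τ (H.tc P (c • a)))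
    rw [hκ.smul, map_smul, map_smul, tt_smul, AL1A.gT_smul]
    exact congrArg (τ c • ·) ha

theorem mem_loc (hκ : SemF W H.X τ κ) (M : Matrix H.I H.I ℂ) (P : Prd 1)
    (z : W.coh (P.obj H.X)) : z ∈ loc H hκ M P ↔ H.tc P (κ P z) = gT M (tt τ (H.tc P z)) :=
  Iff.rfl

theorem tl_sem (hκ : SemF W H.X τ κ) (z : W.coh (H.X 0)) :
    SymM.tl H (κ (.leaf 0) z) = gT (KapM.mat H (κ (.leaf 0))) (tt τ (SymM.tl H z)) := by
  have h := SymM.ind_leaf H (loc H hκ (KapM.mat H (κ (.leaf 0))) (.leaf 0)) (by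
      intro j
      show SymM.tl H (κ (.leaf 0) (H.e 0 j)) =
        gT (KapM.mat H (κ (.leaf 0))) (tt τ (SymM.tl H (H.e 0 j)))
      funext w
      unfold gT
      rw [Finset.sum_eq_single (fun _ => j)]
      · show _ = _ * τ (SymM.tl H (H.e 0 j) fun _ => j)
        rw [SymM.tl_e, if_pos rfl, map_one, mul_one, Fin.prod_univ_one]
        show SymM.tl H (κ (.leaf 0) (H.e 0 j)) w = SymM.tl H (κ (.leaf 0) (H.e 0 j)) fun _ => w 0
        have hw : w = fun _ => w 0 := by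
          funext i
          exact congrArg w (Subsingleton.elim (α := Fin 1) _ _)
        rw [← hw]
      · intro w' _ hw'
        show _ * τ (SymM.tl H (H.e 0 j) w') = 0
        rw [SymM.tl_e, if_neg hw', map_zero, mul_zero]
      · intro h
        exact absurd (Finset.mem_univ _) h)
  have hz : z ∈ loc H hκ (KapM.mat H (κ (.leaf 0))) (.leaf 0) := by
    rw [h]
    trivial
  exact hz

/-- the coordinates of `κ P z` -/
theorem tc_sem (hκ : SemF W H.X τ κ) : ∀ (P : Prd 1) (z : W.coh (P.obj H.X)),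
    H.tc P (κ P z) = gT (KapM.mat H (κ (.leaf 0))) (tt τ (H.tc P z))
  | .leaf a, z => by
    obtain rfl : a = 0 := Subsingleton.elim _ _
    exact tl_sem H hκ z
  | .prod P Q, z => by
    have h := Ge.ind H (.prod P Q) (loc H hκ (KapM.mat H (κ (.leaf 0))) (.prod P Q)) (by
        intro w₀
        rw [mem_loc]
        show H.tc (.prod P Q) (κ (.prod P Q) (W.pull (fst (P.obj H.X) (Q.obj H.X))
              (H.E P (fun i => w₀ (Fin.castAdd Q.size i)))
            * W.pull (snd (P.obj H.X) (Q.obj H.X)) (H.E Q (fun i => w₀ (Fin.natAdd P.size i)))))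
          = gT (KapM.mat H (κ (.leaf 0))) (tt τ (H.tc (.prod P Q)
            (W.pull (fst (P.obj H.X) (Q.obj H.X))
              (H.E P (fun i => w₀ (Fin.castAdd Q.size i)))
            * W.pull (snd (P.obj H.X) (Q.obj H.X)) (H.E Q (fun i => w₀ (Fin.natAdd P.size i))))))
        rw [hκ.ext, Ge.tc_outer, Ge.tc_outer, tc_sem hκ P, tc_sem hκ Q]
        exact (AL2.outer_gT _ _ _).symm.trans (congrArg (gT _) (tt_outer τ _ _).symm))
    have hz : z ∈ (⊤ : Submodule ℂ (W.coh ((Prd.prod P Q).obj H.X))) := trivial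
    rw [← h] at hz
    exact hz

/-- the matrix preserves the letters -/
theorem mat_typ (hκ : SemF W H.X τ κ) (i j : H.I) (h : H.D.typ i ≠ H.D.typ j) :
    KapM.mat H (κ (.leaf 0)) i j = 0 := by
  refine SymM.tl_deg H (hκ.deg _ _ (H.e_gr 0 j)) i ?_
  intro e
  exact h (Prod.ext (Subsingleton.elim _ _) e)

/-- the values on `H^1` -/
theorem sem_cls (hκ : SemF W H.X τ κ) (v : Sub H.D (lt 1) → ℂ) :
    (κ (.leaf 0) (cls H 1 v) : W.coh (H.X 0)) =
      cls H 1 ((blk (KapM.mat H (κ (.leaf 0))) : Matrix (Sub H.D (lt 1)) (Sub H.D (lt 1)) ℂ).mulVec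
        fun i => τ (v i)) := by
  apply (ge H).inj (.leaf 0)
  rw [tc_cls (ge H)]
  have h1 : H.tc (.leaf 0) (κ (.leaf 0) (cls H 1 v)) =
      gT (KapM.mat H (κ (.leaf 0))) (tt τ (H.tc (.leaf 0) (cls H 1 v))) :=
    tc_sem H hκ (.leaf 0) (cls H 1 v)
  rw [tc_cls (ge H)] at h1
  refine h1.trans ?_
  have h2 : tt τ (ext0 H.D (lt 1) (t1 v) : Ten H.I 1) =
      ext0 H.D (lt 1) (t1 fun i => τ (v i)) := tt_ext τ _
  refine (congrArg (gT (KapM.mat H (κ (.leaf 0)))) h2).trans ?_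
  rw [gT_ext (mat_typ H hκ), gT_t1]

/-- a member of length `2 l` on the letter of degree one comes from an algebraic class of
codimension `l` -/
theorem exists_class {P : Prd 1} {l : ℕ} (hP : P.size = 2 * l)
    {u : Ten (Sub H.D (0, 1)) P.size} (hu : At1 H P.size u) :
    ∃ y ∈ W.alg (P.obj H.X) l, H.tc P y = ext0 H.D (0, 1) u :=
  PosL.at_word H (gr ge H) (ge H) P (fun _ => (0, 1))
    (fun i => Subsingleton.elim _ _) l (by
      show ∑ _i : Fin P.size, 1 = 2 * l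
      simp [hP]) hu (fun w hw => ext0_off u hw)

/-- the algebraic classes of codimension `j` are stable under the adjoints of pull-backs -/
theorem push_alg (j : ℕ) : EndM.PushSt H fun P => {z | z ∈ W.alg (P.obj H.X) j} := by
  intro P Q f _ z hz
  obtain ⟨z'', h1, key⟩ := EndE.push_star H P Q f z (alg_le_tot H.hW _ j hz)
  refine ⟨z'', tot_alg H.hW (H.memP Q) h1 ?_, key⟩
  rw [Ge.expand H Q z'']
  refine Submodule.sum_mem _ fun w _ => ?_
  have hE := Ge.E_gr H Q w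
  by_cases hw : ∑ i, (H.D.typ (w i)).2 = 2 * j
  · rw [hw] at hE
    exact Submodule.smul_mem _ _ hE
  · have hE' := Ge.E_gr H Q (H.D.τ ∘ w)
    have h2 : ∑ i, (H.D.typ ((H.D.τ ∘ w) i)).2 = ∑ i, (H.D.typ (w i)).2 :=
      Finset.sum_congr rfl (fun i _ => by rw [Function.comp_apply, H.D.typ_τ])
    rw [h2] at hE'
    have h3 : H.psiP P (W.pull f (H.E Q (H.D.τ ∘ w))) z = 0 :=
      GB.psi_gr_ne H.hW staB (H.memP P) (H.lamP P).2 (H.lamP P).1
        (H.hW.pull_gr (H.memP P) (H.memP Q) f hE') (H.hW.alg_gr (H.memP P) hz) hw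
    have h4 : H.tc Q z'' w = 0 := by
      rw [H.tc_apply, ← EndM.psi_symm H Q h1, key, h3, mul_zero]
    rw [h4, zero_smul]
    exact Submodule.zero_mem _

/-- the part of degree one of an algebraic class of codimension `j` is `0` if there are not `2 j`
factors -/
theorem cut_zero {P : Prd 1} {j : ℕ} (hP : P.size ≠ 2 * j) {z : W.coh (P.obj H.X)}
    (hz : z ∈ W.alg (P.obj H.X) j) : EndM.cut1 H (H.tc P z) = 0 := by
  funext v
  refine SymM.tc_deg H P (H.hW.alg_gr (H.memP P) hz) (E.up v) ?_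
  have h1 : ∑ i, (H.D.typ (E.up v i)).2 = P.size := by
    refine (Finset.sum_congr rfl (g := fun _ => 1) fun i _ => congrArg Prod.snd (v i).2).trans ?_
    simp
  rw [h1]
  exact hP

/-- the part of degree one of an algebraic class -/
theorem cut_mem {P : Prd 1} {j : ℕ} {z : W.coh (P.obj H.X)} (hz : z ∈ W.alg (P.obj H.X) j) :
    At1 H P.size (EndM.cut1 H (H.tc P z)) := by
  show ext0 H.D (0, 1) (EndM.cut1 H (H.tc P z)) ∈ H.At P.size
  have h1 := EndE.cut_at H (GP.at_tc H P (alg_le_tot H.hW _ j hz))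
  rw [← EndM.ext_cut1] at h1
  exact h1

/-- the part of degree one of a member of the span of the algebraic classes -/
theorem cut_span {P : Prd 1} {l : ℕ} {z : W.coh (P.obj H.X)}
    (hz : z ∈ Submodule.span ℂ {z | z ∈ W.alg (P.obj H.X) l}) :
    EndM.cut1 H (H.tc P z) ∈ OL.CA (At1 H) P.size := by
  let φ : W.coh (P.obj H.X) →ₗ[ℂ] Ten (Sub H.D (0, 1)) P.size :=
    { toFun := fun z => EndM.cut1 H (H.tc P z)
      map_add' := fun a b => by rw [map_add]; rfl
      map_smul' := fun r a => by rw [map_smul]; rfl }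
  have h1 : φ z ∈ (Submodule.span ℂ {z | z ∈ W.alg (P.obj H.X) l}).map φ :=
    Submodule.mem_map_of_mem hz
  rw [Submodule.map_span] at h1
  refine (Submodule.span_le.2 ?_) h1
  rintro _ ⟨y, hy, rfl⟩
  exact Submodule.subset_span (cut_mem H (P := P) hy)

end host

section core

variable {k : Type u} [Field k] {W : CohomologyData.{u, 0, w} k ℂ} {𝒱 : VarietyClass k}
  {X : Sch k} {g : ℕ} {ξ : W.coh X} (c : Hst.Core W X g ξ) (hW : IsWeilCohomology W 𝒱)
  (hX : 𝒱.mem X g) (hξ : ξ ∈ W.alg X 1)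

theorem semF_of {j : ℕ} {s : ℂ ≃+* ℂ} {T : ∀ P : Prd 1, W.coh (EQ.pw X P) → W.coh (EQ.pw X P)}
    (hT : EQ.SemAt W X j s T) : SemF W (c.host hW hX hξ).X s T where
  add := hT.add
  smul := hT.scal
  ext := hT.ext
  deg := hT.deg

theorem semF_fix {j : ℕ} {T : ∀ P : Prd 1, W.coh (EQ.pw X P) → W.coh (EQ.pw X P)}
    (hT : EQ.FixAt W X j T) : SemF W (c.host hW hX hξ).X (RingEquiv.refl ℂ) T where
  add := hT.tensor.add
  smul := hT.tensor.scal
  ext := hT.tensor.ext
  deg := hT.deg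

/-- the matrix of a symmetry on the letter of degree one -/
noncomputable abbrev mx (T : ∀ P : Prd 1, W.coh (EQ.pw X P) → W.coh (EQ.pw X P)) :
    Matrix (Sub c.D (0, 1)) (Sub c.D (0, 1)) ℂ :=
  blk (KapM.mat (c.host hW hX hξ) (T (.leaf 0)))

/-- the coordinates of the image of a class under a symmetry -/
theorem key_at {s : ℂ ≃+* ℂ} {T : ∀ P : Prd 1, W.coh (EQ.pw X P) → W.coh (EQ.pw X P)}
    (hT : SemF W (c.host hW hX hξ).X s T) (P : Prd 1) {u : Ten (Sub c.D (0, 1)) P.size}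
    {y : W.coh (EQ.pw X P)} (h1 : (c.host hW hX hξ).tc P y = ext0 c.D (0, 1) u) :
    (c.host hW hX hξ).tc P (T P y) = ext0 c.D (0, 1) (sT (mx c hW hX hξ T, s) u) := by
  have h3 := tc_sem (c.host hW hX hξ) hT P y
  rw [h1] at h3
  refine Eq.trans h3 ?_
  refine (congrArg (gT _) (tt_ext s u)).trans ?_
  exact gT_ext (mat_typ (c.host hW hX hξ) hT) _

/-- a symmetry preserves the span of the members of the lengths `2` and `2 j` -/
theorem pres_at {j : ℕ} {s : ℂ ≃+* ℂ} {T : ∀ P : Prd 1, W.coh (EQ.pw X P) → W.coh (EQ.pw X P)}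
    (hT : EQ.SemAt W X j s T) (P : Prd 1) {l : ℕ} (hl : l = 1 ∨ l = j) (hP : P.size = 2 * l)
    (u : Ten (Sub c.D (0, 1)) P.size) (hu : u ∈ OL.CA (At1 (c.host hW hX hξ)) P.size) :
    sT (mx c hW hX hξ T, s) u ∈ OL.CA (At1 (c.host hW hX hξ)) P.size := by
  refine sT_span (fun u hu => ?_) hu
  obtain ⟨y, hy, h1⟩ := exists_class (c.host hW hX hξ) hP hu
  have h2 := cut_span (c.host hW hX hξ) (P := P) (hT.alg P l hl hP y hy)
  rw [key_at c hW hX hξ (semF_of c hW hX hξ hT) P h1] at h2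
  have h3 : EndM.cut1 (c.host hW hX hξ) (ext0 c.D (0, 1) (sT (mx c hW hX hξ T, s) u)) =
      sT (mx c hW hX hξ T, s) u := by
    funext w
    exact ext0_up _ w
  rw [h3] at h2
  exact h2

/-- an operator that fixes the algebraic classes fixes the members of the lengths `2` and `2 j` -/
theorem fix_at {j : ℕ} {M : ∀ P : Prd 1, W.coh (EQ.pw X P) → W.coh (EQ.pw X P)}
    (hM : EQ.FixAt W X j M) (P : Prd 1) {l : ℕ} (hl : l = 1 ∨ l = j)
    (hP : P.size = 2 * l) (u : Ten (Sub c.D (0, 1)) P.size)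
    (hu : At1 (c.host hW hX hξ) P.size u) : gT (mx c hW hX hξ M) u = u := by
  obtain ⟨y, hy, h1⟩ := exists_class (c.host hW hX hξ) hP hu
  have h2 := key_at c hW hX hξ (semF_fix c hW hX hξ hM) P h1
  have h3 : M P y = y := hM.alg P l hl hP y hy
  rw [h3, h1] at h2
  exact (ext0_inj (D := c.D) (α := ((0, 1) : Fin 1 × ℕ)) h2).symm

/-- the symmetries for `j` on the letter of degree one -/
def symJ (j : ℕ) : Set (SM (Sub c.D (0, 1))) :=
  {x | ∃ (T : ∀ P : Prd 1, W.coh (EQ.pw X P) → W.coh (EQ.pw X P)),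
    EQ.SemAt W X j x.2 T ∧ x.1 = mx c hW hX hξ T}

theorem asys : ASys (subD c.D (0, 1)) (At1 (c.host hW hX hξ)) :=
  aSys_sub (α := ((0, 1) : Fin 1 × ℕ)) (aSys_at (at_ (c.host hW hX hξ)))

/-- a symmetry on the letter of degree one -/
theorem sym_cl {s : ℂ ≃+* ℂ} {T : ∀ P : Prd 1, W.coh (EQ.pw X P) → W.coh (EQ.pw X P)}
    (hT : SemF W (c.host hW hX hξ).X s T) (v : Sub c.D (0, 1) → ℂ) :
    (T (.leaf 0) (cl1 c hW hX hξ v) : W.coh X) = cl1 c hW hX hξ
      (sV (mx c hW hX hξ T, s) v) :=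
  sem_cls (c.host hW hX hξ) hT v

theorem presJ {j : ℕ} (P : Prd 1) (hP : P.size = 2 * j) : ∀ x ∈ symJ c hW hX hξ j,
    IsUnit x.1.det ∧ (∀ u ∈ OL.CA (At1 (c.host hW hX hξ)) 2, sT x u ∈
      OL.CA (At1 (c.host hW hX hξ)) 2) ∧ ∀ u ∈ OL.CA (At1 (c.host hW hX hξ)) P.size,
        sT x u ∈ OL.CA (At1 (c.host hW hX hξ)) P.size := by
  rintro ⟨x, s⟩ ⟨T, hT, hx⟩
  obtain rfl : x = mx c hW hX hξ T := hx
  have hT : EQ.SemAt W X j s T := hT
  refine ⟨?_, fun u hu => ?_, fun u hu => pres_at c hW hX hξ hT P (Or.inr rfl) hP u hu⟩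
  · rw [← Matrix.isUnit_iff_isUnit_det, ← Matrix.mulVec_injective_iff_isUnit]
    intro v w hvw
    have h1 : (mx c hW hX hξ T).mulVec (v - w) = 0 := by
      rw [Matrix.mulVec_sub, sub_eq_zero]
      exact hvw
    have e : (fun i => s ((fun i => s.symm ((v - w) i)) i)) = v - w := by
      funext i
      exact s.apply_symm_apply _
    have h2 : (T (.leaf 0) (cl1 c hW hX hξ fun i => s.symm ((v - w) i)) : W.coh X) = 0 := by
      rw [sym_cl c hW hX hξ (semF_of c hW hX hξ hT)]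
      show cl1 c hW hX hξ ((mx c hW hX hξ T).mulVec
        (fun i => s ((fun i => s.symm ((v - w) i)) i))) = 0
      rw [e, h1, map_zero]
    have h3 := hT.inj _ (gr0 c hW hX hξ _) h2
    have h4 : (fun i => s.symm ((v - w) i)) = 0 := inj0 c hW hX hξ (by rw [map_zero]; exact h3)
    rw [h4] at e
    have h5 : v - w = 0 := by
      rw [← e]
      funext i
      exact map_zero s
    exact sub_eq_zero.1 h5
  · exact pres_at c hW hX hξ hT (.prod (.leaf 0) (.leaf 0)) (l := 1) (Or.inl rfl) rfl u hu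

/-- a stable subspace of the coordinate space gives one of `H^1(X)` -/
theorem stab_of {j : ℕ} {U : Submodule ℂ (Sub c.D (0, 1) → ℂ)}
    (hU : StabS (subD c.D (0, 1)) (At1 (c.host hW hX hξ)) (symJ c hW hX hξ j) U) :
    EQ.StabAt W X g j (U.map (cl1 c hW hX hξ)) := by
  refine ⟨?_, fun z hz x hx =>
    stable_alg (H := c.host hW hX hξ) (d := 1) staB (ge _) (at_ _) hz hU.1 x hx, ?_⟩
  · rintro _ ⟨v, -, rfl⟩
    exact cls_gr (H := c.host hW hX hξ) v
  · rintro s T hT _ ⟨v, hv, rfl⟩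
    rw [sym_cl c hW hX hξ (semF_of c hW hX hξ hT) v]
    exact ⟨_, hU.2 _ ⟨T, hT, rfl⟩ v hv, rfl⟩

/-- the form in the coordinates -/
theorem pair_zero (hdiv : PositiveDivisor W X g ξ) (hg : 0 < g) (v w : Sub c.D (lt 1) → ℂ) :
    W.Tr (W.cup (ξ ^ (g - 1)) (W.cup (cl1 c hW hX hξ v) (cl1 c hW hX hξ w))) = 0 ↔
      dotProduct v ((Psi (subD c.D (lt 1))).mulVec w) = 0 := by
  have h2 : ((g - 1).factorial : ℂ)⁻¹ ≠ 0 :=
    inv_ne_zero (Nat.cast_ne_zero.2 (Nat.factorial_ne_zero _))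
  have h1 : dotProduct v ((Psi (subD c.D (lt 1))).mulVec w) =
      ((g - 1).factorial : ℂ)⁻¹ * -W.tr X (ξ ^ (g - 1) *
        (cl1 c hW hX hξ v * cl1 c hW hX hξ w)) := by
    rw [← psi_cl1 c hW hX hξ]
    exact psi_one hW hX hdiv c.lam hg (cl1 c hW hX hξ v) (w := cl1 c hW hX hξ w)
      (cls_gr (H := c.host hW hX hξ) w)
  rw [h1]
  constructor
  · intro h3
    have h4 : W.tr X (ξ ^ (g - 1) * (cl1 c hW hX hξ v * cl1 c hW hX hξ w)) = 0 := h3
    rw [h4, neg_zero, mul_zero]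
  · intro h3
    exact neg_eq_zero.1 ((mul_eq_zero.1 h3).resolve_left h2)

/-- the balancing operators in the coordinates -/
theorem balS_of (hdiv : PositiveDivisor W X g ξ) {j : ℕ} (P : Prd 1) (hP : P.size = 2 * j)
    (bal : ∀ U, EQ.StabAt W X g j U → EQ.Isot W X g ξ U → EQ.BalOn W X g ξ j U) :
    BalS (subD c.D (0, 1)) (At1 (c.host hW hX hξ)) (symJ c hW hX hξ j) P.size := by
  intro U hU hiso
  have hinj := inj0 c hW hX hξ
  have hgr : ∀ v, cl1 c hW hX hξ v ∈ W.gr X 1 := gr0 c hW hX hξ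
  rcases Nat.eq_zero_or_pos g with hg | hg
  · -- there is nothing in degree one
    have hz : ∀ v : Sub c.D (0, 1) → ℂ, v = 0 := fun v => by
      have h1 : cl1 c hW hX hξ v = 0 := hW.top_gr hX (hgr v) (by omega)
      exact hinj (by rw [h1, map_zero])
    refine ⟨1, ⟨fun i j h => absurd (i.2.trans j.2.symm) h, by
      rw [Matrix.transpose_one, Matrix.one_mul, Matrix.mul_one]⟩, fun u _ => AL1B.gT_one u,
      fun u _ => AL1B.gT_one u, fun v _ => ?_, fun v _ => ?_⟩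
    · rw [hz v, Matrix.mulVec_zero, smul_zero]
    · rw [hz (Matrix.mulVec 1 v - v)]
      exact Submodule.zero_mem _
  obtain ⟨M, hM, hM2, hM1⟩ := bal _ (stab_of c hW hX hξ hU)
    ((GeoC.isot_iff c hW hX hξ hdiv hg U).2 hiso)
  have hB : ∀ v, (M (.leaf 0) (cl1 c hW hX hξ v) : W.coh X) =
      cl1 c hW hX hξ ((mx c hW hX hξ M).mulVec v) := fun v =>
    sym_cl c hW hX hξ (semF_fix c hW hX hξ hM) v
  have hfix2 : ∀ u, At1 (c.host hW hX hξ) 2 u → gT (mx c hW hX hξ M) u = u :=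
    fun u hu => fix_at c hW hX hξ hM (.prod (.leaf 0) (.leaf 0)) (l := 1) (Or.inl rfl) rfl u hu
  refine ⟨mx c hW hX hξ M, ?_, hfix2, fun u hu => fix_at c hW hX hξ hM P (Or.inr rfl) hP u hu,
    fun v hv => hinj ?_, fun v hv => ?_⟩
  · exact SymM.isG_of_om (subD c.D (0, 1)) (fun i j h => absurd (i.2.trans j.2.symm) h)
      fun α => hfix2 _ ((asys c hW hX hξ).om α)
  · rw [← hB, map_smul]
    exact hM2 _ ⟨v, hv, rfl⟩
  · have h1 : EQ.sub1 (X := X) M (cl1 c hW hX hξ v) ∈ U.map (cl1 c hW hX hξ) := by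
      refine hM1 _ (hgr v) ?_
      rintro _ ⟨w, hw, rfl⟩
      exact (pair_zero c hW hX hξ hdiv hg w v).2 (hv w hw)
    have h2 : EQ.sub1 (X := X) M (cl1 c hW hX hξ v) =
        cl1 c hW hX hξ ((mx c hW hX hξ M).mulVec v - v) := by
      rw [map_sub, ← hB]
      rfl
    rw [h2] at h1
    obtain ⟨w, hw, e⟩ := h1
    rwa [← hinj e]

/-- the form is not degenerate on the complex span of the algebraic tensors of length `2 j` -/
theorem nd_balS (hdiv : PositiveDivisor W X g ξ) {j : ℕ} (P : Prd 1) (hP : P.size = 2 * j)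
    (bal : ∀ U, EQ.StabAt W X g j U → EQ.Isot W X g ξ U → EQ.BalOn W X g ξ j U)
    (u : Ten (Sub c.D (0, 1)) P.size)
    (hu : u ∈ Submodule.span ℂ {u | At1 (c.host hW hX hξ) P.size u})
    (h0 : u ≠ 0) : ∃ v ∈ Submodule.span ℂ {u | At1 (c.host hW hX hξ) P.size u},
      psiT (subD c.D (0, 1)) u v ≠ 0 := by
  refine ndS (subD c.D (0, 1)) (At1 (c.host hW hX hξ)) (symJ c hW hX hξ j) (asys c hW hX hξ) ?_
    (fun i j => i.2.trans j.2.symm) (presJ c hW hX hξ P hP) (balS_of c hW hX hξ hdiv P hP bal)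
    u hu h0
  intro i
  show c.D.odd (c.D.typ i.1)
  rw [i.2]
  exact Hst.odd_one (c.host hW hX hξ) 0

end core

end BalS0

/-- Numerical and homological equivalence agree in codimension `j` on all powers of `X`, with
complex coefficients, if every isotropic stable subspace of `H^1(X)` is balanced. -/
theorem numHom_balS {k : Type u} [Field k] {W : CohomologyData.{u, 0, w} k ℂ}
    {𝒱 : VarietyClass k} (hW : IsWeilCohomology W 𝒱) {X : Sch k} {g : ℕ} (hX : 𝒱.mem X g)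
    (h0 : ∀ x, W.Deg X 0 x → ∃ c, x = W.scal c 1) (hU : EQ.Unital X) {ξ : W.coh X}
    (hdiv : PositiveDivisor W X g ξ) (j : ℕ)
    (bal : ∀ U, EQ.StabAt W X g j U → EQ.Isot W X g ξ U → EQ.BalOn W X g ξ j U) (P : Prd 1) :
    EQ.NumHomAt W (EQ.pw X P) j := by
  obtain ⟨h1, h2, -⟩ := unital hW hX h0 hU hdiv
  obtain ⟨c⟩ := Hst.exists_core hW hX hdiv.1 h1 h2
  have hAb : AbelianType W X g := abelianType_of_unital hW hX h0 hU hdiv
  intro x hx hnum
  refine EndM.num_of_nd (c.host hW hX hdiv.1) (fun _ => hAb)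
    (Z := fun P => {z | z ∈ W.alg (P.obj (c.host hW hX hdiv.1).X) j})
    (fun P z hz => alg_le_tot hW _ j hz) (BalS0.push_alg (c.host hW hX hdiv.1) j) ?_ P hx
    (Bal0.num_tot hW hnum)
  intro P u hu hu0
  by_cases hP : P.size = 2 * j
  · have hu' : u ∈ Submodule.span ℂ {u | At1 (c.host hW hX hdiv.1) P.size u} := by
      refine Submodule.span_mono ?_ hu
      rintro _ ⟨z, hz, rfl⟩
      exact BalS0.cut_mem (c.host hW hX hdiv.1) hz
    obtain ⟨v, hv, hne⟩ := BalS0.nd_balS c hW hX hdiv.1 hdiv P hP bal u hu' hu0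
    exact Bal0.exists_gen hv hne
  · exfalso
    apply hu0
    have h3 : ((fun z : W.coh (P.obj (c.host hW hX hdiv.1).X) =>
        EndM.cut1 (c.host hW hX hdiv.1) ((c.host hW hX hdiv.1).tc P z)) ''
          {z | z ∈ W.alg (P.obj (c.host hW hX hdiv.1).X) j}) ⊆ {0} := by
      rintro _ ⟨z, hz, rfl⟩
      exact BalS0.cut_zero (c.host hW hX hdiv.1) hP hz
    have h4 := Submodule.span_mono (R := ℂ) h3 hu
    rwa [Submodule.span_singleton_eq_bot.2 rfl, Submodule.mem_bot] at h4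

end Pool.Agent.Lib.MP_361a6f_ag.FL.E
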