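import Pool.Agent.Lib.MP_361a6f_ag.FL.EMC.NdC

/-!
# Nondegeneracy in one length, for the subspaces stable under the stabiliser of two lengths

As `FL/BAL/NdJ.lean`, but the stable subspaces are those which are mapped to themselves by the
endomorphisms and by the elements of the set `Γ`, and the elements of `Γ` need only fix the members
of length `2` and `m`. (So `Γ` may be the group that contains the balancing operators.)
-/

open Matrix

set_option autoImplicit false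
set_option linter.unusedSectionVars false

namespace Pool.Agent.Lib.MP_361a6f_ag.FL.E

/-- `U` is mapped to itself by the endomorphisms and by the elements of `Γ` -/
def StabG {I Λ : Type} [Fintype I] [DecidableEq I] (D : Dat I Λ)
    (At : (L : ℕ) → Ten I L → Prop) (Γ : Set (Matrix I I ℂ)) (U : Submodule ℂ (I → ℂ)) : Prop :=
  (∀ z, At 2 z → ∀ v ∈ U, (opM D z).mulVec v ∈ U) ∧ ∀ x ∈ Γ, ∀ v ∈ U, x.mulVec v ∈ U

/-- a minimal nonzero subspace with `StabG` -/
def MinG {I Λ : Type} [Fintype I] [DecidableEq I] (D : Dat I Λ)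
    (At : (L : ℕ) → Ten I L → Prop) (Γ : Set (Matrix I I ℂ)) (U : Submodule ℂ (I → ℂ)) : Prop :=
  U ≠ ⊥ ∧ StabG D At Γ U ∧
    ∀ W : Submodule ℂ (I → ℂ), W ≤ U → W ≠ ⊥ → StabG D At Γ W → W = U

/-- every isotropic minimal stable subspace is the space of the `v` with `M v = 2 v`, for an element
`M` of the group with the eigenvalues `1`, `2`, `1/2` that fixes the members of length `2` and `m`
and is in the span of the endomorphisms -/
def BalG {I Λ : Type} [Fintype I] [DecidableEq I] (D : Dat I Λ)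
    (At : (L : ℕ) → Ten I L → Prop) (Γ : Set (Matrix I I ℂ)) (m : ℕ) : Prop :=
  ∀ U : Submodule ℂ (I → ℂ), MinG D At Γ U → Isot (Psi D) U →
    ∃ M ∈ endS D At, IsG D M ∧ (∀ u, At 2 u → gT M u = u) ∧ (∀ u, At m u → gT M u = u) ∧
      (M - 1) * (M - 2) * (2 * M - 1) = 0 ∧ ∀ v, v ∈ U ↔ M.mulVec v = (2 : ℂ) • v

end Pool.Agent.Lib.MP_361a6f_ag.FL.E

namespace Pool.Agent.Lib.MP_361a6f_ag.FL.E.NdG

open Pool.Agent.Lib.MP_54168f_ag (Tens ev Feas eq_zero_of_ev full_zero exists_feasible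
  exists_optimal)
open Nd NdZ
open NdC (num p2 m2 sub_one dag_add dag_p2 dag_m2 one_mem p2_mem m2_mem exists_y up_endS up_gam
  perp_le perp_perp V0 mem_V0 gT_simple prod_two e0 dag_e0 Lb)
open OL (CA)
open AL1A (gT_mul gT_add gT_smul)
open AL1B (gT_one)

variable {I Λ : Type} [Fintype I] [DecidableEq I] [DecidableEq Λ] {D : Dat I Λ}
  {At : (L : ℕ) → Ten I L → Prop} {Γ : Set (Matrix I I ℂ)}

/-- the symmetries of `BalJ` -/
structure GG (D : Dat I Λ) (At : (L : ℕ) → Ten I L → Prop) (Γ : Set (Matrix I I ℂ)) (m : ℕ)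
    (M : Matrix I I ℂ) : Prop where
  mem : M ∈ endS D At
  grp : IsG D M
  fix2 : ∀ u, At 2 u → gT M u = u
  fixn : ∀ u, At m u → gT M u = u
  cub : (M - 1) * (M - 2) * (2 * M - 1) = 0
  min : ∃ U, MinG D At Γ U ∧ ∀ v, v ∈ U ↔ M.mulVec v = (2 : ℂ) • v

/-- an element of the group that fixes the members of length two commutes with the
endomorphisms -/
theorem comm_two (ho : ∀ i, D.odd (D.typ i)) {x : Matrix I I ℂ} (hx : IsG D x)
    (hfix : ∀ u, At 2 u → gT x u = u) (z : Ten I 2) (hz : At 2 z) :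
    x * opM D z = opM D z * x := by
  have h := QS.opM_gT ho alg1 hx z
  rw [hfix z hz] at h
  obtain ⟨-, -, h2⟩ := alg1.G_inv D x hx
  conv_rhs => rw [h, Matrix.mul_assoc, h2, Matrix.mul_one]

theorem fix_ca {x : Matrix I I ℂ} {n : ℕ} (hf : ∀ u, At n u → gT x u = u) {u : Ten I n}
    (hu : u ∈ CA At n) : gT x u = u := by
  unfold CA at hu
  induction hu using Submodule.span_induction with
  | mem u hu => exact hf _ hu
  | zero => funext w; simp [gT]
  | add a b _ _ ha hb => rw [gT_add, ha, hb]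
  | smul c a _ ha => rw [gT_smul, ha]

variable {m : ℕ} {M M' : Matrix I I ℂ}

theorem GG.r1 (h : GG D At Γ m M) : Nd.dag D M * M = 1 := dag_mul_self h.grp

theorem GG.r2 (h : GG D At Γ m M) : M * Nd.dag D M = 1 := mul_eq_one_comm.1 h.r1

theorem GG.sq (h : GG D At Γ m M) :
    M * M = (7 / 2 : ℂ) • M - (7 / 2 : ℂ) • 1 + Nd.dag D M := by
  obtain ⟨N, hN⟩ : ∃ N, N = Nd.dag D M := ⟨_, rfl⟩
  have h2 : M * N = 1 := hN ▸ h.r2
  have h0 : (M - 1) * (M - 2) * (2 * M - 1) * N = 0 := by rw [h.cub, Matrix.zero_mul]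
  have e : (M - 1) * (M - 2) * (2 * M - 1) * N =
      2 * (M * M * (M * N)) - 7 * (M * (M * N)) + 7 * (M * N) - 2 * N := by noncomm_ring
  rw [e, h2, Matrix.mul_one, Matrix.mul_one, num 2, num 7, Matrix.smul_mul, Matrix.one_mul,
    Matrix.smul_mul, Matrix.one_mul, Matrix.smul_mul, Matrix.one_mul, Matrix.smul_mul,
    Matrix.one_mul] at h0
  rw [← hN]
  have h3 : M * M = (1 / 2 : ℂ) • ((2 : ℂ) • (M * M) - (7 : ℂ) • M + (7 : ℂ) • 1 - (2 : ℂ) • N) +
      ((7 / 2 : ℂ) • M - (7 / 2 : ℂ) • 1 + N) := by module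
  rw [h0, smul_zero, zero_add] at h3
  exact h3

theorem GG.mp (h : GG D At Γ m M) : M * p2 D M = (2 : ℂ) • p2 D M := by
  rw [p2, Matrix.mul_sub, Matrix.mul_add, Matrix.mul_smul, Matrix.mul_smul, Matrix.mul_smul,
    Matrix.mul_one, h.r2, h.sq]
  module

theorem GG.mm (h : GG D At Γ m M) : M * m2 D M = (1 / 2 : ℂ) • m2 D M := by
  rw [m2, Matrix.mul_sub, Matrix.mul_add, Matrix.mul_smul, Matrix.mul_smul, Matrix.mul_smul,
    Matrix.mul_one, h.r2, h.sq]
  module

theorem GG.m1 (h : GG D At Γ m M) : M * (1 - p2 D M - m2 D M) = 1 - p2 D M - m2 D M := by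
  rw [Matrix.mul_sub, Matrix.mul_sub, h.mp, h.mm, Matrix.mul_one, p2, m2]
  module

/-- eigenvectors -/
theorem GG.dagv (h : GG D At Γ m M) {c c' : ℂ} (hc : c' * c = 1) {v : I → ℂ} (hv : M *ᵥ v = c • v) :
    Nd.dag D M *ᵥ v = c' • v := by
  have h1 : Nd.dag D M *ᵥ (M *ᵥ v) = v := by
    rw [Matrix.mulVec_mulVec, h.r1, Matrix.one_mulVec]
  rw [hv, Matrix.mulVec_smul] at h1
  calc Nd.dag D M *ᵥ v = (c' * c) • (Nd.dag D M *ᵥ v) := by rw [hc, one_smul]
    _ = c' • v := by rw [mul_smul, h1]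

theorem GG.p2v (h : GG D At Γ m M) {v : I → ℂ} (hv : M *ᵥ v = (2 : ℂ) • v) : p2 D M *ᵥ v = v := by
  rw [p2, Matrix.sub_mulVec, Matrix.add_mulVec, Matrix.smul_mulVec, Matrix.smul_mulVec,
    Matrix.smul_mulVec, Matrix.one_mulVec, hv, h.dagv (c' := 1 / 2) (by norm_num) hv]
  module

theorem GG.m2v (h : GG D At Γ m M) {v : I → ℂ} (hv : M *ᵥ v = (1 / 2 : ℂ) • v) :
    m2 D M *ᵥ v = v := by
  rw [m2, Matrix.sub_mulVec, Matrix.add_mulVec, Matrix.smul_mulVec, Matrix.smul_mulVec,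
    Matrix.smul_mulVec, Matrix.one_mulVec, hv, h.dagv (c' := 2) (by norm_num) hv]
  module

theorem GG.fv (h : GG D At Γ m M) {v : I → ℂ} (hv : M *ᵥ v = v) :
    p2 D M *ᵥ v = 0 ∧ m2 D M *ᵥ v = 0 := by
  have h1 : M *ᵥ v = (1 : ℂ) • v := by rw [hv, one_smul]
  rw [p2, m2, Matrix.sub_mulVec, Matrix.add_mulVec, Matrix.smul_mulVec, Matrix.smul_mulVec,
    Matrix.smul_mulVec, Matrix.one_mulVec, h.dagv (c' := 1) (by norm_num) h1, h1,
    Matrix.sub_mulVec, Matrix.add_mulVec, Matrix.smul_mulVec, Matrix.smul_mulVec,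
    Matrix.smul_mulVec, Matrix.one_mulVec, h.dagv (c' := 1) (by norm_num) h1, h1]
  constructor <;> module

/-- the symmetries commute with the span of the endomorphisms -/
theorem GG.comm (ho : ∀ i, D.odd (D.typ i)) (h : GG D At Γ m M) {N : Matrix I I ℂ}
    (hN : N ∈ endS D At) : M * N = N * M :=
  CenSq.comm_endS (comm_two ho h.grp h.fix2) hN

/-! ### Matrices preserving the spans in two lengths -/

/-- `g` is invertible and preserves the spans in the lengths `2` and `n` together with its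
adjoint -/
structure PresN (D : Dat I Λ) (At : (L : ℕ) → Ten I L → Prop) (n : ℕ) (g : Matrix I I ℂ) :
    Prop where
  unit : IsUnit g.det
  two : ∀ u ∈ CA At 2, gT g u ∈ CA At 2
  two' : ∀ u ∈ CA At 2, gT (Nd.dag D g) u ∈ CA At 2
  mem : ∀ u ∈ CA At n, gT g u ∈ CA At n
  mem' : ∀ u ∈ CA At n, gT (Nd.dag D g) u ∈ CA At n

theorem _root_.Pool.Agent.Lib.MP_361a6f_ag.FL.E.Nd.Pres.toN {g : Matrix I I ℂ}
    (h : Pres D At g) {n : ℕ} : PresN D At n g :=
  ⟨h.unit, h.mem 2, h.mem' 2, h.mem n, h.mem' n⟩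

theorem PresN.dag (ho : ∀ i, D.odd (D.typ i)) {n : ℕ} {g : Matrix I I ℂ}
    (h : PresN D At n g) : PresN D At n (Nd.dag D g) where
  unit := by
    unfold Nd.dag
    rw [Matrix.det_mul, Matrix.det_mul, Matrix.det_transpose, Matrix.det_transpose]
    have h1 := congrArg Matrix.det (PsiT_mul_Psi D)
    rw [Matrix.det_mul, Matrix.det_transpose, Matrix.det_one] at h1
    have h2 : (Psi D).det * g.det * (Psi D).det = g.det * ((Psi D).det * (Psi D).det) := by ring
    rw [h2, h1, mul_one]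
    exact h.unit
  two := h.two'
  two' := by rw [dag_dag ho]; exact h.two
  mem := h.mem'
  mem' := by rw [dag_dag ho]; exact h.mem

theorem PresN.kr (ho : ∀ i, D.odd (D.typ i)) {n : ℕ} {g : Matrix I I ℂ} (h : PresN D At n g)
    {u : Ten I n} (hu : u ∈ Kr D At n) : gT g u ∈ Kr D At n :=
  ⟨h.mem u hu.1, fun v hv => by rw [psi_gT ho]; exact hu.2 _ (h.mem' v hv)⟩

/-- an injective operator that preserves the span is bijective on it -/
theorem inv_mem {n : ℕ} {g : Matrix I I ℂ} (hmem : ∀ u ∈ CA At n, gT g u ∈ CA At n)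
    {N : Matrix I I ℂ} (hN : N * g = 1) {u : Ten I n} (hu : u ∈ CA At n) : gT N u ∈ CA At n := by
  let f : CA At n →ₗ[ℂ] CA At n :=
    { toFun := fun u => ⟨gT g u.1, hmem _ u.2⟩
      map_add' := fun a b => Subtype.ext (gT_add g a.1 b.1)
      map_smul' := fun c a => Subtype.ext (gT_smul g c a.1) }
  have hf : Function.Injective f := by
    intro a b hab
    have h1 : gT g a.1 = gT g b.1 := congrArg Subtype.val hab
    have h2 := congrArg (gT N) h1
    rw [← gT_mul, ← gT_mul, hN, gT_one, gT_one] at h2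
    exact Subtype.ext h2
  obtain ⟨v, hv⟩ := (LinearMap.injective_iff_surjective.1 hf) ⟨u, hu⟩
  have h1 : gT g v.1 = u := congrArg Subtype.val hv
  rw [← h1, ← gT_mul, hN, gT_one]
  exact v.2

/-- the optimal filtration is preserved by everything that preserves the spans in the lengths `2`
and `n` -/
theorem exists_optN (S : ASys D At) (ho : ∀ i, D.odd (D.typ i)) (n : ℕ) :
    ∃ (p q : Matrix I I ℂ) (wt : I → ℝ),
      Feas ((Kr D At n : Submodule ℂ (Ten I n)) : Set (Ten I n)) (CC D At) p q wt ∧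
      ∀ g, PresN D At n g → ∀ x y, (q * g.transpose * p) x y ≠ 0 → wt x ≤ wt y := by
  classical
  obtain ⟨L0, _, _, p0, q0, w0, hF0⟩ := exists_feasible
    ((Kr D At n : Submodule ℂ (Ten I n)) : Set (Ten I n)) (CC D At)
    fun m l hm τ hτ cc hcc e => full_zero (cl_A S ho)
      (fun n u hu => hu.1) (fun u hu => kr_zero S u hu) n m l hm τ hτ cc hcc e
  obtain ⟨p1, q1, hF1⟩ := hF0.descend (Ω := ℂ)
  obtain ⟨p, q, wt, hF, hopt⟩ := exists_optimal (L := ℂ) ⟨p1, q1, w0, hF1⟩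
  have hid : ∀ M : Matrix I I ℂ, M.map (algebraMap ℂ ℂ) = M := fun M => by
    ext i j; rfl
  refine ⟨p, q, wt, hF, fun g hg => ?_⟩
  have hu : IsUnit g.transpose.det := by rw [Matrix.det_transpose]; exact hg.unit
  have h1 := hopt g.transpose g.transpose⁻¹ (Matrix.mul_nonsing_inv _ hu) ?_ ?_
  · intro x y hxy
    refine h1 x y ?_
    rw [hid]
    exact hxy
  · intro t ht
    refine Submodule.subset_span ?_
    change gT g t ∈ Kr D At n
    exact hg.kr ho ht
  · rintro c ⟨t, ht, rfl⟩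
    refine Submodule.subset_span ?_
    set N : Matrix I I ℂ := g⁻¹ with hN
    have hNg : g.transpose⁻¹ = N.transpose := by rw [hN, Matrix.transpose_nonsing_inv]
    have h2 : Nd.dag D N * Nd.dag D g = 1 := by
      rw [← dag_mul ho, hN, Matrix.mul_nonsing_inv _ hg.unit, dag_one ho]
    refine ⟨gT (Nd.dag D N) t, inv_mem (hg.dag ho).two h2 ht, ?_⟩
    rw [tm_gT]
    have h3 : (Psi D).transpose * (Nd.dag D N * tm t * (Nd.dag D N).transpose) * Psi D =
        N.transpose * ((Psi D).transpose * tm t * Psi D) * N := by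
      have h4 : (Psi D).transpose * Nd.dag D N = N.transpose * (Psi D).transpose := by
        have h5 := congrArg Matrix.transpose (Psi_mul_eq ho N)
        rw [Matrix.transpose_mul, Matrix.transpose_mul, Matrix.transpose_transpose] at h5
        exact h5.symm
      calc (Psi D).transpose * (Nd.dag D N * tm t * (Nd.dag D N).transpose) * Psi D
          = ((Psi D).transpose * Nd.dag D N) * tm t * ((Nd.dag D N).transpose * Psi D) := by
            noncomm_ring
        _ = _ := by rw [h4, ← Psi_mul_eq ho]; noncomm_ring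
    rw [h3]
    funext x y
    rw [hNg, Matrix.mul_apply]
    rw [Finset.sum_comm]
    refine Finset.sum_congr rfl fun y' _ => ?_
    rw [Matrix.mul_apply, Finset.sum_mul]
    refine Finset.sum_congr rfl fun x' _ => ?_
    rw [Matrix.transpose_apply, Matrix.transpose_apply]
    ring

/-- an element of the group that fixes the members of the lengths `2` and `n` -/
theorem presN_of_fix {n : ℕ} {x : Matrix I I ℂ} (hx : IsG D x)
    (hf2 : ∀ u, At 2 u → gT x u = u) (hfn : ∀ u, At n u → gT x u = u) : PresN D At n x := by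
  have key : ∀ m : ℕ, (∀ u, At m u → gT x u = u) → ∀ u ∈ CA At m, gT (Nd.dag D x) u ∈ CA At m := by
    intro m hf u hu
    have h1 : gT (Nd.dag D x) u = u := by
      conv_lhs => rw [← fix_ca hf hu]
      rw [← gT_mul, dag_mul_self hx, gT_one]
    rw [h1]
    exact hu
  refine ⟨?_, fun u hu => ?_, key 2 hf2, fun u hu => ?_, key n hfn⟩
  · have h := congrArg Matrix.det (dag_mul_self hx)
    rw [Matrix.det_mul, Matrix.det_one] at h
    exact IsUnit.of_mul_eq_one _ (by rw [mul_comm]; exact h)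
  · rw [fix_ca hf2 hu]
    exact hu
  · rw [fix_ca hfn hu]
    exact hu

theorem up_gamN {p q : Matrix I I ℂ} {wt : I → ℝ} (ho : ∀ i, D.odd (D.typ i)) (hpq : p * q = 1)
    {n : ℕ} (hstN : ∀ g, PresN D At n g → ∀ x y, (q * g.transpose * p) x y ≠ 0 → wt x ≤ wt y)
    {P : ℝ → Prop} (hP : ∀ a b, a ≤ b → P a → P b) {x : Matrix I I ℂ} (hx : IsG D x)
    (hf2 : ∀ u, At 2 u → gT x u = u) (hfn : ∀ u, At n u → gT x u = u) {v : I → ℂ}
    (hv : v ∈ Up D q wt P) : x *ᵥ v ∈ Up D q wt P :=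
  Up_stable ho hpq (hstN _ ((presN_of_fix hx hf2 hfn).dag ho)) hP hv

/-- a stable subspace -/
theorem stabG_of {U : Submodule ℂ (I → ℂ)} (h1 : ∀ N ∈ endS D At, ∀ v ∈ U, N *ᵥ v ∈ U)
    (h2 : ∀ x ∈ Γ, ∀ v ∈ U, x *ᵥ v ∈ U) : StabG D At Γ U :=
  ⟨fun z hz v hv => h1 _ (Submodule.subset_span ⟨z, hz, rfl⟩) v hv, h2⟩

theorem exists_minG (D : Dat I Λ) (At : (L : ℕ) → Ten I L → Prop) (Γ : Set (Matrix I I ℂ)) :
    ∀ (n : ℕ) {U : Submodule ℂ (I → ℂ)}, Module.finrank ℂ U ≤ n → StabG D At Γ U → U ≠ ⊥ →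
      ∃ M, M ≤ U ∧ MinG D At Γ M := by
  intro n
  induction n with
  | zero =>
    intro U hn _ h0
    exact absurd (Submodule.finrank_eq_zero.1 (Nat.le_zero.1 hn)) h0
  | succ n ih =>
    intro U hn hU h0
    by_cases hm : ∃ W, W ≤ U ∧ StabG D At Γ W ∧ W ≠ ⊥ ∧ W ≠ U
    · obtain ⟨W, hW1, hW2, hW3, hW4⟩ := hm
      have h1 := Submodule.finrank_lt_finrank_of_lt (lt_of_le_of_ne hW1 hW4)
      obtain ⟨M, hM1, hM2⟩ := ih (by omega) hW2 hW3
      exact ⟨M, hM1.trans hW1, hM2⟩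
    · refine ⟨U, le_rfl, h0, hU, fun W hW1 hW2 hW3 => ?_⟩
      by_contra hW4
      exact hm ⟨W, hW1, hW3, hW2, hW4⟩

/-! ### The filtration -/

section filt

variable {p q : Matrix I I ℂ} {wt : I → ℝ}

/-- **The two jumps.** -/
theorem jumps (S : ASys D At) (ho : ∀ i, D.odd (D.typ i)) (he : ∀ i j, D.typ i = D.typ j)
    (grp : ∀ x ∈ Γ, IsG D x) (gf2 : ∀ x ∈ Γ, ∀ u, At 2 u → gT x u = u) {n : ℕ}
    (gfn : ∀ x ∈ Γ, ∀ u, At n u → gT x u = u)
    (hF : Feas ((Kr D At n : Submodule ℂ (Ten I n)) : Set (Ten I n)) (CC D At) p q wt)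
    (hstN : ∀ g, PresN D At n g → ∀ x y, (q * g.transpose * p) x y ≠ 0 → wt x ≤ wt y)
    (h : GG D At Γ m M) :
    ∃ α β : ℝ, α + β ≤ -1 ∧ (∀ v, M *ᵥ v = (2 : ℂ) • v → v ∈ Up D q wt (fun r => α < r)) ∧
      ∀ v, M *ᵥ v = (1 / 2 : ℂ) • v → v ∈ Up D q wt (fun r => β < r) := by
  classical
  have hpq := hF.pq
  have hst : ∀ g, Pres D At g → ∀ x y, (q * g.transpose * p) x y ≠ 0 → wt x ≤ wt y :=
    fun g hg => hstN g hg.toN
  obtain ⟨U, hU, hUM⟩ := h.min
  have hinj : ∀ v : I → ℂ, v ≠ 0 → ∃ x, (q *ᵥ (Psi D *ᵥ v)) x ≠ 0 := by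
    intro v hv
    by_contra hc
    push Not at hc
    apply hv
    have h1 : q *ᵥ (Psi D *ᵥ v) = 0 := funext hc
    have h2 : Psi D *ᵥ v = 0 := by
      have h3 : p *ᵥ (q *ᵥ (Psi D *ᵥ v)) = 0 := by rw [h1, Matrix.mulVec_zero]
      rwa [Matrix.mulVec_mulVec, hpq, Matrix.one_mulVec] at h3
    have h4 : Psi D *ᵥ (Psi D *ᵥ v) = 0 := by rw [h2, Matrix.mulVec_zero]
    rwa [Matrix.mulVec_mulVec, Psi_mul_Psi ho, Matrix.neg_mulVec, Matrix.one_mulVec,
      neg_eq_zero] at h4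
  obtain ⟨v0, hv0, hv00⟩ := Submodule.exists_mem_ne_zero_of_ne_bot hU.1
  obtain ⟨x0, hx0⟩ := hinj v0 hv00
  obtain ⟨x2, hx2, hmax2⟩ := Finset.exists_max_image
    (Finset.univ.filter fun x => ∃ v, M *ᵥ v = (2 : ℂ) • v ∧ (q *ᵥ (Psi D *ᵥ v)) x ≠ 0) wt
    ⟨x0, Finset.mem_filter.2 ⟨Finset.mem_univ _, v0, (hUM v0).1 hv0, hx0⟩⟩
  obtain ⟨v2, hv2, hv2x⟩ := (Finset.mem_filter.1 hx2).2
  have hα : ∀ v, M *ᵥ v = (2 : ℂ) • v → v ∈ Up D q wt (fun r => wt x2 < r) := by
    intro v hv x hx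
    by_contra hc
    exact absurd (hmax2 x (Finset.mem_filter.2 ⟨Finset.mem_univ _, v, hv, hc⟩)) (not_le.2 hx)
  by_cases hne : (Finset.univ.filter fun x => ∃ v, M *ᵥ v = (1 / 2 : ℂ) • v ∧
      (q *ᵥ (Psi D *ᵥ v)) x ≠ 0).Nonempty
  · obtain ⟨x', hx', hmax'⟩ := Finset.exists_max_image _ wt hne
    obtain ⟨v', hv', hv'x⟩ := (Finset.mem_filter.1 hx').2
    refine ⟨wt x2, wt x', ?_, hα, fun v hv x hx => ?_⟩
    · obtain ⟨y, u, hxy, hu, huU⟩ := exists_y S ho he hF hv'x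
      by_contra hcon
      have hlt : ¬ wt x2 ≤ wt y := by
        intro hle
        apply hcon
        linarith
      have hP : ∀ a b : ℝ, a ≤ b → wt x2 ≤ a → wt x2 ≤ b := fun a b hab ha => ha.trans hab
      have h1 := huU (fun r => wt x2 ≤ r) hlt
      -- the projection of `u` on `ker (M - 2)`
      have h2 : p2 D M *ᵥ u ∈ Up D q wt (fun r => wt x2 ≤ r) :=
        up_endS S ho he hpq hst hP (p2_mem S ho he h.mem) h1
      have h3 : p2 D M *ᵥ u ∈ U := by
        rw [hUM, Matrix.mulVec_mulVec, h.mp, Matrix.smul_mulVec]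
      have hs : StabG D At Γ (U ⊓ Up D q wt (fun r => wt x2 ≤ r)) := by
        refine stabG_of (fun N hN v hv => ⟨?_, up_endS S ho he hpq hst hP hN hv.2⟩)
          fun x hx v hv => ⟨?_, up_gamN ho hpq hstN hP (grp x hx) (gf2 x hx) (gfn x hx) hv.2⟩
        · refine (hUM _).2 ?_
          rw [Matrix.mulVec_mulVec, h.comm ho hN, ← Matrix.mulVec_mulVec,
            (hUM v).1 hv.1, Matrix.mulVec_smul]
        · refine (hUM _).2 ?_
          rw [Matrix.mulVec_mulVec,
            ← CenSq.comm_endS (comm_two ho (grp x hx) (gf2 x hx)) h.mem,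
            ← Matrix.mulVec_mulVec, (hUM v).1 hv.1, Matrix.mulVec_smul]
      have h4 : U ⊓ Up D q wt (fun r => wt x2 ≤ r) = ⊥ := by
        by_contra h5
        have h6 := hU.2.2 _ inf_le_left h5 hs
        have h7 : v2 ∈ U ⊓ Up D q wt (fun r => wt x2 ≤ r) := by
          rw [h6, hUM]
          exact hv2
        exact hv2x (h7.2 x2 le_rfl)
      have h5 : p2 D M *ᵥ u = 0 := by
        have h6 : p2 D M *ᵥ u ∈ U ⊓ Up D q wt (fun r => wt x2 ≤ r) := ⟨h3, h2⟩
        rwa [h4, Submodule.mem_bot] at h6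
      apply hu
      have h7 : Psi D *ᵥ (p2 D M *ᵥ u) = (m2 D M).transpose *ᵥ (Psi D *ᵥ u) := by
        rw [Matrix.mulVec_mulVec, Psi_mul_eq ho, dag_p2 ho, ← Matrix.mulVec_mulVec]
      rw [← h.m2v hv', Matrix.dotProduct_mulVec, ← Matrix.mulVec_transpose, ← h7, h5,
        Matrix.mulVec_zero, zero_dotProduct]
    · by_contra hc
      exact absurd (hmax' x (Finset.mem_filter.2 ⟨Finset.mem_univ _, v, hv, hc⟩)) (not_le.2 hx)
  · refine ⟨wt x2, -1 - wt x2, by linarith, hα, fun v hv x hx => ?_⟩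
    by_contra hc
    exact hne ⟨x, Finset.mem_filter.2 ⟨Finset.mem_univ _, v, hv, hc⟩⟩

end filt

/-! ### Families of symmetries -/

/-- pairwise orthogonal symmetries -/
structure FamG (D : Dat I Λ) (At : (L : ℕ) → Ten I L → Prop) (Γ : Set (Matrix I I ℂ)) (m : ℕ)
    (F : Finset (Matrix I I ℂ)) : Prop where
  gm : ∀ M ∈ F, GG D At Γ m M
  orth : ∀ M ∈ F, ∀ N ∈ F, M ≠ N → (M - 1) * (N - 1) = 0

/-- the two projectors of a symmetry `N` are killed by `M - 1` if the first one is -/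
theorem orth_of (ho : ∀ i, D.odd (D.typ i)) {M N : Matrix I I ℂ} (hM : GG D At Γ m M)
    (hN : GG D At Γ m N) (h : (M - 1) * p2 D N = 0) : (M - 1) * (N - 1) = 0 := by
  have h1 : m2 D N * (Nd.dag D M - 1) = 0 := by
    have h2 := congrArg (Nd.dag D) h
    rw [dag_mul ho, dag_p2 ho, dag_sub, dag_one ho] at h2
    rw [h2]
    unfold Nd.dag
    simp
  have h2 : m2 D N * (1 - M) = 0 := by
    calc m2 D N * (1 - M) = m2 D N * (Nd.dag D M - 1) * M := by
          rw [Matrix.mul_assoc, Matrix.sub_mul, hM.r1, Matrix.one_mul]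
      _ = 0 := by rw [h1, Matrix.zero_mul]
  have h3 : M * m2 D N = m2 D N * M := by
    have h4 : M * N = N * M := hM.comm ho hN.mem
    have h5 : M * Nd.dag D N = Nd.dag D N * M := by
      calc M * Nd.dag D N = Nd.dag D N * N * (M * Nd.dag D N) := by
            rw [hN.r1, Matrix.one_mul]
        _ = Nd.dag D N * (N * M) * Nd.dag D N := by noncomm_ring
        _ = Nd.dag D N * (M * N) * Nd.dag D N := by rw [h4]
        _ = Nd.dag D N * M * (N * Nd.dag D N) := by noncomm_ring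
        _ = Nd.dag D N * M := by rw [hN.r2, Matrix.mul_one]
    rw [m2, Matrix.mul_sub, Matrix.mul_add, Matrix.sub_mul, Matrix.add_mul]
    simp only [Matrix.mul_smul, Matrix.smul_mul, h4, h5, Matrix.mul_one, Matrix.one_mul]
  have h4 : (M - 1) * m2 D N = 0 := by
    rw [Matrix.sub_mul, h3, Matrix.one_mul]
    rw [Matrix.mul_sub, Matrix.mul_one, sub_eq_zero] at h2
    rw [← h2, sub_self]
  rw [sub_one (D := D) N, Matrix.mul_sub, h, Matrix.mul_smul, h4, smul_zero, sub_zero]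

theorem span_lb (S : ASys D At) (ho : ∀ i, D.odd (D.typ i)) (he : ∀ i j, D.typ i = D.typ j)
    (F : Finset (Matrix I I ℂ)) (hF : ∀ M ∈ F, GG D At Γ m M) :
    (⊤ : Submodule ℂ (I → ℂ)) ≤ Submodule.span ℂ {v | Lb F v} := by
  classical
  induction F using Finset.induction_on with
  | empty =>
    intro v _
    exact Submodule.subset_span fun M hM => absurd hM (Finset.notMem_empty M)
  | insert M F hMF ih =>
    have ih' := ih fun N hN => hF N (Finset.mem_insert_of_mem hN)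
    have hM := hF M (Finset.mem_insert_self M F)
    refine ih'.trans (Submodule.span_le.2 ?_)
    intro v hv
    have key : ∀ A ∈ endS D At, (∀ w, M *ᵥ (A *ᵥ w) = A *ᵥ w ∨ M *ᵥ (A *ᵥ w) = (2 : ℂ) • (A *ᵥ w) ∨
        M *ᵥ (A *ᵥ w) = (1 / 2 : ℂ) • (A *ᵥ w)) → A *ᵥ v ∈ {v | Lb (insert M F) v} := by
      intro A hA h1 N hN
      rcases Finset.mem_insert.1 hN with rfl | hN'
      · exact h1 v
      · have h2 : N *ᵥ (A *ᵥ v) = A *ᵥ (N *ᵥ v) := by
          rw [Matrix.mulVec_mulVec, (hF N hN).comm ho hA, ← Matrix.mulVec_mulVec]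
        rw [h2]
        rcases hv N hN' with h | h | h
        · exact Or.inl (by rw [h])
        · exact Or.inr (Or.inl (by rw [h, Matrix.mulVec_smul]))
        · exact Or.inr (Or.inr (by rw [h, Matrix.mulVec_smul]))
    have e : v = p2 D M *ᵥ v + m2 D M *ᵥ v + (1 - p2 D M - m2 D M) *ᵥ v := by
      rw [← Matrix.add_mulVec, ← Matrix.add_mulVec]
      have : p2 D M + m2 D M + (1 - p2 D M - m2 D M) = 1 := by abel
      rw [this, Matrix.one_mulVec]
    rw [SetLike.mem_coe, e]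
    refine add_mem (add_mem (Submodule.subset_span (key _ (p2_mem S ho he hM.mem) fun w => ?_))
      (Submodule.subset_span (key _ (m2_mem S ho he hM.mem) fun w => ?_)))
      (Submodule.subset_span (key _ (sub_mem (sub_mem (one_mem S he) (p2_mem S ho he hM.mem))
        (m2_mem S ho he hM.mem)) fun w => ?_))
    · exact Or.inr (Or.inl (by rw [Matrix.mulVec_mulVec, hM.mp, Matrix.smul_mulVec]))
    · exact Or.inr (Or.inr (by rw [Matrix.mulVec_mulVec, hM.mm, Matrix.smul_mulVec]))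
    · exact Or.inl (by rw [Matrix.mulVec_mulVec, hM.m1])

/-- there is a family such that no minimal isotropic stable subspace is in the fixed space -/
theorem exists_fam (ho : ∀ i, D.odd (D.typ i)) (hB : BalG D At Γ m) :
    ∃ F, FamG D At Γ m F ∧ ∀ U, MinG D At Γ U → Isot (Psi D) U → ¬ U ≤ V0 F := by
  classical
  have hne : ∃ n, ∃ F, FamG D At Γ m F ∧ Module.finrank ℂ (V0 F) = n :=
    ⟨_, ∅, ⟨fun M hM => absurd hM (Finset.notMem_empty M),
      fun M hM => absurd hM (Finset.notMem_empty M)⟩, rfl⟩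
  obtain ⟨F, hF, hn⟩ := Nat.find_spec hne
  refine ⟨F, hF, fun U hU hi hle => ?_⟩
  obtain ⟨M, hM1, hM2, hM3, hM3n, hM4, hM5⟩ := hB U hU hi
  have hM : GG D At Γ m M := ⟨hM1, hM2, hM3, hM3n, hM4, U, hU, hM5⟩
  have ho1 : ∀ N ∈ F, (N - 1) * (M - 1) = 0 := by
    intro N hN
    refine orth_of ho (hF.gm N hN) hM (mat_ext fun v => ?_)
    rw [← Matrix.mulVec_mulVec, Matrix.sub_mulVec, Matrix.one_mulVec, Matrix.zero_mulVec,
      sub_eq_zero]
    refine hle ?_ N hN
    rw [hM5, Matrix.mulVec_mulVec, hM.mp, Matrix.smul_mulVec]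
  have hF' : FamG D At Γ m (insert M F) := by
    refine ⟨fun N hN => ?_, fun A hA B hB hAB => ?_⟩
    · rcases Finset.mem_insert.1 hN with rfl | hN
      · exact hM
      · exact hF.gm N hN
    · rcases Finset.mem_insert.1 hA with rfl | hA' <;> rcases Finset.mem_insert.1 hB with rfl | hB'
      · exact absurd rfl hAB
      · have h1 := ho1 B hB'
        have h2 : A * B = B * A := hM.comm ho (hF.gm B hB').mem
        have h3 : (A - 1) * (B - 1) = (B - 1) * (A - 1) + (A * B - B * A) := by noncomm_ring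
        rw [h3, h1, h2, sub_self, add_zero]
      · exact ho1 A hA'
      · exact hF.orth A hA' B hB' hAB
  have hlt : V0 (insert M F) < V0 F := by
    refine lt_of_le_of_ne (fun v hv N hN => hv N (Finset.mem_insert_of_mem hN)) fun h0 => ?_
    obtain ⟨v, hv, hv0⟩ := Submodule.exists_mem_ne_zero_of_ne_bot hU.1
    have h1 : v ∈ V0 (insert M F) := by
      rw [h0]
      exact hle hv
    have h2 := h1 M (Finset.mem_insert_self M F)
    rw [(hM5 v).1 hv] at h2
    have h3 : (1 : ℂ) • v = 0 := by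
      calc (1 : ℂ) • v = (2 : ℂ) • v - v := by module
        _ = 0 := by rw [h2, sub_self]
    rw [one_smul] at h3
    exact hv0 h3
  have h1 := Submodule.finrank_lt_finrank_of_lt hlt
  rw [hn] at h1
  exact Nat.find_min hne h1 ⟨_, hF', rfl⟩

theorem e0_mem (S : ASys D At) (ho : ∀ i, D.odd (D.typ i)) (he : ∀ i j, D.typ i = D.typ j)
    {F : Finset (Matrix I I ℂ)} (hF : FamG D At Γ m F) : e0 D F ∈ endS D At :=
  sub_mem (one_mem S he) (sum_mem fun M hM =>
    add_mem (p2_mem S ho he (hF.gm M hM).mem) (m2_mem S ho he (hF.gm M hM).mem))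

theorem mul_e0 {F : Finset (Matrix I I ℂ)} (hF : FamG D At Γ m F) {M : Matrix I I ℂ} (hM : M ∈ F) :
    (M - 1) * e0 D F = 0 := by
  classical
  have h1 : (M - 1) * (p2 D M + m2 D M) = M - 1 := by
    have h := (hF.gm M hM).m1
    have e : (M - 1) * (p2 D M + m2 D M) =
        (M - 1) - (M * (1 - p2 D M - m2 D M) - (1 - p2 D M - m2 D M)) := by noncomm_ring
    rw [e, h, sub_self, sub_zero]
  have h2 : ∀ N ∈ F.erase M, (M - 1) * (p2 D N + m2 D N) = 0 := by
    intro N hN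
    obtain ⟨hNM, hNF⟩ := Finset.mem_erase.1 hN
    have h3 := hF.orth M hM N hNF (Ne.symm hNM)
    have h4 : (M - 1) * (Nd.dag D N - 1) = 0 := by
      have e : (M - 1) * (Nd.dag D N - 1) = -((M - 1) * (N - 1) * Nd.dag D N) +
          (M - 1) * (N * Nd.dag D N - 1) := by noncomm_ring
      rw [e, h3, (hF.gm N hNF).r2, sub_self, Matrix.zero_mul, Matrix.mul_zero, neg_zero,
        add_zero]
    have e : p2 D N + m2 D N = (2 : ℂ) • (N - 1) + (2 : ℂ) • (Nd.dag D N - 1) := by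
      rw [p2, m2]
      module
    rw [e, Matrix.mul_add, Matrix.mul_smul, Matrix.mul_smul, h3, h4, smul_zero, add_zero]
  rw [e0, Matrix.mul_sub, Matrix.mul_one, Finset.mul_sum, ← Finset.add_sum_erase _ _ hM, h1,
    Finset.sum_eq_zero h2, add_zero, sub_self]

section main

variable {p q : Matrix I I ℂ} {wt : I → ℝ}

/-- the fixed space is in the step `≤ 0` -/
theorem v0_le (S : ASys D At) (ho : ∀ i, D.odd (D.typ i)) (he : ∀ i j, D.typ i = D.typ j)
    (grp : ∀ x ∈ Γ, IsG D x) (gf2 : ∀ x ∈ Γ, ∀ u, At 2 u → gT x u = u) {n : ℕ}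
    (gfn : ∀ x ∈ Γ, ∀ u, At n u → gT x u = u)
    (hF : Feas ((Kr D At n : Submodule ℂ (Ten I n)) : Set (Ten I n)) (CC D At) p q wt)
    (hstN : ∀ g, PresN D At n g → ∀ x y, (q * g.transpose * p) x y ≠ 0 → wt x ≤ wt y)
    {F : Finset (Matrix I I ℂ)} (hFam : FamG D At Γ m F)
    (hV : ∀ U, MinG D At Γ U → Isot (Psi D) U → ¬ U ≤ V0 F) :
    V0 F ≤ Up D q wt (fun r => 0 < r) := by
  have hpq := hF.pq
  have hst : ∀ g, Pres D At g → ∀ x y, (q * g.transpose * p) x y ≠ 0 → wt x ≤ wt y :=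
    fun g hg => hstN g hg.toN
  have hP : ∀ a b : ℝ, a ≤ b → 0 < a → 0 < b := fun a b hab ha => ha.trans_le hab
  have hR : ∀ N ∈ endS D At, ∀ v ∈ perp D (Up D q wt (fun r => 0 < r)),
      N *ᵥ v ∈ perp D (Up D q wt (fun r => 0 < r)) := fun N hN v hv =>
    perp_stable ho (fun w hw => up_endS S ho he hpq hst hP (dag_mem S ho hN) hw) v hv
  have hW : StabG D At Γ (perp D (Up D q wt (fun r => 0 < r)) ⊓ V0 F) := by
    refine stabG_of (fun N hN v hv => ⟨hR N hN v hv.1, fun M hM => ?_⟩)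
      fun x hx v hv => ⟨perp_stable ho (dag_stable (grp x hx) fun w hw =>
        up_gamN ho hpq hstN hP (grp x hx) (gf2 x hx) (gfn x hx) hw) v hv.1, fun M hM => ?_⟩
    · rw [Matrix.mulVec_mulVec, (hFam.gm M hM).comm ho hN, ← Matrix.mulVec_mulVec, hv.2 M hM]
    · rw [Matrix.mulVec_mulVec,
        ← CenSq.comm_endS (comm_two ho (grp x hx) (gf2 x hx)) (hFam.gm M hM).mem,
        ← Matrix.mulVec_mulVec, hv.2 M hM]
  have hbot : perp D (Up D q wt (fun r => 0 < r)) ⊓ V0 F = ⊥ := by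
    by_contra h0
    obtain ⟨U, hU1, hU2⟩ := exists_minG D At Γ _ le_rfl hW h0
    refine hV U hU2 (fun v hv w hw => ?_) (hU1.trans inf_le_right)
    exact (mem_perp.1 (hU1 hw).1) v (perp_le S ho he hF (hU1 hv).1)
  intro v hv
  refine perp_perp ho (mem_perp.2 fun r hr => ?_)
  have h1 : e0 D F *ᵥ r ∈ perp D (Up D q wt (fun r => 0 < r)) ⊓ V0 F := by
    refine ⟨hR _ (e0_mem S ho he hFam) r hr, fun M hM => ?_⟩
    have h2 := mul_e0 hFam hM
    rw [Matrix.sub_mul, Matrix.one_mul, sub_eq_zero] at h2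
    rw [Matrix.mulVec_mulVec, h2]
  rw [hbot, Submodule.mem_bot] at h1
  have h2 : e0 D F *ᵥ v = v := by
    rw [e0, Matrix.sub_mulVec, Matrix.one_mulVec, Matrix.sum_mulVec, Finset.sum_eq_zero,
      sub_zero]
    intro M hM
    obtain ⟨h3, h4⟩ := (hFam.gm M hM).fv (hv M hM)
    rw [Matrix.add_mulVec, h3, h4, add_zero]
  rw [← h2, Matrix.mulVec_mulVec, Psi_mul_eq ho, dag_e0 ho, ← Matrix.mulVec_mulVec,
    Matrix.dotProduct_mulVec, ← Matrix.mulVec_transpose, Matrix.transpose_transpose, h1,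
    zero_dotProduct]

theorem kr_eq_zero (S : ASys D At) (ho : ∀ i, D.odd (D.typ i)) (he : ∀ i j, D.typ i = D.typ j)
    (grp : ∀ x ∈ Γ, IsG D x) (gf2 : ∀ x ∈ Γ, ∀ u, At 2 u → gT x u = u) {n : ℕ}
    (gfn : ∀ x ∈ Γ, ∀ u, At n u → gT x u = u) (hB : BalG D At Γ n) (t : Ten I n) (ht : t ∈ Kr D At n) : t = 0 := by
  classical
  obtain ⟨p, q, wt, hF, hstN⟩ := exists_optN S ho n
  obtain ⟨F, hFam, hV⟩ := exists_fam ho hB
  have hpq := hF.pq
  have hV0 := v0_le S ho he grp gf2 gfn hF hstN hFam hV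
  choose! α β hαβ hα hβ using fun M (hM : M ∈ F) => jumps S ho he grp gf2 gfn hF hstN (hFam.gm M hM)
  -- a basis of joint eigenvectors
  let b := Module.Basis.ofSpan (span_lb S ho he F hFam.gm)
  have hb : ∀ κ, Lb F (b κ) := fun κ =>
    Module.Basis.ofSpan_subset (span_lb S ho he F hFam.gm) ⟨κ, rfl⟩
  have hb0 : ∀ κ, b κ ≠ 0 := fun κ => b.ne_zero κ
  have hfin : Finite ((linearIndepOn_empty ℂ (id : (I → ℂ) → I → ℂ)).extend
      (Set.empty_subset {v | Lb F v})) := Module.Finite.finite_basis b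
  -- the map `Ψ`
  let ψe : (I → ℂ) ≃ₗ[ℂ] (I → ℂ) :=
    { toFun := fun v => Psi D *ᵥ v
      map_add' := fun a b => Matrix.mulVec_add _ _ _
      map_smul' := fun c a => Matrix.mulVec_smul _ _ _
      invFun := fun v => -(Psi D *ᵥ v)
      left_inv := fun v => by
        change -(Psi D *ᵥ (Psi D *ᵥ v)) = v
        rw [Matrix.mulVec_mulVec, Psi_mul_Psi ho, Matrix.neg_mulVec, Matrix.one_mulVec, neg_neg]
      right_inv := fun v => by
        change Psi D *ᵥ -(Psi D *ᵥ v) = v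
        rw [Matrix.mulVec_neg, Matrix.mulVec_mulVec, Psi_mul_Psi ho, Matrix.neg_mulVec,
          Matrix.one_mulVec, neg_neg] }
  -- the labels
  let c2 : Matrix I I ℂ → _ → ℤ := fun M κ => if M *ᵥ b κ = (2 : ℂ) • b κ then 1 else 0
  let cm : Matrix I I ℂ → _ → ℤ := fun M κ =>
    if M *ᵥ b κ = (2 : ℂ) • b κ then 0 else if M *ᵥ b κ = (1 / 2 : ℂ) • b κ then 1 else 0
  let lev : _ → ℝ := fun κ => ∑ M ∈ F, ((c2 M κ : ℝ) * α M + (cm M κ : ℝ) * β M)
  have hne2 : ∀ κ, b κ ≠ (2 : ℂ) • b κ := by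
    intro κ h
    have h3 : b κ = (2 : ℂ) • b κ - b κ := by module
    rw [← h, sub_self] at h3
    exact hb0 κ h3
  have hnem : ∀ κ, b κ ≠ (1 / 2 : ℂ) • b κ := by
    intro κ h
    have h3 : b κ = (2 : ℂ) • (b κ - (1 / 2 : ℂ) • b κ) := by module
    rw [← h, sub_self, smul_zero] at h3
    exact hb0 κ h3
  have hne2m : ∀ κ, (2 : ℂ) • b κ ≠ (1 / 2 : ℂ) • b κ := by
    intro κ h
    have h3 : b κ = (2 / 3 : ℂ) • ((2 : ℂ) • b κ - (1 / 2 : ℂ) • b κ) := by module
    rw [h, sub_self, smul_zero] at h3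
    exact hb0 κ h3
  have hc1 : ∀ M κ, M *ᵥ b κ = b κ → c2 M κ = 0 ∧ cm M κ = 0 := by
    intro M κ h
    have h1 : ¬ M *ᵥ b κ = (2 : ℂ) • b κ := by rw [h]; exact hne2 κ
    have h2 : ¬ M *ᵥ b κ = (1 / 2 : ℂ) • b κ := by rw [h]; exact hnem κ
    exact ⟨if_neg h1, by show (if _ then _ else _) = _; rw [if_neg h1, if_neg h2]⟩
  have hlev : ∀ κ, b κ ∈ Up D q wt (fun r => lev κ < r) := by
    intro κ
    by_cases hex : ∃ M ∈ F, M *ᵥ b κ ≠ b κ
    · obtain ⟨M, hM, hMb⟩ := hex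
      have hother : ∀ N ∈ F, N ≠ M → N *ᵥ b κ = b κ := by
        intro N hN hNM
        by_contra hNb
        have key : ∀ A ∈ F, A *ᵥ b κ ≠ b κ → ∃ c : ℂ, c ≠ 0 ∧ (A - 1) *ᵥ b κ = c • b κ := by
          intro A hA hAb
          rcases hb κ A hA with h | h | h
          · exact absurd h hAb
          · refine ⟨1, one_ne_zero, ?_⟩
            rw [Matrix.sub_mulVec, h, Matrix.one_mulVec]
            module
          · refine ⟨-(1 / 2), by norm_num, ?_⟩
            rw [Matrix.sub_mulVec, h, Matrix.one_mulVec]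
            module
        obtain ⟨c, hc, h1⟩ := key N hN hNb
        obtain ⟨c', hc', h2⟩ := key M hM hMb
        have h3 : (N - 1) *ᵥ ((M - 1) *ᵥ b κ) = 0 := by
          rw [Matrix.mulVec_mulVec, hFam.orth N hN M hM hNM, Matrix.zero_mulVec]
        rw [h2, Matrix.mulVec_smul, h1, smul_smul] at h3
        exact (smul_ne_zero (mul_ne_zero hc' hc) (hb0 κ)) h3
      have hsum : lev κ = (c2 M κ : ℝ) * α M + (cm M κ : ℝ) * β M := by
        refine Finset.sum_eq_single M (fun N hN hNM => ?_) fun h => absurd hM h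
        obtain ⟨h1, h2⟩ := hc1 N κ (hother N hN hNM)
        rw [h1, h2]
        simp
      rcases hb κ M hM with h | h | h
      · exact absurd h hMb
      · have h1 : c2 M κ = 1 := if_pos h
        have h2 : cm M κ = 0 := if_pos h
        have h3 : lev κ = α M := by rw [hsum, h1, h2]; simp
        rw [h3]
        exact hα M hM _ h
      · have h0 : ¬ M *ᵥ b κ = (2 : ℂ) • b κ := by rw [h]; exact (hne2m κ).symm
        have h1 : c2 M κ = 0 := if_neg h0
        have h2 : cm M κ = 1 := by show (if _ then _ else _) = _; rw [if_neg h0, if_pos h]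
        have h3 : lev κ = β M := by rw [hsum, h1, h2]; simp
        rw [h3]
        exact hβ M hM _ h
    · push Not at hex
      have h1 : lev κ = 0 := by
        refine Finset.sum_eq_zero fun M hM => ?_
        obtain ⟨h1, h2⟩ := hc1 M κ (hex M hM)
        rw [h1, h2]
        simp
      rw [h1]
      exact hV0 hex
  refine eq_zero_of_ev (b.map ψe) t fun κ => ?_
  by_contra hne
  have hne' : ev (Ω := ℂ) (t : Tens I ℂ n) (fun a => Psi D *ᵥ b (κ a)) ≠ 0 := by
    intro h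
    apply hne
    rw [← h]
    congr 1
  -- (1) the weight of `t`
  have h1 : 1 ≤ ∑ a, lev (κ a) := by
    have h0 := hne'
    rw [ev_expand t hpq] at h0
    obtain ⟨J, _, hJ0⟩ := Finset.exists_ne_zero_of_sum_ne_zero h0
    have h2 := hF.tens t ht J (right_ne_zero_of_mul hJ0)
    refine h2.trans (Finset.sum_le_sum fun a _ => ?_)
    by_contra hlt
    rw [not_le] at hlt
    exact left_ne_zero_of_mul hJ0 (Finset.prod_eq_zero (Finset.mem_univ a)
      (hlev (κ a) (J a) hlt))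
  -- (2) `t` is fixed by the symmetries
  have h2 : ∀ M ∈ F, ∑ a, c2 M (κ a) = ∑ a, cm M (κ a) := by
    intro M hM
    have hdv : ∀ a, Nd.dag D M *ᵥ b (κ a) = (2 : ℂ) ^ (cm M (κ a) - c2 M (κ a)) • b (κ a) := by
      intro a
      rcases hb (κ a) M hM with h | h | h
      · obtain ⟨h3, h4⟩ := hc1 M (κ a) h
        have h5 : M *ᵥ b (κ a) = (1 : ℂ) • b (κ a) := by rw [h, one_smul]
        rw [h3, h4, sub_self, zpow_zero]
        exact (hFam.gm M hM).dagv (by norm_num) h5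
      · have h3 : c2 M (κ a) = 1 := if_pos h
        have h4 : cm M (κ a) = 0 := if_pos h
        rw [h3, h4, (hFam.gm M hM).dagv (c' := 1 / 2) (by norm_num) h]
        norm_num
      · have h0 : ¬ M *ᵥ b (κ a) = (2 : ℂ) • b (κ a) := by rw [h]; exact (hne2m (κ a)).symm
        have h3 : c2 M (κ a) = 0 := if_neg h0
        have h4 : cm M (κ a) = 1 := by show (if _ then _ else _) = _; rw [if_neg h0, if_pos h]
        rw [h3, h4, (hFam.gm M hM).dagv (c' := 2) (by norm_num) h]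
        norm_num
    have h3 : psiT D t (fun w : Fin n → I => ∏ a, b (κ a) (w a)) =
        (2 : ℂ) ^ (∑ a, (cm M (κ a) - c2 M (κ a))) *
          psiT D t (fun w : Fin n → I => ∏ a, b (κ a) (w a)) := by
      conv_lhs => rw [← fix_ca (hFam.gm M hM).fixn ht.1]
      rw [psi_gT ho, gT_simple, ← prod_two]
      have e : (fun w : Fin n → I => ∏ a, (Nd.dag D M *ᵥ b (κ a)) (w a)) =
          (∏ a, (2 : ℂ) ^ (cm M (κ a) - c2 M (κ a))) •
            fun w : Fin n → I => ∏ a, b (κ a) (w a) := by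
        funext w
        rw [Pi.smul_apply, smul_eq_mul, ← Finset.prod_mul_distrib]
        refine Finset.prod_congr rfl fun a _ => ?_
        rw [hdv a, Pi.smul_apply, smul_eq_mul]
      rw [e, ← Qps.psiL_apply, map_smul, Qps.psiL_apply, smul_eq_mul]
    rw [psi_simple] at h3
    have h4 : (2 : ℂ) ^ (∑ a, (cm M (κ a) - c2 M (κ a))) = 1 := by
      have h5 : ((2 : ℂ) ^ (∑ a, (cm M (κ a) - c2 M (κ a))) - 1) *
          ev (Ω := ℂ) (t : Tens I ℂ n) (fun a => Psi D *ᵥ b (κ a)) = 0 := by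
        rw [sub_mul, one_mul, ← h3, sub_self]
      exact sub_eq_zero.1 ((mul_eq_zero.1 h5).resolve_right hne')
    have h5 : (2 : ℝ) ^ (∑ a, (cm M (κ a) - c2 M (κ a))) = 1 := by
      have h6 := congrArg norm h4
      rw [norm_zpow, norm_one] at h6
      simpa using h6
    have h6 : ∑ a, (cm M (κ a) - c2 M (κ a)) = 0 :=
      (zpow_eq_one_iff_right₀ (by norm_num) (by norm_num)).1 h5
    rw [Finset.sum_sub_distrib, sub_eq_zero] at h6
    exact h6.symm
  -- (3) the sum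
  have h3 : ∑ a, lev (κ a) ≤ 0 := by
    show ∑ a, ∑ M ∈ F, ((c2 M (κ a) : ℝ) * α M + (cm M (κ a) : ℝ) * β M) ≤ 0
    rw [Finset.sum_comm]
    refine Finset.sum_nonpos fun M hM => ?_
    have e : ∑ a, ((c2 M (κ a) : ℝ) * α M + (cm M (κ a) : ℝ) * β M) =
        ((∑ a, c2 M (κ a) : ℤ) : ℝ) * (α M + β M) := by
      rw [Finset.sum_add_distrib, ← Finset.sum_mul, ← Finset.sum_mul, mul_add]
      have h4 := congrArg (fun z : ℤ => (z : ℝ)) (h2 M hM)
      push_cast at h4 ⊢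
      rw [← h4]
    rw [e]
    have h4 : (0 : ℝ) ≤ ((∑ a, c2 M (κ a) : ℤ) : ℝ) := by
      have : (0 : ℤ) ≤ ∑ a, c2 M (κ a) := Finset.sum_nonneg fun a _ => by
        show (0 : ℤ) ≤ if _ then _ else _
        split_ifs <;> norm_num
      exact_mod_cast this
    have h5 := hαβ M hM
    nlinarith
  linarith

end main

end Pool.Agent.Lib.MP_361a6f_ag.FL.E.NdG

namespace Pool.Agent.Lib.MP_361a6f_ag.FL.E

/-- **Nondegeneracy in one length.** -/
theorem ndG {I Λ : Type} [Fintype I] [DecidableEq I] [DecidableEq Λ] (D : Dat I Λ)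
    (At : (L : ℕ) → Ten I L → Prop) (Γ : Set (Matrix I I ℂ)) (S : ASys D At)
    (ho : ∀ i, D.odd (D.typ i)) (he : ∀ i j, D.typ i = D.typ j) (grp : ∀ x ∈ Γ, IsG D x)
    (gf2 : ∀ x ∈ Γ, ∀ u, At 2 u → gT x u = u) {m : ℕ} (gfn : ∀ x ∈ Γ, ∀ u, At m u → gT x u = u)
    (hB : BalG D At Γ m) :
    ∀ u ∈ Submodule.span ℂ {u | At m u}, u ≠ 0 →
      ∃ v ∈ Submodule.span ℂ {u | At m u}, psiT D u v ≠ 0 := by
  intro u hu h0
  by_contra hcon
  push Not at hcon
  exact h0 (NdG.kr_eq_zero S ho he grp gf2 gfn hB u ⟨hu, hcon⟩)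

end Pool.Agent.Lib.MP_361a6f_ag.FL.E
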