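import Pool.Agent.Lib.MP_361a6f_ag.FL.BAL.GeoS
import Pool.Agent.Lib.MP_361a6f_ag.FL.BAL.DetS

/-!
# Theorem BAL
-/

open CategoryTheory AlgebraicGeometry MonoidalCategory CartesianMonoidalCategory

universe u w

namespace Pool.Agent.Lib.MP_361a6f_ag.FL

/-- **Theorem BAL.** -/
theorem thmBalS : ThmBalS.{u, w} := by
  intro k _ W 𝒱 hW X g hX h0 hU ξ hdiv j bal
  have h : ∀ P, EQ.NumHomAt W (EQ.pw X P) j := fun P =>
    E.numHom_balS hW hX h0 hU hdiv j bal P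
  exact ⟨h, fun Y n hY hd => E.BalD.numHomAt_of_det hW hX hY h hd⟩

end Pool.Agent.Lib.MP_361a6f_ag.FL
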