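import Pool.Agent.Lib.MP_361a6f_ag.FL.BAL.UFk
import Pool.Agent.Lib.MP_361a6f_ag.FL.E.J.Smp
import Pool.Agent.Lib.MP_361a6f_ag.FL.E.I.Lin
import Pool.Agent.Lib.MP_361a6f_ag.FL.E.I.Mats
import Pool.Agent.Lib.MP_361a6f_ag.FL.E.StatU
import Pool.Agent.Lib.MP_361a6f_ag.FL.E.OrbG
import Pool.Agent.Lib.MP_361a6f_ag.FL.E.OrbF
import Pool.Agent.Lib.MP_361a6f_ag.FL.E.SymM
import Pool.Agent.Lib.MP_361a6f_ag.FL.E.EndT
import Pool.Agent.Lib.MP_361a6f_ag.FL.K0.Geo
import Pool.Agent.Lib.MP_361a6f_ag.FL.Main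

/-!
# Numerical and homological equivalence: reduction to one place with a simple spectrum
-/

open CategoryTheory AlgebraicGeometry MonoidalCategory CartesianMonoidalCategory

universe u v w w'

set_option autoImplicit false
set_option linter.unusedSectionVars false

namespace Pool.Agent.Lib.MP_361a6f_ag.FL.E

open Pool.Agent.Lib.MP_361a6f_ag.H3 Pool.Agent.Lib.MP_361a6f_ag.SQ
  Pool.Agent.Lib.MP_361a6f_ag.PP

namespace UF

open OL (CA)
open Inj

noncomputable section

/-- a member of a span that pairs non-trivially gives a generator -/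
theorem exists_gen {I Λ : Type} [Fintype I] [DecidableEq I] {D : Dat I Λ} {L : ℕ}
    {A : Set (Ten I L)} {u v : Ten I L} (hv : v ∈ Submodule.span ℂ A) (hne : psiT D u v ≠ 0) :
    ∃ v ∈ A, psiT D u v ≠ 0 := by
  by_contra hcon
  push Not at hcon
  apply hne
  clear hne
  induction hv using Submodule.span_induction with
  | mem v hv => exact hcon v hv
  | zero => simp [psiT]
  | add a b _ _ ha hb =>
    unfold psiT at ha hb ⊢
    simp only [Pi.add_apply, mul_add, Finset.sum_add_distrib, ha, hb, add_zero]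
  | smul t a _ ha =>
    have e : psiT D u (t • a) = t * psiT D u a := by
      unfold psiT
      rw [Finset.mul_sum]
      refine Finset.sum_congr rfl fun w _ => ?_
      rw [Pi.smul_apply, smul_eq_mul]
      ring
    rw [e, ha, mul_zero]

/-- a class that pairs to zero with the algebraic classes of every codimension -/
theorem num_tot {k : Type u} [Field k] {W : CohomologyData.{u, 0, w} k ℂ} {𝒱 : VarietyClass k}
    (hW : IsWeilCohomology W 𝒱) {Y : Sch k} {x : W.coh Y}
    (h : ∀ l, ∀ y ∈ W.alg Y l, W.tr Y (x * y) = 0) : ∀ y ∈ tot W Y, W.tr Y (x * y) = 0 := by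
  intro y hy
  refine tot_induction (P := fun y => W.tr Y (x * y) = 0) hW hy ?_ ?_
  · intro l y hy
    exact h l y hy
  · intro a b ha hb
    rw [mul_add, map_add, ha, hb, add_zero]

/-- numerical and homological equivalence agree in codimension `j` for the rational coefficients:
then algebraic classes which are linearly independent over `ℚ` are linearly independent over `ℂ` -/
theorem indep_of_num {k : Type u} [Field k] {W : CohomologyData.{u, 0, w} k ℂ}
    {𝒱 : VarietyClass k} (hW : IsWeilCohomology W 𝒱) {Y : Sch k} {e : ℕ} (hY : 𝒱.mem Y e)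
    {j : ℕ} (hD : ∀ z, W.IsAlg Y j z → EQ.NumTriv W z → z = 0) : EQ.Independent W Y j := by
  intro n z hz hq a ha
  have hr : ∀ (i : Fin n) (y : {y : W.coh Y // y ∈ tot W Y}),
      ∃ q : ℚ, W.tr Y (z i * y.1) = q := fun i y =>
    tot_tr hW hY (tot_mul hW hY (alg_le_tot hW _ j (hz i)) y.2)
  choose M hM using hr
  have key : ∀ (b : Fin n → ℂ) (y : {y : W.coh Y // y ∈ tot W Y}),
      W.tr Y ((∑ i, b i • z i) * y.1) = ∑ i, b i * (M i y : ℂ) := by
    intro b y
    rw [Finset.sum_mul, map_sum]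
    refine Finset.sum_congr rfl fun i _ => ?_
    rw [smul_mul_assoc, map_smul, hM, smul_eq_mul]
  have ha' : ∑ i, a i • z i = 0 := ha
  refine indep_of_rat M (fun q h => hq q (hD _ ?_ fun l y hy => ?_)) a fun y => ?_
  · exact sum_mem fun i _ => W.alg_smul (q i) (hz i)
  · have h1 := key (fun i => (q i : ℂ)) ⟨y, alg_le_tot hW _ l hy⟩
    have h2 : ∑ i, (q i : ℂ) * (M i ⟨y, alg_le_tot hW _ l hy⟩ : ℂ) = 0 := by
      have h3 := congrArg (Rat.cast : ℚ → ℂ) (h ⟨y, alg_le_tot hW _ l hy⟩)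
      push_cast at h3
      exact h3
    exact h1.trans h2
  · rw [← key a y, ha', zero_mul, map_zero]

section host

variable {k : Type u} [Field k] {W : CohomologyData.{u, 0, w} k ℂ} {𝒱 : VarietyClass k}
  (H : Host W 𝒱 1)

/-- the algebraic classes of codimension `j` are stable under the adjoints of pull-backs -/
theorem push_alg (j : ℕ) : EndM.PushSt H fun P => {z | z ∈ W.alg (P.obj H.X) j} := by
  intro P Q f _ z hz
  obtain ⟨z'', h1, key⟩ := EndE.push_star H P Q f z (alg_le_tot H.hW _ j hz)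
  refine ⟨z'', tot_alg H.hW (H.memP Q) h1 ?_, key⟩
  rw [Ge.expand H Q z'']
  refine Submodule.sum_mem _ fun w _ => ?_
  have hE := Ge.E_gr H Q w
  by_cases hw : ∑ i, (H.D.typ (w i)).2 = 2 * j
  · rw [hw] at hE
    exact Submodule.smul_mem _ _ hE
  · have hE' := Ge.E_gr H Q (H.D.τ ∘ w)
    have h2 : ∑ i, (H.D.typ ((H.D.τ ∘ w) i)).2 = ∑ i, (H.D.typ (w i)).2 :=
      Finset.sum_congr rfl (fun i _ => by rw [Function.comp_apply, H.D.typ_τ])
    rw [h2] at hE'
    have h3 : H.psiP P (W.pull f (H.E Q (H.D.τ ∘ w))) z = 0 :=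
      GB.psi_gr_ne H.hW staB (H.memP P) (H.lamP P).2 (H.lamP P).1
        (H.hW.pull_gr (H.memP P) (H.memP Q) f hE') (H.hW.alg_gr (H.memP P) hz) hw
    have h4 : H.tc Q z'' w = 0 := by
      rw [H.tc_apply, ← EndM.psi_symm H Q h1, key, h3, mul_zero]
    rw [h4, zero_smul]
    exact Submodule.zero_mem _

/-- the part of degree one of an algebraic class of codimension `j` is `0` if there are not `2 j`
factors -/
theorem cut_zero {P : Prd 1} {j : ℕ} (hP : P.size ≠ 2 * j) {z : W.coh (P.obj H.X)}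
    (hz : z ∈ W.alg (P.obj H.X) j) : EndM.cut1 H (H.tc P z) = 0 := by
  funext v
  refine SymM.tc_deg H P (H.hW.alg_gr (H.memP P) hz) (E.up v) ?_
  have h1 : ∑ i, (H.D.typ (E.up v i)).2 = P.size := by
    refine (Finset.sum_congr rfl (g := fun _ => 1) fun i _ => congrArg Prod.snd (v i).2).trans ?_
    simp
  rw [h1]
  exact hP

/-- the part of degree one of an algebraic class -/
theorem cut_mem {P : Prd 1} {j : ℕ} {z : W.coh (P.obj H.X)} (hz : z ∈ W.alg (P.obj H.X) j) :
    At1 H P.size (EndM.cut1 H (H.tc P z)) := by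
  show ext0 H.D (0, 1) (EndM.cut1 H (H.tc P z)) ∈ H.At P.size
  have h1 := EndE.cut_at H (GP.at_tc H P (alg_le_tot H.hW _ j hz))
  rw [← EndM.ext_cut1] at h1
  exact h1

/-- conjugate combinations of the algebraic tensors are conjugate combinations of algebraic
classes -/
theorem cj_class {P : Prd 1} {j : ℕ} (hP : P.size = 2 * j) {u v : Ten (Sub H.D (0, 1)) P.size}
    (h : (u, v) ∈ Cj (At1 H) P.size) :
    ∃ (n : ℕ) (a : Fin n → ℂ) (z : Fin n → W.coh (P.obj H.X)),
      (∀ i, z i ∈ W.alg (P.obj H.X) j) ∧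
      H.tc P (∑ i, a i • z i) = ext0 H.D (0, 1) u ∧
      H.tc P (∑ i, starRingEnd ℂ (a i) • z i) = ext0 H.D (0, 1) v := by
  refine cj_ind (C := fun u v => ∃ (n : ℕ) (a : Fin n → ℂ) (z : Fin n → W.coh (P.obj H.X)),
      (∀ i, z i ∈ W.alg (P.obj H.X) j) ∧
      H.tc P (∑ i, a i • z i) = ext0 H.D (0, 1) u ∧
      H.tc P (∑ i, starRingEnd ℂ (a i) • z i) = ext0 H.D (0, 1) v) ?_ ?_ ?_ h
  · intro a t ht
    obtain ⟨y, hy, h1⟩ := PosL.at_word H (gr ge H) (ge H) P (fun _ => (0, 1))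
      (fun i => Subsingleton.elim _ _) j (by
        show ∑ _i : Fin P.size, 1 = 2 * j
        simp [hP]) ht (fun w hw => ext0_off t hw)
    refine ⟨1, fun _ => a, fun _ => y, fun _ => hy, ?_, ?_⟩
    · rw [Fin.sum_univ_one, map_smul, h1, map_smul]
    · rw [Fin.sum_univ_one, map_smul, h1, map_smul]
  · refine ⟨0, Fin.elim0, Fin.elim0, fun i => i.elim0, ?_, ?_⟩
    · rw [Fin.sum_univ_zero, map_zero, map_zero]
    · rw [Fin.sum_univ_zero, map_zero, map_zero]
  · rintro u v u' v' ⟨n, a, z, hz, h1, h2⟩ ⟨n', a', z', hz', h1', h2'⟩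
    refine ⟨n + n', Fin.append a a', Fin.append z z', fun i => ?_, ?_, ?_⟩
    · refine Fin.addCases (fun i => ?_) (fun i => ?_) i
      · rw [Fin.append_left]
        exact hz i
      · rw [Fin.append_right]
        exact hz' i
    · rw [Fin.sum_univ_add, map_add, map_add]
      simp only [Fin.append_left, Fin.append_right]
      rw [h1, h1']
    · rw [Fin.sum_univ_add, map_add, map_add]
      simp only [Fin.append_left, Fin.append_right]
      rw [h2, h2']

/-- conjugate combinations of vanishing combinations of algebraic tensors vanish if classes that are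
linearly independent over `ℚ` are linearly independent over `ℂ` -/
theorem cj_zero {r L : ℕ} {P : Prd 1} (hP : P.size = 2 * r)
    (hL : P.size = L) (hD : EQ.Independent W (P.obj H.X) r) (x : Ten (Sub H.D (0, 1)) L)
    (hx : ((0 : Ten (Sub H.D (0, 1)) L), x) ∈ Cj (At1 H) L) : x = 0 := by
  subst hL
  obtain ⟨n, a, z, hz, h1, h2⟩ := cj_class H hP hx
  have h3 : ∑ i, a i • z i = 0 := (ge H).inj P
    ((h1.trans (map_zero (ext0 (L := P.size) H.D ((0, 1) : Fin 1 × ℕ)))).trans
      (map_zero (H.tc P)).symm)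
  have h4 := conj_of_indep z (fun m e hq b hb => hD m (fun k => z (e k))
    (fun k => hz (e k)) hq b hb) a h3
  rw [h4] at h2
  apply ext0_inj (D := H.D) (α := ((0, 1) : Fin 1 × ℕ))
  exact h2.symm.trans ((map_zero (H.tc P)).trans
    (map_zero (ext0 (L := P.size) H.D ((0, 1) : Fin 1 × ℕ))).symm)

end host

section base

variable {k : Type u} [Field k] {W : CohomologyData.{u, 0, w} k ℂ} {𝒱 : VarietyClass k}
  (hW : IsWeilCohomology W 𝒱) {X : Sch k} {g : ℕ} {ξ : W.coh X} (hX : 𝒱.mem X g)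
  (hconn : ∀ x, W.Deg X 0 x → ∃ c, x = W.scal c 1) (hun : EQ.Unital X)
  (hdiv : PositiveDivisor W X g ξ)

include hW hX hconn hun hdiv in
/-- the adapted basis exists -/
theorem exists_core : Nonempty (Hst.Core W X g ξ) := by
  obtain ⟨h1, h2, -⟩ := unital hW hX hconn hun hdiv
  exact Hst.exists_core hW hX hdiv.1 h1 h2

variable (c : Hst.Core W X g ξ)

/-- the host of `X` -/
abbrev hs : Host W 𝒱 1 := c.host hW hX hdiv.1

/-- the system of the algebraic tensors on `H^1` -/
theorem asys : ASys (subD c.D (0, 1)) (At1 (hs hW hX hdiv c)) :=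
  aSys_sub (α := ((0, 1) : Fin 1 × ℕ)) (aSys_at (at_ (hs hW hX hdiv c)))

include hW hX hdiv in
theorem odd (i : Sub c.D (0, 1)) : (subD c.D (0, 1)).odd ((subD c.D (0, 1)).typ i) := by
  show c.D.odd (c.D.typ i.1)
  rw [i.2]
  exact Hst.odd_one (hs hW hX hdiv c) 0

include hconn hun in
/-- the conclusion from the nondegeneracy for the tensors of length `2 j` -/
theorem num_of_nd (j : ℕ) (hnd : ∀ P : Prd 1, P.size = 2 * j →
      ∀ u ∈ CA (At1 (hs hW hX hdiv c)) P.size, u ≠ 0 → ∃ v ∈ CA (At1 (hs hW hX hdiv c)) P.size,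
        psiT (subD c.D (0, 1)) u v ≠ 0) (P : Prd 1) : EQ.NumHomIn W (EQ.pw X P) j := by
  intro x hx hnum
  refine EndM.num_of_nd (hs hW hX hdiv c)
    (fun _ => abelianType_of_unital hW hX hconn hun hdiv)
    (Z := fun P => {z | z ∈ W.alg (P.obj (hs hW hX hdiv c).X) j})
    (fun P z hz => alg_le_tot hW _ j hz) (push_alg (hs hW hX hdiv c) j) ?_ P hx ?_
  · intro P u hu hu0
    by_cases hP : P.size = 2 * j
    · have hu' : u ∈ CA (At1 (hs hW hX hdiv c)) P.size := by
        refine Submodule.span_mono ?_ hu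
        rintro _ ⟨z, hz, rfl⟩
        exact cut_mem (hs hW hX hdiv c) hz
      obtain ⟨v, hv, hne⟩ := hnd P hP u hu' hu0
      exact exists_gen hv hne
    · exfalso
      apply hu0
      have h1 : ((fun z : W.coh (P.obj (hs hW hX hdiv c).X) =>
          EndM.cut1 (hs hW hX hdiv c) ((hs hW hX hdiv c).tc P z)) ''
            {z | z ∈ W.alg (P.obj (hs hW hX hdiv c).X) j}) ⊆ {0} := by
        rintro _ ⟨z, hz, rfl⟩
        exact cut_zero (hs hW hX hdiv c) hP hz
      have h2 := Submodule.span_mono (R := ℂ) h1 hu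
      rwa [Submodule.span_singleton_eq_bot.2 rfl, Submodule.mem_bot] at h2
  · exact num_tot hW fun l y hy => hnum l y hy

end base

section place

variable {k : Type u} [Field k] {k' : Type v} [Field k'] {W : CohomologyData.{u, 0, w} k ℂ}
  {𝒱 : VarietyClass k} {W' : CohomologyData.{v, 0, w'} k' ℂ} {𝒱' : VarietyClass k'}
  (hW : IsWeilCohomology W 𝒱) (hW' : IsWeilCohomology W' 𝒱')
  {X : Sch k} {g : ℕ} {ξ : W.coh X} (hX : 𝒱.mem X g)
  (hconn : ∀ x, W.Deg X 0 x → ∃ c, x = W.scal c 1) (hun : EQ.Unital X)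
  (hdiv : PositiveDivisor W X g ξ) (c : Hst.Core W X g ξ)
  {X' : Sch k'} (hX' : 𝒱'.mem X' g) {s : ∀ P : Prd 1, W.coh (EQ.pw X P) → W'.coh (EQ.pw X' P)}
  (hs' : EQ.IsSpec W X W' X' s) {F : Sch.Mor X' X'} {q : ℕ} (hq : 0 < q)
  (hF : ∀ P l z, W'.IsAlg (EQ.pw X' P) l z →
    W'.pb (EQ.pwMap F P) z = W'.scal ((q : ℂ) ^ l) z)
  (hsp : EQ.SimpleSpectrum W' g q F)

/-- the host of the reduction -/
abbrev hsR : Host W' 𝒱' 1 := host2 (hs hW hX hdiv c) (spcOf hs' ξ) hW' hX'

include hdiv hs' hF in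
/-- `F^* ξ' = q ξ'` -/
theorem pull_xi : W'.pull F (s (.leaf 0) ξ) = (((q : ℚ) : ℂ)) • s (.leaf 0) ξ := by
  have h1 := hF (.leaf 0) 1 _ (hs'.alg (.leaf 0) 1 ξ hdiv.1)
  rw [pow_one] at h1
  have h2 : (((q : ℚ) : ℂ)) = (q : ℂ) := by norm_cast
  rw [h2]
  exact h1

include hconn hun hq hF hsp in
/-- the data from geometry -/
theorem rsys :
    Inj.RSys (subD c.D (0, 1)) (At1 (hs hW hX hdiv c)) (At1 (hsR hW hW' hX hdiv c hX' hs'))
      (FM (hs hW hX hdiv c) (spcOf hs' ξ) hW' hX' F q) := by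
  classical
  have hq' : (((q : ℚ) : ℂ)) = (q : ℂ) := by norm_cast
  have hs0 := sq_ne hq
  have hxi := pull_xi hdiv hs' hF
  have hsym := symH (hs hW hX hdiv c) (spcOf hs' ξ) hW' hX' hconn hdiv hxi
  have hA' : AbelianType W' X' g :=
    K0.spc_abelianType (spcOf hs' ξ) hW hW' hX hX'
      (abelianType_of_unital hW hX hconn hun hdiv)
  have hcard : Fintype.card (Sub c.D (0, 1)) = 2 * g :=
    Hst.card_two (hsR hW hW' hX hdiv c hX' hs') 0 hA'
  have hfrob : ∀ (P : Prd 1) (l : ℕ) (z : W'.coh (P.obj (hsR hW hW' hX hdiv c hX' hs').X)),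
      z ∈ W'.alg (P.obj (hsR hW hW' hX hdiv c hX' hs').X) l →
      FrH (hs hW hX hdiv c) (spcOf hs' ξ) hW' hX' F P z
        = (((q : ℚ) : ℂ)) ^ l • z := fun P l z hz => by
    rw [hq']
    exact hF P l z hz
  exact
    { csys := aSys_sub (aSys_at (at_ (hsR hW hW' hX hdiv c hX' hs')))
      typ_eq := fun i j => i.2.trans j.2.symm
      odd := odd hW hX hdiv c
      sub := fun L u hu => at_le (hs hW hX hdiv c) (spcOf hs' ξ) hW' hX' (ge (hs hW hX hdiv c))
        (ge (hsR hW hW' hX hdiv c hX' hs')) L hu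
      frob := gam_one (hsR hW hW' hX hdiv c hX' hs') hs0 (sq_sq q) hsym
        ((spcOf hs' ξ).posd hdiv)
      mten := mten_real (hsR hW hW' hX hdiv c hX' hs')
        (mten_mem (hsR hW hW' hX hdiv c hX' hs') hs0 hsym F
          (leafH (hs hW hX hdiv c) (spcOf hs' ξ) hW' hX' F))
      fix := K0.fix_at1 (hs hW hX hdiv c) (spcOf hs' ξ) hW' hX' F hq hconn hdiv hxi hfrob
      pos := K0.pos_at1 (hs hW hX hdiv c) (spcOf hs' ξ) hW' hX' F hq hconn hdiv hxi
        hfrob hA' hsp
      simple := by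
        obtain ⟨a, ha, ha'⟩ := hsp
        refine ⟨Finset.univ.image fun i => (sq q)⁻¹ * a i, ?_, ?_⟩
        · rw [Finset.card_image_of_injective _ fun i j hij =>
            ha (mul_left_cancel₀ (inv_ne_zero hs0) hij), Finset.card_univ, Fintype.card_fin, hcard]
        · intro b hb
          obtain ⟨i, -, rfl⟩ := Finset.mem_image.1 hb
          obtain ⟨-, x, hx1, hx0, hFx⟩ := ha' i
          let y : W'.coh ((hsR hW hW' hX hdiv c hX' hs').X 0) := x
          have hy1 : y ∈ W'.gr ((hsR hW hW' hX hdiv c hX' hs').X 0) 1 := hx1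
          have h3 : vec1 (hsR hW hW' hX hdiv c hX' hs') (crd1 (hsR hW hW' hX hdiv c hX' hs') y)
              = y := vec1_crd1 (hsR hW hW' hX hdiv c hX' hs') hy1
          refine ⟨crd1 (hsR hW hW' hX hdiv c hX' hs') y, fun h2 => hx0 ?_, ?_⟩
          · have h5 : y = 0 := h3.symm.trans
              ((congrArg (vec1 (hsR hW hW' hX hdiv c hX' hs')) h2).trans (map_zero _))
            exact h5
          · refine FM_eig (hs hW hX hdiv c) (spcOf hs' ξ) hW' hX' hconn hdiv hq hxi ?_
            have h4 : v1 (hs hW hX hdiv c) (spcOf hs' ξ) hW' hX'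
                (crd1 (hsR hW hW' hX hdiv c hX' hs') y) = x := h3
            rw [h4]
            exact hFx }

end place

section final

variable {k : Type u} [Field k] {k' : Type v} [Field k'] {W : CohomologyData.{u, 0, w} k ℂ}
  {𝒱 : VarietyClass k} {W' : CohomologyData.{v, 0, w'} k' ℂ} {𝒱' : VarietyClass k'}
  (hW : IsWeilCohomology W 𝒱) (hW' : IsWeilCohomology W' 𝒱')
  {X : Sch k} {g : ℕ} {ξ : W.coh X} (hX : 𝒱.mem X g)
  (hconn : ∀ x, W.Deg X 0 x → ∃ c, x = W.scal c 1) (hun : EQ.Unital X)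
  (hdiv : PositiveDivisor W X g ξ)
  {X' : Sch k'} (hX' : 𝒱'.mem X' g) {s : ∀ P : Prd 1, W.coh (EQ.pw X P) → W'.coh (EQ.pw X' P)}
  (hs' : EQ.IsSpec W X W' X' s) {F : Sch.Mor X' X'} {q : ℕ} (hq : 0 < q)
  (hF : ∀ P l z, W'.IsAlg (EQ.pw X' P) l z →
    W'.pb (EQ.pwMap F P) z = W'.scal ((q : ℂ) ^ l) z)
  (hsp : EQ.SimpleSpectrum W' g q F)

include hW hW' hX hconn hun hdiv hX' hs' hq hF hsp in
/-- **Reduction to a place with a simple spectrum.** If classes of codimension `j` on the powers of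
`X'` with `2 j` factors which are linearly independent over `ℚ` are linearly independent over `ℂ`
then numerical and homological equivalence agree in codimension `j` on all powers of `X`. -/
theorem num_of_indep (j : ℕ)
    (hI : ∀ P : Prd 1, P.size = 2 * j → EQ.Independent W' (EQ.pw X' P) j) (P : Prd 1) :
    EQ.NumHomIn W (EQ.pw X P) j := by
  obtain ⟨c⟩ := exists_core hW hX hconn hun hdiv
  refine num_of_nd hW hX hconn hun hdiv c j (fun P hP => ?_) P
  have hz : ∀ v : Ten (Sub c.D (0, 1)) P.size, ((0 : Ten (Sub c.D (0, 1)) P.size), v) ∈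
      Cj (At1 (hsR hW hW' hX hdiv c hX' hs')) P.size → v = 0 := fun v hv =>
    cj_zero (hsR hW hW' hX hdiv c hX' hs') hP rfl (hI P hP) v hv
  obtain ⟨T, iT, f, bar, lam, Q⟩ :=
    psys_of mainY alg1 (rsys hW hW' hX hconn hun hdiv c hX' hs' hq hF hsp) P.size
  exact nd_of_place (asys hW hX hdiv c) (odd hW hX hdiv c)
    (fun i j => i.2.trans j.2.symm) Q hz

include hW hW' hX hconn hun hdiv hX' hs' hq hF hsp in
/-- the same for numerical equivalence with rational coefficients -/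
theorem num_of_place (j : ℕ) (hD : ∀ P : Prd 1, P.size = 2 * j →
      ∀ z, W'.IsAlg (EQ.pw X' P) j z → EQ.NumTriv W' z → z = 0) (P : Prd 1) :
    EQ.NumHomIn W (EQ.pw X P) j := by
  obtain ⟨c⟩ := exists_core hW hX hconn hun hdiv
  refine num_of_indep hW hW' hX hconn hun hdiv hX' hs' hq hF hsp j (fun P hP => ?_) P
  exact indep_of_num hW' ((hsR hW hW' hX hdiv c hX' hs').memP P) (hD P hP)

end final

end

end UF

end Pool.Agent.Lib.MP_361a6f_ag.FL.E
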