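import Pool.Agent.Lib.MP_361a6f_ag.FL.E.J.Wds

/-!
# Nondegeneracy in one length from a reduction with conjugation of the coefficients

If the conjugation of the coefficients is defined on the span of the algebraic tensors of length `n`
of the reduction then there are no tensors in the kernel.
-/

open Matrix

set_option autoImplicit false
set_option linter.unusedSectionVars false

namespace Pool.Agent.Lib.MP_361a6f_ag.FL.E.Inj

open Pool.Agent.Lib.MP_54168f_ag (Tens ev Feas)
open Nd NdZ Rot QS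
open OL (CA)

variable {I Λ : Type} [Fintype I] [DecidableEq I] [DecidableEq Λ] {D : Dat I Λ}
  {At Ct : (L : ℕ) → Ten I L → Prop}

/-- no tensors in the kernel -/
theorem kr_of_conj (S : ASys D At) (ho : ∀ i, D.odd (D.typ i)) (he : ∀ i j, D.typ i = D.typ j)
    {F : Matrix I I ℂ} {T : Type} [Fintype T] {f : T → Matrix I I ℂ} {bar : T → T} {lam : T → ℂ}
    {n : ℕ} (P : PSys D At Ct F f bar lam n)
    (hI : ∀ v : Ten I n, ((0 : Ten I n), v) ∈ Cj Ct n → v = 0) {t : Ten I n}
    (ht : t ∈ Kr D At n) : t = 0 := by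
  classical
  by_contra h0
  obtain ⟨p, q, wt, hF, hstN⟩ := NdG.exists_optN S ho n
  have hst : ∀ g, Pres D At g → ∀ x y, (q * g.transpose * p) x y ≠ 0 → wt x ≤ wt y :=
    fun g hg => hstN g hg.toN
  obtain ⟨ω, hω, hω', -⟩ := exists_om' S ho he P.fam P.dich hF hst
  obtain ⟨κ, hκ0⟩ : ∃ κ : Fin n → T, slT (fun a => f (κ a)) t ≠ 0 := by
    by_contra hcon
    push Not at hcon
    apply h0
    rw [← sum_wd P.fam t]
    exact Finset.sum_eq_zero fun κ _ => hcon κ
  have e1 := hω' κ t ht hκ0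
  -- the conjugate
  obtain ⟨t', ht'⟩ := cj_exists ht.1
  have hk' : t' ∈ Kr D At n := cj_kr S ht' ht
  have hc : (slT (fun a => f (κ a)) t, slT (fun a => f (bar (κ a))) t') ∈ Cj Ct n :=
    cj_slT P.csys ho he (fun i => P.cm (κ i)) (cj_mono P.sub ht')
  have h1 : slT (fun a => f (bar (κ a))) t' = 0 := by
    by_contra hne
    have e2 := hω' (fun a => bar (κ a)) t' hk' hne
    have e3 : ∑ a, (ω (κ a) + ω (bar (κ a))) ≤ 0 :=
      Finset.sum_nonpos fun a _ => (hω (κ a)).trans (by norm_num)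
    rw [Finset.sum_add_distrib] at e3
    linarith
  rw [h1] at hc
  exact hκ0 (hI _ (cj_swap hc))

/-- the form is nondegenerate on the span -/
theorem nd_of_place (S : ASys D At) (ho : ∀ i, D.odd (D.typ i)) (he : ∀ i j, D.typ i = D.typ j)
    {F : Matrix I I ℂ} {T : Type} [Fintype T] {f : T → Matrix I I ℂ} {bar : T → T} {lam : T → ℂ}
    {n : ℕ} (P : PSys D At Ct F f bar lam n)
    (hI : ∀ v : Ten I n, ((0 : Ten I n), v) ∈ Cj Ct n → v = 0) :
    ∀ u ∈ CA At n, u ≠ 0 → ∃ v ∈ CA At n, psiT D u v ≠ 0 := by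
  intro u hu h0
  by_contra hcon
  push Not at hcon
  exact h0 (kr_of_conj S ho he P hI ⟨hu, hcon⟩)

end Pool.Agent.Lib.MP_361a6f_ag.FL.E.Inj
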