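import Pool.Agent.Lib.MP_361a6f_ag.FL.BAL.UFg
import Pool.Agent.Lib.MP_361a6f_ag.FL.E.DC.StatI4

/-!
# Numerical and homological equivalence: reduction to one place with a simple spectrum
-/

open CategoryTheory AlgebraicGeometry MonoidalCategory CartesianMonoidalCategory

universe u v w w'

set_option autoImplicit false

namespace Pool.Agent.Lib.MP_361a6f_ag.FL.E

open Pool.Agent.Lib.MP_361a6f_ag.H3 Pool.Agent.Lib.MP_361a6f_ag.SQ

namespace UF

/-- **Reduction to a place with a simple spectrum.** -/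
theorem num_of_red {k : Type u} [Field k] {k' : Type v} [Field k']
    {W : CohomologyData.{u, 0, w} k ℂ} {𝒱 : VarietyClass k} (hW : IsWeilCohomology W 𝒱)
    {X : Sch k} {g : ℕ} {ξ : W.coh X} (hX : 𝒱.mem X g)
    (hconn : ∀ x, W.Deg X 0 x → ∃ c, x = W.scal c 1) (hun : EQ.Unital X)
    (hdiv : PositiveDivisor W X g ξ)
    {W' : CohomologyData.{v, 0, w'} k' ℂ} {𝒱' : VarietyClass k'} (hW' : IsWeilCohomology W' 𝒱')
    {X' : Sch k'} (hX' : 𝒱'.mem X' g)
    {s : ∀ P : Prd 1, W.coh (EQ.pw X P) → W'.coh (EQ.pw X' P)} (hs : EQ.IsSpec W X W' X' s)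
    (hF : EQ.Frob W' X' g) (j : ℕ)
    (hQ : ∀ P : Prd 1, P.size = 2 * j → EQ.NumHomQ W' (EQ.pw X' P) j) (P : Prd 1) :
    EQ.NumHomIn W (EQ.pw X P) j := by
  obtain ⟨F, q, a, hq, hfr, ha, ha'⟩ := hF
  exact num_of_place hW hW' hX hconn hun hdiv hX' hs hq hfr ⟨a, ha, ha'⟩ j hQ P

end UF

end Pool.Agent.Lib.MP_361a6f_ag.FL.E
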